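import Pool.Agent.Helper600R2.HT.Stm

/-!
The family of sets which have to be pseudorandom, and the iteration of the phases.
-/

namespace Pool.Agent.Helper600R2.HT

open Finset

section codes

variable {E Q Cd : Type} [Fintype E] [DecidableEq E] [Fintype Q] [DecidableEq Q]

/-- codes of the pieces of the decompositions of the sets `W c` -/
abbrev CA (E Q Cd : Type) (J1 st : ℕ) : Type := Option (Cd × Bx E Q × Fin J1 × Option (Fin st))

/-- codes of the path sets -/
abbrev CP (Cd : Type) (h kk : ℕ) : Type := Option (Cd × (Fin h → (Fin kk → Cd) × Fin kk))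

/-- all codes -/
abbrev CG (E Q Cd : Type) (J1 st h kk : ℕ) : Type :=
  (CA E Q Cd J1 st × CP Cd h kk × CA E Q Cd J1 st) × Bx E Q × Fin J1 × Option (Fin st)

/-- the piece with a given code -/
noncomputable def setA (B : ℝ) (W : Cd → Finset (E → Q)) {J1 st : ℕ} :
    CA E Q Cd J1 st → Finset (E → Q)
  | none => univ
  | some (c, σ, j, o) => Dc B σ ((1 / 2 : ℝ) ^ (j : ℕ)) (W c) (o.map Fin.val)

open Classical in
/-- the path set with a given code -/
noncomputable def setP (W : Cd → Finset (E → Q)) {h kk : ℕ} : CP Cd h kk → Finset (E → Q)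
  | none => univ
  | some (c, p) => univ.filter (fun z => z ∈ W c ∧ ∀ s, z ∈ W ((p s).1 (p s).2) ∧
      ∀ b < (p s).2, z ∉ W ((p s).1 b))

/-- the set with a given code -/
noncomputable def setG (B : ℝ) (W : Cd → Finset (E → Q)) {J1 st h kk : ℕ}
    (x : CG E Q Cd J1 st h kk) : Finset (E → Q) :=
  Dc B x.2.1 ((1 / 2 : ℝ) ^ (x.2.2.1 : ℕ))
    (setA B W x.1.1 ∩ setP W x.1.2.1 ∩ setA B W x.1.2.2) (x.2.2.2.map Fin.val)

end codes

/-- lines reached from the root after `s` steps -/
inductive Reach {E Q : Type} {kk M : ℕ} (R : Dag E Q kk M) (root : Fin M) : ℕ → Fin M → Prop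
  | zero : Reach R root 0 root
  | succ {s : ℕ} {g : Fin M} (b : Fin kk) : Reach R root s g → Reach R root (s + 1) (R.prem g b)

theorem Reach.walk {E Q : Type} {kk M : ℕ} {R : Dag E Q kk M} {root : Fin M} {s : ℕ} {f : Fin M}
    (hf : Reach R root s f) (a : ℕ → Fin kk) (h : ℕ) : Reach R root (s + h) (R.walk f a h) := by
  induction h with
  | zero => exact hf
  | succ h ih => exact Reach.succ (a h) ih

/-- the parts with large index are empty -/
def S_Big : Prop := ∀ (E Q : Type) [Fintype E] [DecidableEq E] [Fintype Q] [DecidableEq Q]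
  [Nonempty Q] (B : ℝ) (σ : Bx E Q) (θ : ℝ) (X : Finset (E → Q)), 1 ≤ B → 0 ≤ θ →
  ∀ j, stp E Q ≤ j → part B σ θ X j = ∅

section

variable {V E Q Cd : Type} [Fintype V] [DecidableEq V] [Fintype E] [DecidableEq E]
  [Fintype Q] [DecidableEq Q] [Nonempty Q] [Nonempty V]

theorem PR_empty (B : ℝ) (hB : 1 ≤ B) (r : E → Q → ℝ) : PR B r (∅ : Finset (E → Q)) := by
  intro σ S w _ hLt
  have h1 : mean (∅ : Finset (E → Q)) σ = 0 := by simp [mean, ind]
  have h2 := hLt σ ⟨subset_rfl, fun _ _ => rfl⟩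
  rw [h1] at h2
  have h3 : hat r (∅ : Finset (E → Q)) σ S = 0 := by simp [hat, ind]
  rw [h3, abs_zero]
  positivity

variable (G : Sys V E Q) (W : Cd → Finset (E → Q)) (B : ℝ)

theorem pr_Dc (hBig : S_Big) (hB : 1 ≤ B) (X : Finset (E → Q)) (σ : Bx E Q) (θ : ℝ) (hθ : 0 ≤ θ)
    (h : ∀ o : Option (Fin (stp E Q)), PR B G.r (Dc B σ θ X (o.map Fin.val))) (o : Option ℕ) :
    PR B G.r (Dc B σ θ X o) := by
  cases o with
  | none => exact h none
  | some j =>
    by_cases hj : j < stp E Q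
    · exact h (some ⟨j, hj⟩)
    · show PR B G.r (part B σ θ X j)
      rw [hBig E Q B σ θ X hB hθ j (by omega)]
      exact PR_empty B hB G.r

/-- the deterministic core: no refutation of small height -/
theorem core (hBase : S_Base) (hComp : S_Comp) (hPath : S_Path) (hPhase : S_Phase)
    (hNot : S_NotAx) (hEl : S_Elem) (hBig : S_Big) (hG : G.Ok)
    (β i k' h L dd kk M J1 : ℕ) [NeZero kk] (hB : B = 2 ^ β)
    (hB5 : (1 + 1 / B) ^ Fintype.card E ≤ 5 / 4) (hBq : B < Fintype.card Q)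
    (hV : 3 < Fintype.card V) (hstar : ∀ v, (G.bdr {v}).card ≤ G.D0) (hdd : dd ≤ G.D0)
    (hM : M ≤ 2 ^ i) (hkk : kk ≤ 2 ^ k')
    (hJ : (5 + i) * (L + 1) + 5 + k' * h ≤ β * dd) (hβ : 0 < β)
    (hJ1 : (5 + i) * (L + 1) + 5 + k' * h < J1)
    (hη : Fintype.card V + (2 * ((5 + i) * (L + 1)) + k' * h + 8) ≤ β * (G.D0 - dd))
    (hPR : ∀ x : CG E Q Cd J1 (stp E Q) h kk, PR B G.r (setG B W x))
    (R : Dag E Q kk M) (code : Fin M → Cd) (hcode : ∀ g, R.Vs g = W (code g))
    (root : Fin M) (hroot : R.Vs root = univ)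
    (hax : ∀ g, Reach R root (L * h) g → R.Vs g = ∅ ∨ ∃ (v : V) (α : E → Q),
      (∀ z ∈ R.Vs g, ∀ e ∈ G.bdr {v}, z e = α e) ∧ G.c v * ∏ e ∈ G.bdr {v}, G.r e (α e) ≠ 1) :
    False := by
  classical
  have hB1 : 1 ≤ B := by rw [hB]; exact one_le_pow₀ (by norm_num)
  have hB0 : 0 < B := by linarith
  obtain ⟨α0⟩ : Nonempty (E → Q) := inferInstance
  have hst : 0 < J1 := by omega
  have e0 : ∀ X : Finset (E → Q), Dc B ((∅, α0) : Bx E Q) 1 X none = X :=
    fun X => (hEl E Q B X α0 hB1).2.2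
  -- pseudorandomness of all the sets we need
  have pA : ∀ a : CA E Q Cd J1 (stp E Q), PR B G.r (setA B W a) := by
    intro a
    have h1 := hPR ((a, none, none), (∅, α0), ⟨0, hst⟩, none)
    simp only [setG, setP, setA, inter_univ, pow_zero, Option.map_none, e0] at h1
    exact h1
  have pX : ∀ (a : CA E Q Cd J1 (stp E Q)) (p : CP Cd h kk) (a' : CA E Q Cd J1 (stp E Q)),
      PR B G.r (setA B W a ∩ setP W p ∩ setA B W a') := by
    intro a p a'
    have h1 := hPR ((a, p, a'), (∅, α0), ⟨0, hst⟩, none)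
    simp only [setG, pow_zero, Option.map_none, e0] at h1
    exact h1
  have pD : ∀ (a : CA E Q Cd J1 (stp E Q)) (p : CP Cd h kk) (a' : CA E Q Cd J1 (stp E Q))
      (σ : Bx E Q) (j : ℕ) (_ : j < J1) (o : Option ℕ),
      PR B G.r (Dc B σ ((1 / 2 : ℝ) ^ j) (setA B W a ∩ setP W p ∩ setA B W a') o) := by
    intro a p a' σ j hj o
    refine pr_Dc G B hBig hB1 _ σ _ (by positivity) (fun o => ?_) o
    exact hPR ((a, p, a'), σ, ⟨j, hj⟩, o)
  have pV : ∀ (c : Cd) (σ : Bx E Q) (j : ℕ) (_ : j < J1) (o : Option ℕ),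
      PR B G.r (Dc B σ ((1 / 2 : ℝ) ^ j) (W c) o) := by
    intro c σ j hj o
    refine pr_Dc G B hBig hB1 _ σ _ (by positivity) (fun o => ?_) o
    exact pA (some (c, σ, ⟨j, hj⟩, o))
  -- code of the path sets
  have hps : ∀ (f : Fin M) (a : Fin h → Fin kk), R.ps f a = setP W (some (code f,
      fun s : Fin h => (fun b => code (R.prem (R.walk f (exa a) s) b), exa a s))) := by
    intro f a
    ext z
    simp only [Dag.ps, setP, mem_filter, mem_univ, true_and, hcode]
    refine and_congr_right (fun _ => ?_)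
    constructor
    · intro h1 s
      exact h1 s s.2
    · intro h1 s hs
      exact h1 ⟨s, hs⟩
  set η : ℝ := 2 ^ Fintype.card V * (1 / B) ^ (G.D0 - dd) with hηd
  have hη1 : η ≤ (1 / 2) ^ (2 * ((5 + i) * (L + 1)) + k' * h + 8) := by
    have h1 : (1 / B) ^ (G.D0 - dd) = (1 / 2 : ℝ) ^ (β * (G.D0 - dd)) := by
      have h0 : 1 / B = (1 / 2 : ℝ) ^ β := by rw [hB, one_div_pow]
      rw [h0, pow_mul]
    have h2 : (1 / 2 : ℝ) ^ (β * (G.D0 - dd)) ≤
        (1 / 2) ^ (Fintype.card V + (2 * ((5 + i) * (L + 1)) + k' * h + 8)) :=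
      pow_le_pow_of_le_one (by norm_num) (by norm_num) hη
    rw [hηd, h1]
    calc (2 : ℝ) ^ Fintype.card V * (1 / 2) ^ (β * (G.D0 - dd))
        ≤ 2 ^ Fintype.card V *
          (1 / 2) ^ (Fintype.card V + (2 * ((5 + i) * (L + 1)) + k' * h + 8)) :=
          mul_le_mul_of_nonneg_left h2 (by positivity)
      _ = (1 / 2) ^ (2 * ((5 + i) * (L + 1)) + k' * h + 8) := by
          rw [pow_add, ← mul_assoc, ← mul_pow]
          norm_num
  have hη0 : 0 ≤ η := by rw [hηd]; positivity
  have hη4 : η ≤ 1 / 256 := by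
    refine hη1.trans ?_
    calc (1 / 2 : ℝ) ^ (2 * ((5 + i) * (L + 1)) + k' * h + 8) ≤ (1 / 2) ^ 8 :=
          pow_le_pow_of_le_one (by norm_num) (by norm_num) (by omega)
      _ = 1 / 256 := by norm_num
  have hsize : ∀ j, j ≤ (5 + i) * (L + 1) + 5 + k' * h → ∀ s : ℕ, (1 / 2 : ℝ) ^ j * B ^ s < 1 →
      s ≤ dd := by
    intro j hj s hs
    by_contra hcon
    have h1 : j ≤ β * s := hj.trans (hJ.trans (Nat.mul_le_mul_left _ (by omega)))
    have h2 : (1 : ℝ) ≤ (1 / 2 : ℝ) ^ j * B ^ s := by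
      rw [hB, ← pow_mul, one_div, inv_pow]
      rw [← div_eq_inv_mul, one_le_div (by positivity)]
      exact pow_le_pow_right₀ (by norm_num) h1
    linarith
  -- the phases
  have key : ∀ t ≤ L, ∃ (f : Fin M) (σ : Bx E Q) (a : CA E Q Cd J1 (stp E Q)) (w0 : ℝ),
      Reach R root (t * h) f ∧ σ.1.card ≤ dd ∧ G.Good σ ∧ setA B W a ⊆ R.Vs f ∧
      (∀ z ∈ setA B W a, InB σ z) ∧ (1 / 2 : ℝ) ^ ((5 + i) * t) ≤ w0 ∧
      mean (setA B W a) σ = w0 * B ^ σ.1.card ∧ Lt B (setA B W a) σ w0 := by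
    intro t
    induction t with
    | zero =>
      intro _
      refine ⟨root, (∅, α0), none, 1, ?_, by simp, ?_, ?_, ?_, by simp, ?_, ?_⟩
      · rw [zero_mul]; exact Reach.zero
      · intro U hU hUσ
        have h1 : G.bdr U = ∅ := subset_empty.mp hUσ
        rcases hG.conn U h1 with h2 | h2
        · subst h2
          rw [h1]
          simp
        · exfalso
          subst h2
          simp only [Sys.SS, mem_filter, mem_univ, true_and, card_univ] at hU
          omega
      · rw [hroot]; exact subset_univ _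
      · intro z _ e he
        simp at he
      · have := (hEl E Q B univ α0 hB1).2.1
        simpa [setA] using this
      · exact (hEl E Q B univ α0 hB1).1
    | succ t ih =>
      intro ht
      obtain ⟨f, σ, a, w0, hR, hσd, hσG, hPV, hPσ, hw, hmean, hLt⟩ := ih (by omega)
      have hw0 : 0 < w0 := lt_of_lt_of_le (by positivity) hw
      have hle : (5 + i) * (t + 1) ≤ (5 + i) * (L + 1) := Nat.mul_le_mul_left _ (by omega)
      have hle' : (5 + i) * t ≤ (5 + i) * (L + 1) := Nat.mul_le_mul_left _ (by omega)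
      obtain ⟨j2, hj2⟩ : ∃ j2, j2 = (5 + i) * (t + 1) := ⟨_, rfl⟩
      obtain ⟨j1, hj1⟩ : ∃ j1, j1 = (5 + i) * t + 5 + k' * h := ⟨_, rfl⟩
      have hj2J : j2 < J1 := by omega
      have hj1J : j1 < J1 := by omega
      have hkkr : (kk : ℝ) ^ h ≤ 2 ^ (k' * h) := by
        rw [pow_mul]
        exact pow_le_pow_left₀ (by positivity) (by exact_mod_cast hkk) h
      have hMr : (M : ℝ) ≤ 2 ^ i := by exact_mod_cast hM
      have hhalf : ∀ x : ℕ, (0 : ℝ) < (1 / 2 : ℝ) ^ x := fun x => by positivity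
      have hnum : (kk : ℝ) ^ h * (η / (1 / 2) ^ j2) + (kk : ℝ) ^ h * (η + (1 / 2) ^ j1 *
          (5 / 4 + η)) + 25 / 8 * M * (1 / 2) ^ j2 < (3 / 4 - η) * w0 := by
        have s1 : (kk : ℝ) ^ h * (η / (1 / 2) ^ j2) ≤ 1 / 256 * w0 := by
          have h1 : (kk : ℝ) ^ h * (η / (1 / 2) ^ j2) ≤
              2 ^ (k' * h) * ((1 / 2) ^ (2 * ((5 + i) * (L + 1)) + k' * h + 8) / (1 / 2) ^ j2) := by
            gcongr
          have h2 : (2 : ℝ) ^ (k' * h) *
              ((1 / 2) ^ (2 * ((5 + i) * (L + 1)) + k' * h + 8) / (1 / 2) ^ j2) ≤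
              1 / 256 * (1 / 2) ^ ((5 + i) * t) := by
            obtain ⟨d1, hd1⟩ : ∃ d1, 2 * ((5 + i) * (L + 1)) = j2 + (5 + i) * t + d1 :=
              ⟨2 * ((5 + i) * (L + 1)) - (j2 + (5 + i) * t), by omega⟩
            have h3 : (2 : ℝ) ^ (k' * h) *
                ((1 / 2) ^ (2 * ((5 + i) * (L + 1)) + k' * h + 8) / (1 / 2) ^ j2) =
                ((2 : ℝ) ^ (k' * h) * (1 / 2) ^ (k' * h)) * ((1 / 2) ^ 8 * (1 / 2) ^ ((5 + i) * t)) *
                  (1 / 2) ^ d1 * ((1 / 2) ^ j2 / (1 / 2) ^ j2) := by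
              rw [hd1]; simp only [pow_add]; ring
            rw [h3, ← mul_pow, div_self (hhalf j2).ne']
            have h4 : (1 / 2 : ℝ) ^ d1 ≤ 1 := pow_le_one₀ (by norm_num) (by norm_num)
            have h5 := hhalf ((5 + i) * t)
            norm_num at h4 ⊢
            nlinarith
          calc _ ≤ _ := h1
            _ ≤ _ := h2
            _ ≤ _ := by linarith
        have s2 : (kk : ℝ) ^ h * η ≤ 1 / 256 * w0 := by
          refine le_trans ?_ s1
          refine mul_le_mul_of_nonneg_left ?_ (by positivity)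
          rw [le_div_iff₀ (hhalf j2)]
          have : (1 / 2 : ℝ) ^ j2 ≤ 1 := pow_le_one₀ (by norm_num) (by norm_num)
          nlinarith
        have s3 : (kk : ℝ) ^ h * ((1 / 2) ^ j1 * (5 / 4 + η)) ≤ 1 / 16 * w0 := by
          have h1 : (kk : ℝ) ^ h * (1 / 2) ^ j1 ≤ 1 / 32 * w0 := by
            calc (kk : ℝ) ^ h * (1 / 2) ^ j1 ≤ 2 ^ (k' * h) * (1 / 2) ^ j1 := by gcongr
              _ = ((2 : ℝ) ^ (k' * h) * (1 / 2) ^ (k' * h)) *
                  ((1 / 2) ^ 5 * (1 / 2) ^ ((5 + i) * t)) := by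
                    rw [hj1]; simp only [pow_add]; ring
              _ = 1 / 32 * (1 / 2) ^ ((5 + i) * t) := by rw [← mul_pow]; norm_num
              _ ≤ _ := by linarith
          have h2 : 0 ≤ (kk : ℝ) ^ h * (1 / 2) ^ j1 := by positivity
          nlinarith
        have s4 : 25 / 8 * (M : ℝ) * (1 / 2) ^ j2 ≤ 1 / 8 * w0 := by
          have h1 : (M : ℝ) * (1 / 2) ^ j2 ≤ 1 / 32 * w0 := by
            calc (M : ℝ) * (1 / 2) ^ j2 ≤ 2 ^ i * (1 / 2) ^ j2 := by gcongr
              _ = ((2 : ℝ) ^ i * (1 / 2) ^ i) * ((1 / 2) ^ 5 * (1 / 2) ^ ((5 + i) * t)) := by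
                    rw [hj2, Nat.mul_succ]; simp only [pow_add]; ring
              _ = 1 / 32 * (1 / 2) ^ ((5 + i) * t) := by rw [← mul_pow]; norm_num
              _ ≤ _ := by linarith
          nlinarith
        nlinarith [mul_add ((kk : ℝ) ^ h) η ((1 / 2) ^ j1 * (5 / 4 + η))]
      obtain ⟨a1, j, ρ, hSub, hρG, hρB, hρw, hρL⟩ := hPhase V E Q G B w0 ((1 / 2) ^ j1)
        ((1 / 2) ^ j2) η dd kk M h R f (setA B W a) σ hG hBase hComp hPath hB1 hB5 hdd le_rfl
        (by linarith) (by positivity) (by positivity) (hsize j1 (by omega)) (hsize j2 (by omega))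
        hσd hσG hPV hPσ (pA a) hw0 hmean hLt
        (fun g o => by rw [hcode]; exact pV (code g) σ j2 hj2J o)
        (fun a1 o => by
          rw [hps, hcode]
          cases o with
          | none => exact pX a _ (some (code _, σ, ⟨j2, hj2J⟩, none))
          | some j =>
            by_cases hj : j < stp E Q
            · exact pX a _ (some (code _, σ, ⟨j2, hj2J⟩, some ⟨j, hj⟩))
            · have h1 : Dc B σ ((1 / 2 : ℝ) ^ j2) (W (code (R.walk f (exa a1) h))) (some j) = ∅ :=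
                hBig E Q B σ _ _ hB1 (by positivity) j (by omega)
              rw [h1, inter_empty]
              exact PR_empty B hB1 G.r)
        (fun a1 o => by
          rw [hps, hcode]
          exact pD a _ (some (code _, σ, ⟨j2, hj2J⟩, none)) σ j1 hj1J o)
        hnum
      set g := R.walk f (exa a1) h with hg
      have hne : (part B σ ((1 / 2) ^ j2) (R.Vs g) j).Nonempty := by
        by_contra hcon
        rw [not_nonempty_iff_eq_empty] at hcon
        rw [hcon] at hρw
        have : mean (∅ : Finset (E → Q)) ρ = 0 := by simp [mean, ind]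
        rw [this] at hρw
        have : (0 : ℝ) < (1 / 2) ^ j2 * B ^ ρ.1.card := by positivity
        linarith
      have hjst : j < stp E Q := by
        by_contra hcon
        rw [hBig E Q B σ _ _ hB1 (by positivity) j (by omega)] at hne
        exact not_nonempty_empty hne
      have hset : setA B W (some (code g, σ, ⟨j2, hj2J⟩, some ⟨j, hjst⟩) : CA E Q Cd J1 (stp E Q)) =
          part B σ ((1 / 2) ^ j2) (R.Vs g) j := by
        rw [hcode]; rfl
      refine ⟨g, ρ, some (code g, σ, ⟨j2, hj2J⟩, some ⟨j, hjst⟩),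
        mean (part B σ ((1 / 2) ^ j2) (R.Vs g) j) ρ / B ^ ρ.1.card, ?_, ?_, hρG, ?_, ?_, ?_, ?_, ?_⟩
      · rw [Nat.succ_mul]
        exact hR.walk _ _
      · refine hsize j2 (by omega) _ (lt_of_lt_of_le hρw ?_)
        exact ((hBase.2.2.2.1 V E Q G _ ρ hρB)).2.2.2
      · rw [hset]
        -- the part is contained in the set
        intro z hz
        have hD := (hBase.1 E Q B σ ((1 / 2) ^ j2) (R.Vs g) hB1 (by positivity)).1 z
        by_contra hz2
        have h1 : ind (R.Vs g) z = 0 := by simp [ind, hz2]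
        rw [h1, ite_self] at hD
        have h2 : ∀ j', 0 ≤ ind (part B σ ((1 / 2) ^ j2) (R.Vs g) j') z := fun j' => by
          unfold ind; split_ifs <;> norm_num
        have h3 : 0 ≤ ind (rest B σ ((1 / 2) ^ j2) (R.Vs g) (stp E Q)) z := by
          unfold ind; split_ifs <;> norm_num
        have h4 : ind (part B σ ((1 / 2) ^ j2) (R.Vs g) j) z ≤
            ∑ j' ∈ range (stp E Q), ind (part B σ ((1 / 2) ^ j2) (R.Vs g) j') z :=
          single_le_sum (f := fun j' => ind (part B σ ((1 / 2) ^ j2) (R.Vs g) j') z)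
            (fun j' _ => h2 j') (mem_range.mpr hjst)
        have h5 : ind (part B σ ((1 / 2) ^ j2) (R.Vs g) j) z = 1 := by
          unfold ind
          rw [if_pos hz]
        linarith
      · rw [hset]; exact hρB
      · rw [le_div_iff₀ (by positivity), ← hj2]
        exact hρw.le
      · rw [hset]
        field_simp
      · rw [hset]; exact hρL
  obtain ⟨f, σ, a, w0, hR, hσd, hσG, hPV, hPσ, hw, hmean, hLt⟩ := key L le_rfl
  have hw0 : 0 < w0 := lt_of_lt_of_le (by positivity) hw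
  have hmpos : 0 < mean (setA B W a) σ := by rw [hmean]; positivity
  rcases hax f hR with h1 | ⟨v, α, h1, h2⟩
  · have h3 : setA B W a = ∅ := by
      rw [← subset_empty, ← h1]; exact hPV
    rw [h3] at hmpos
    have : mean (∅ : Finset (E → Q)) σ = 0 := by simp [mean, ind]
    linarith
  · refine h2 (hNot V E Q G B (setA B W a) σ v α hG hBase.2.2.2.1 hB1 hBq hV (hstar v) hσG hPσ
      hmpos ?_ (fun z hz => h1 z (hPV hz)))
    rw [hmean, mul_div_assoc, div_self (by positivity), mul_one]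
    exact hLt

end

end Pool.Agent.Helper600R2.HT
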