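import Mathlib

/-!
Definitions for the lower bound for refutations whose lines come from an arbitrary small family of
Boolean functions: product space `E → Q`, boxes, random signs, the Tseitin functional.
-/

namespace Pool.Agent.Helper600R2.HT

open Finset

/-- signs of the Booleans -/
noncomputable def sg (b : Bool) : ℝ := if b = true then -1 else 1

/-- a box: the set of coordinates which are fixed, and the values (only the values at the fixed
coordinates matter) -/
abbrev Bx (E Q : Type) : Type := Finset E × (E → Q)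

section

variable {V E Q : Type} [Fintype V] [DecidableEq V] [Fintype E] [DecidableEq E]
  [Fintype Q] [DecidableEq Q]

/-- the box `ρ` is contained in the box `σ` (it fixes more coordinates) -/
def Sub (σ ρ : Bx E Q) : Prop := σ.1 ⊆ ρ.1 ∧ ∀ e ∈ σ.1, ρ.2 e = σ.2 e

/-- the point `z` lies in the box -/
def InB (σ : Bx E Q) (z : E → Q) : Prop := ∀ e ∈ σ.1, z e = σ.2 e

/-- overwrite the fixed coordinates -/
def mg (σ : Bx E Q) (z : E → Q) : E → Q := fun e => if e ∈ σ.1 then σ.2 e else z e

/-- fix one more coordinate -/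
def xt (σ : Bx E Q) (e : E) (u : Q) : Bx E Q := (insert e σ.1, Function.update σ.2 e u)

/-- indicator -/
noncomputable def ind (X : Finset (E → Q)) (z : E → Q) : ℝ := if z ∈ X then 1 else 0

/-- relative density of `X` in the box `σ` -/
noncomputable def mean (X : Finset (E → Q)) (σ : Bx E Q) : ℝ :=
  (∑ z, ind X (mg σ z)) / (Fintype.card Q : ℝ) ^ Fintype.card E

/-- correlation of `X` in the box `σ` with the product of the signs over `S` -/
noncomputable def hat (r : E → Q → ℝ) (X : Finset (E → Q)) (σ : Bx E Q) (S : Finset E) : ℝ :=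
  (∑ z, ind X (mg σ z) * ∏ e ∈ S, r e (z e)) / (Fintype.card Q : ℝ) ^ Fintype.card E

/-- the same for the whole space -/
noncomputable def hat0 (r : E → Q → ℝ) (X : Finset (E → Q)) (S : Finset E) : ℝ :=
  (∑ z, ind X z * ∏ e ∈ S, r e (z e)) / (Fintype.card Q : ℝ) ^ Fintype.card E

/-- density in the whole space -/
noncomputable def mu (X : Finset (E → Q)) : ℝ :=
  (X.card : ℝ) / (Fintype.card Q : ℝ) ^ Fintype.card E

/-- `X` is light in the box `σ` at level `w` -/
def Lt (B : ℝ) (X : Finset (E → Q)) (σ : Bx E Q) (w : ℝ) : Prop :=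
  ∀ ρ, Sub σ ρ → mean X ρ ≤ w * B ^ ρ.1.card

/-- `X` is pseudorandom with respect to the signs `r` -/
def PR (B : ℝ) (r : E → Q → ℝ) (X : Finset (E → Q)) : Prop :=
  ∀ (σ : Bx E Q) (S : Finset E) (w : ℝ), Disjoint S σ.1 → Lt B X σ w →
    |hat r X σ S| ≤ w * B ^ σ.1.card * (1 / B) ^ S.card

open Classical in
/-- the next heavy box -/
noncomputable def pick (B : ℝ) (σ : Bx E Q) (θ : ℝ) (Y : Finset (E → Q)) : Option (Bx E Q) :=
  if h : ∃ ρ, Sub σ ρ ∧ θ * B ^ ρ.1.card < mean Y ρ ∧
      ∀ ρ', Sub σ ρ' → mean Y ρ' * B ^ ρ.1.card ≤ mean Y ρ * B ^ ρ'.1.card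
    then some h.choose else none

open Classical in
/-- what is left after `j` heavy boxes are removed -/
noncomputable def rest (B : ℝ) (σ : Bx E Q) (θ : ℝ) (X : Finset (E → Q)) : ℕ → Finset (E → Q)
  | 0 => X.filter (fun z => InB σ z)
  | j + 1 =>
    match pick B σ θ (rest B σ θ X j) with
    | some ρ => (rest B σ θ X j).filter (fun z => ¬ InB ρ z)
    | none => rest B σ θ X j

open Classical in
/-- the `j`-th heavy part -/
noncomputable def part (B : ℝ) (σ : Bx E Q) (θ : ℝ) (X : Finset (E → Q)) (j : ℕ) :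
    Finset (E → Q) :=
  match pick B σ θ (rest B σ θ X j) with
  | some ρ => (rest B σ θ X j).filter (fun z => InB ρ z)
  | none => ∅

/-- the number of steps of the decomposition -/
def stp (E Q : Type) [Fintype E] [DecidableEq E] [Fintype Q] : ℕ := Fintype.card (E → Q)

/-- the pieces of the decomposition: the heavy parts and the rest -/
noncomputable def Dc (B : ℝ) (σ : Bx E Q) (θ : ℝ) (X : Finset (E → Q)) :
    Option ℕ → Finset (E → Q)
  | some j => part B σ θ X j
  | none => rest B σ θ X (stp E Q)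

end

/-- the data: a graph with vertices `V` and edges `E`, the signs `r`, the charges `c`, the degree
`D0` -/
structure Sys (V E Q : Type) where
  hd : E → V
  tl : E → V
  r : E → Q → ℝ
  c : V → ℝ
  D0 : ℕ

section

variable {V E Q : Type} [Fintype V] [DecidableEq V] [Fintype E] [DecidableEq E]
  [Fintype Q] [DecidableEq Q]

/-- edge boundary -/
def Sys.bdr (G : Sys V E Q) (U : Finset V) : Finset E :=
  univ.filter (fun e => ¬ (G.hd e ∈ U ↔ G.tl e ∈ U))

/-- the assumptions on the data -/
structure Sys.Ok (G : Sys V E Q) : Prop where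
  mid : ∀ U : Finset V, Fintype.card V ≤ 3 * U.card → 3 * U.card ≤ 2 * Fintype.card V →
    G.D0 < (G.bdr U).card
  conn : ∀ U : Finset V, G.bdr U = ∅ → U = ∅ ∨ U = univ
  sr : ∀ e u, G.r e u = 1 ∨ G.r e u = -1
  sc : ∀ v, G.c v = 1 ∨ G.c v = -1
  tot : ∏ v, G.c v = -1

/-- small sets of vertices with small boundary -/
def Sys.SS (G : Sys V E Q) : Finset (Finset V) :=
  univ.filter (fun U => 3 * U.card < Fintype.card V ∧ (G.bdr U).card ≤ G.D0)

/-- sets of vertices avoiding `v` -/
def Av (v : V) : Finset (Finset V) := univ.filter (fun U => v ∉ U)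

/-- the coefficient sums -/
noncomputable def Sys.AA (G : Sys V E Q) (𝓤 : Finset (Finset V)) (σ : Bx E Q) (S : Finset E) : ℝ :=
  ∑ U ∈ 𝓤.filter (fun U => G.bdr U \ σ.1 = S),
    (∏ v ∈ U, G.c v) * ∏ e ∈ G.bdr U ∩ σ.1, G.r e (σ.2 e)

/-- the functionals -/
noncomputable def Sys.LL (G : Sys V E Q) (𝓤 : Finset (Finset V)) (X : Finset (E → Q)) : ℝ :=
  ∑ U ∈ 𝓤, (∏ v ∈ U, G.c v) * hat0 G.r X (G.bdr U)

/-- the box is consistent with the constraints -/
def Sys.Good (G : Sys V E Q) (σ : Bx E Q) : Prop :=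
  ∀ U ∈ G.SS, G.bdr U ⊆ σ.1 → (∏ v ∈ U, G.c v) * ∏ e ∈ G.bdr U, G.r e (σ.2 e) = 1

end

/-- a directed acyclic refutation, seen from the root: line `i` has the falsifying set `Vs i`,
and the premises `prem i b` -/
structure Dag (E Q : Type) (kk M : ℕ) where
  Vs : Fin M → Finset (E → Q)
  prem : Fin M → Fin kk → Fin M
  cov : ∀ i, ∀ z ∈ Vs i, ∃ b, z ∈ Vs (prem i b)

/-- the line reached from `f` after `s` steps along the choices `a` -/
def Dag.walk {E Q : Type} {kk M : ℕ} (R : Dag E Q kk M) (f : Fin M) (a : ℕ → Fin kk) : ℕ → Fin M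
  | 0 => f
  | s + 1 => R.prem (R.walk f a s) (a s)

/-- extension of a finite choice sequence -/
def exa {kk h : ℕ} [NeZero kk] (a : Fin h → Fin kk) : ℕ → Fin kk :=
  fun s => if hs : s < h then a ⟨s, hs⟩ else 0

open Classical in
/-- the points of `Vs f` whose canonical path (first premise containing the point) of length `h`
has the choices `a` -/
noncomputable def Dag.ps {E Q : Type} [Fintype E] [DecidableEq E] [Fintype Q] {kk M : ℕ} [NeZero kk]
    (R : Dag E Q kk M) (f : Fin M) {h : ℕ} (a : Fin h → Fin kk) : Finset (E → Q) :=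
  univ.filter (fun z => z ∈ R.Vs f ∧ ∀ s < h,
    z ∈ R.Vs (R.prem (R.walk f (exa a) s) (exa a s)) ∧
      ∀ b < exa a s, z ∉ R.Vs (R.prem (R.walk f (exa a) s) b))

end Pool.Agent.Helper600R2.HT
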