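import Pool.Agent.Helper600R2.HT.Defs

/-! Statements of the modules (all dependencies are hypotheses). -/

namespace Pool.Agent.Helper600R2.HT

open Finset

/-- T1: Hoeffding's inequality, counting form -/
def S_Hoeff : Prop := ∀ (Q : Type) [Fintype Q] [DecidableEq Q] (c : Q → ℝ) (t : ℝ), 0 ≤ t →
  ((univ.filter (fun r : Q → Bool =>
    t * √(∑ u, c u ^ 2) < |∑ u, sg (r u) * c u|)).card : ℝ) ≤
    2 * Real.exp (-(t ^ 2 / 2)) * 2 ^ Fintype.card Q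

/-- T2: good signs exist -/
def S_Signs : Prop := ∀ (E Q Γ : Type) [Fintype E] [DecidableEq E] [Fintype Q] [DecidableEq Q]
  [Fintype Γ] (X : Γ → Finset (E → Q)) (t : ℝ), 0 ≤ t → S_Hoeff →
  (Fintype.card Γ : ℝ) * (2 ^ Fintype.card E * (Fintype.card Q : ℝ) ^ Fintype.card E) *
    Fintype.card E * 2 ^ Fintype.card E * (2 * Real.exp (-(t ^ 2 / 2))) < 1 →
  ∃ r : E → Q → Bool, ∀ (γ : Γ) (σ : Bx E Q) (e : E) (S : Finset E), e ∉ σ.1 → e ∉ S →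
    |∑ u, sg (r e u) * hat (fun e u => sg (r e u)) (X γ) (xt σ e u) S| ≤
      t * √(∑ u, hat (fun e u => sg (r e u)) (X γ) (xt σ e u) S ^ 2)

/-- T3: good signs make a set pseudorandom -/
def S_PR : Prop := ∀ (E Q : Type) [Fintype E] [DecidableEq E] [Fintype Q] [DecidableEq Q]
  [Nonempty Q] (r : E → Q → ℝ) (X : Finset (E → Q)) (t B : ℝ), 0 ≤ t → 1 ≤ B →
  t ^ 2 * B ^ 3 ≤ Fintype.card Q →
  (∀ (σ : Bx E Q) (e : E) (S : Finset E), e ∉ σ.1 → e ∉ S →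
    |∑ u, r e u * hat r X (xt σ e u) S| ≤ t * √(∑ u, hat r X (xt σ e u) S ^ 2)) →
  PR B r X

/-- T4: the density decomposition -/
def S_Decomp : Prop := ∀ (E Q : Type) [Fintype E] [DecidableEq E] [Fintype Q] [DecidableEq Q]
  [Nonempty Q] (B : ℝ) (σ : Bx E Q) (θ : ℝ) (X : Finset (E → Q)), 1 ≤ B → 0 ≤ θ →
  (∀ z, (open Classical in if InB σ z then ind X z else 0) =
    ∑ j ∈ range (stp E Q), ind (part B σ θ X j) z + ind (rest B σ θ X (stp E Q)) z) ∧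
  Lt B (rest B σ θ X (stp E Q)) σ θ ∧
  ∀ j, (part B σ θ X j).Nonempty → ∃ ρ : Bx E Q, Sub σ ρ ∧ (∀ z ∈ part B σ θ X j, InB ρ z) ∧
    θ * B ^ ρ.1.card < mean (part B σ θ X j) ρ ∧
    Lt B (part B σ θ X j) ρ (mean (part B σ θ X j) ρ / B ^ ρ.1.card)

/-- T5: the coefficient sums over the small sets -/
def S_AA : Prop := ∀ (V E Q : Type) [Fintype V] [DecidableEq V] [Fintype E] [DecidableEq E]
  [Fintype Q] [DecidableEq Q] (G : Sys V E Q), G.Ok → ∀ σ : Bx E Q, σ.1.card ≤ G.D0 →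
  0 ≤ G.AA G.SS σ ∅ ∧ (G.Good σ → 1 ≤ G.AA G.SS σ ∅) ∧ (¬ G.Good σ → G.AA G.SS σ ∅ = 0) ∧
    ∀ S, Disjoint S σ.1 → σ.1.card + S.card ≤ G.D0 → |G.AA G.SS σ S| ≤ G.AA G.SS σ ∅

/-- T6: the coefficient sums over the sets avoiding a vertex -/
def S_AAv : Prop := ∀ (V E Q : Type) [Fintype V] [DecidableEq V] [Fintype E] [DecidableEq E]
  [Fintype Q] [DecidableEq Q] (G : Sys V E Q), G.Ok → ∀ (σ : Bx E Q) (v : V),
  0 ≤ G.AA (Av v) σ ∅ ∧ ∀ S, |G.AA (Av v) σ S| ≤ G.AA (Av v) σ ∅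

/-- T7: comparison of the two -/
def S_AAcmp : Prop := ∀ (V E Q : Type) [Fintype V] [DecidableEq V] [Fintype E] [DecidableEq E]
  [Fintype Q] [DecidableEq Q] (G : Sys V E Q), G.Ok → ∀ σ : Bx E Q, σ.1.card ≤ G.D0 →
  (open Classical in
    3 * (univ.filter (fun v => G.AA (Av v) σ ∅ ≠ G.AA G.SS σ ∅)).card ≤ Fintype.card V) ∧
  (G.Good σ → ∀ v, G.AA (Av v) σ ∅ ≤ G.AA G.SS σ ∅)

/-- T8: the functionals on subsets of a box; elementary facts on means -/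
def S_Box : Prop := ∀ (V E Q : Type) [Fintype V] [DecidableEq V] [Fintype E] [DecidableEq E]
  [Fintype Q] [DecidableEq Q] [Nonempty Q] (G : Sys V E Q) (X : Finset (E → Q)) (σ : Bx E Q),
  (∀ z ∈ X, InB σ z) →
  (∀ S, hat0 G.r X S = (∏ e ∈ S ∩ σ.1, G.r e (σ.2 e)) * hat G.r X σ (S \ σ.1) /
    (Fintype.card Q : ℝ) ^ σ.1.card) ∧
  mu X = mean X σ / (Fintype.card Q : ℝ) ^ σ.1.card ∧
  0 ≤ mean X σ ∧ mean X σ ≤ 1

/-- T9: the size of the functional `LL SS` on a light set -/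
def S_BndS : Prop := ∀ (V E Q : Type) [Fintype V] [DecidableEq V] [Fintype E] [DecidableEq E]
  [Fintype Q] [DecidableEq Q] [Nonempty Q] (G : Sys V E Q) (B w η : ℝ) (dd : ℕ)
  (X : Finset (E → Q)) (σ : Bx E Q), G.Ok → S_AA → S_Box → 1 ≤ B →
  (1 + 1 / B) ^ Fintype.card E ≤ 5 / 4 → dd ≤ G.D0 → σ.1.card ≤ dd →
  2 ^ Fintype.card V * (1 / B) ^ (G.D0 - dd) ≤ η →
  (∀ z ∈ X, InB σ z) → PR B G.r X → Lt B X σ w →
  |G.LL G.SS X - G.AA G.SS σ ∅ * mean X σ / (Fintype.card Q : ℝ) ^ σ.1.card| ≤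
    w * B ^ σ.1.card / (Fintype.card Q : ℝ) ^ σ.1.card * (G.AA G.SS σ ∅ / 4 + η)

/-- T10: the size of the functionals `LL (Av v)` on a light set -/
def S_BndV : Prop := ∀ (V E Q : Type) [Fintype V] [DecidableEq V] [Fintype E] [DecidableEq E]
  [Fintype Q] [DecidableEq Q] [Nonempty Q] (G : Sys V E Q) (B w : ℝ)
  (X : Finset (E → Q)) (σ : Bx E Q) (v : V), G.Ok → S_AAv → S_Box → 1 ≤ B →
  (1 + 1 / B) ^ Fintype.card E ≤ 5 / 4 →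
  (∀ z ∈ X, InB σ z) → PR B G.r X → Lt B X σ w →
  |G.LL (Av v) X - G.AA (Av v) σ ∅ * mean X σ / (Fintype.card Q : ℝ) ^ σ.1.card| ≤
    w * B ^ σ.1.card / (Fintype.card Q : ℝ) ^ σ.1.card * (G.AA (Av v) σ ∅ / 4)

/-- T11: the functionals `LL (Av v)` are measures; linearity -/
def S_Pos : Prop := ∀ (V E Q : Type) [Fintype V] [DecidableEq V] [Fintype E] [DecidableEq E]
  [Fintype Q] [DecidableEq Q] (G : Sys V E Q), G.Ok →
  (∀ (v : V) (X : Finset (E → Q)), 0 ≤ G.LL (Av v) X) ∧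
  (∀ (𝓤 : Finset (Finset V)) (ι : Type) (s : Finset ι) (X : ι → Finset (E → Q))
    (Y : Finset (E → Q)), (∀ z, ind Y z = ∑ i ∈ s, ind (X i) z) →
      G.LL 𝓤 Y = ∑ i ∈ s, G.LL 𝓤 (X i))

/-- all the facts used by the two main modules -/
def S_Base : Prop := S_Decomp ∧ S_AA ∧ S_AAcmp ∧ S_Box ∧ S_BndS ∧ S_BndV ∧ S_Pos ∧ S_AAv

/-- T12: the functional `LL SS` is nearly positive and nearly dominated by the average of the
measures `LL (Av v)` -/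
def S_Comp : Prop := ∀ (V E Q : Type) [Fintype V] [DecidableEq V] [Fintype E] [DecidableEq E]
  [Fintype Q] [DecidableEq Q] [Nonempty Q] [Nonempty V] (G : Sys V E Q) (B θ η : ℝ) (dd : ℕ)
  (X : Finset (E → Q)) (σ : Bx E Q), G.Ok → S_Base → 1 ≤ B →
  (1 + 1 / B) ^ Fintype.card E ≤ 5 / 4 → dd ≤ G.D0 →
  2 ^ Fintype.card V * (1 / B) ^ (G.D0 - dd) ≤ η → η ≤ 1 / 4 →
  0 < θ → (∀ s : ℕ, θ * B ^ s < 1 → s ≤ dd) → σ.1.card ≤ dd → G.Good σ →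
  (∀ z ∈ X, InB σ z) → (∀ o, PR B G.r (Dc B σ θ X o)) →
  G.LL G.SS X ≤ 5 / 2 * ((∑ v, G.LL (Av v) X) / Fintype.card V) +
    (η + θ * B ^ σ.1.card * (5 / 4 * G.AA G.SS σ ∅ + η)) / (Fintype.card Q : ℝ) ^ σ.1.card ∧
  -((η + θ * B ^ σ.1.card * (5 / 4 * G.AA G.SS σ ∅ + η)) / (Fintype.card Q : ℝ) ^ σ.1.card) ≤
    G.LL G.SS X

/-- T13: canonical paths -/
def S_Path : Prop := ∀ (E Q : Type) [Fintype E] [DecidableEq E] [Fintype Q] [DecidableEq Q]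
  (kk M h : ℕ) [NeZero kk] (R : Dag E Q kk M) (f : Fin M),
  (∀ z, ind (R.Vs f) z = ∑ a : Fin h → Fin kk, ind (R.ps f a) z) ∧
  (∀ (a : Fin h → Fin kk), R.ps f a ⊆ R.Vs (R.walk f (exa a) h))

/-- T14: one phase -/
def S_Phase : Prop := ∀ (V E Q : Type) [Fintype V] [DecidableEq V] [Fintype E] [DecidableEq E]
  [Fintype Q] [DecidableEq Q] [Nonempty Q] [Nonempty V] (G : Sys V E Q) (B w0 θ1 θ2 η : ℝ)
  (dd kk M h : ℕ) [NeZero kk] (R : Dag E Q kk M) (f : Fin M) (P : Finset (E → Q)) (σ : Bx E Q),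
  G.Ok → S_Base → S_Comp → S_Path → 1 ≤ B →
  (1 + 1 / B) ^ Fintype.card E ≤ 5 / 4 → dd ≤ G.D0 →
  2 ^ Fintype.card V * (1 / B) ^ (G.D0 - dd) ≤ η → η ≤ 1 / 4 →
  0 < θ1 → 0 < θ2 → (∀ s : ℕ, θ1 * B ^ s < 1 → s ≤ dd) → (∀ s : ℕ, θ2 * B ^ s < 1 → s ≤ dd) →
  σ.1.card ≤ dd → G.Good σ → P ⊆ R.Vs f → (∀ z ∈ P, InB σ z) → PR B G.r P →
  0 < w0 → mean P σ = w0 * B ^ σ.1.card → Lt B P σ w0 →
  (∀ (g : Fin M) o, PR B G.r (Dc B σ θ2 (R.Vs g) o)) →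
  (∀ (a : Fin h → Fin kk) o,
    PR B G.r (P ∩ R.ps f a ∩ Dc B σ θ2 (R.Vs (R.walk f (exa a) h)) o)) →
  (∀ (a : Fin h → Fin kk) o, PR B G.r (Dc B σ θ1
    (P ∩ R.ps f a ∩ Dc B σ θ2 (R.Vs (R.walk f (exa a) h)) none) o)) →
  (kk : ℝ) ^ h * (η / θ2) + (kk : ℝ) ^ h * (η + θ1 * (5 / 4 + η)) + 25 / 8 * M * θ2 <
    (3 / 4 - η) * w0 →
  ∃ (a : Fin h → Fin kk) (j : ℕ) (ρ : Bx E Q),
    Sub σ ρ ∧ G.Good ρ ∧ (∀ z ∈ part B σ θ2 (R.Vs (R.walk f (exa a) h)) j, InB ρ z) ∧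
    θ2 * B ^ ρ.1.card < mean (part B σ θ2 (R.Vs (R.walk f (exa a) h)) j) ρ ∧
    Lt B (part B σ θ2 (R.Vs (R.walk f (exa a) h)) j) ρ
      (mean (part B σ θ2 (R.Vs (R.walk f (exa a) h)) j) ρ / B ^ ρ.1.card)

/-- T15: a light set in a good box is not contained in the falsifying box of an axiom -/
def S_NotAx : Prop := ∀ (V E Q : Type) [Fintype V] [DecidableEq V] [Fintype E] [DecidableEq E]
  [Fintype Q] [DecidableEq Q] [Nonempty Q] (G : Sys V E Q) (B : ℝ) (X : Finset (E → Q))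
  (ρ : Bx E Q) (v : V) (α : E → Q), G.Ok → S_Box → 1 ≤ B → B < Fintype.card Q →
  3 < Fintype.card V → (G.bdr {v}).card ≤ G.D0 → G.Good ρ → (∀ z ∈ X, InB ρ z) →
  0 < mean X ρ → Lt B X ρ (mean X ρ / B ^ ρ.1.card) →
  (∀ z ∈ X, ∀ e ∈ G.bdr {v}, z e = α e) →
  G.c v * ∏ e ∈ G.bdr {v}, G.r e (α e) = 1

/-- T16: the graph -/
def S_Graph : Prop := ∀ n : ℕ, 25 ≤ n → ∃ (hd tl : Fin n × Bool → Fin n),
  (∀ U : Finset (Fin n), n ≤ 3 * U.card → 3 * U.card ≤ 2 * n →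
    n / 60 < (univ.filter (fun e => ¬ (hd e ∈ U ↔ tl e ∈ U))).card) ∧
  (∀ U : Finset (Fin n), univ.filter (fun e => ¬ (hd e ∈ U ↔ tl e ∈ U)) = ∅ →
    U = ∅ ∨ U = univ) ∧
  ∀ v, (univ.filter (fun e => ¬ (hd e ∈ ({v} : Finset (Fin n)) ↔
    tl e ∈ ({v} : Finset (Fin n))))).card ≤ 4

/-- T17: elementary properties of light sets and of the decomposition -/
def S_Elem : Prop := ∀ (E Q : Type) [Fintype E] [DecidableEq E] [Fintype Q] [DecidableEq Q]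
  [Nonempty Q] (B : ℝ) (X : Finset (E → Q)) (α : E → Q), 1 ≤ B →
  Lt B (univ : Finset (E → Q)) ((∅, α) : Bx E Q) 1 ∧
  mean (univ : Finset (E → Q)) ((∅, α) : Bx E Q) = 1 ∧
  Dc B ((∅, α) : Bx E Q) 1 X none = X

end Pool.Agent.Helper600R2.HT
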