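import Pool.Agent.Helper600R2.HT.Core

/-! Statements of the second group of modules: counting, numerics, the CNF. -/

namespace Pool.Agent.Helper600R2.HT

open Finset

/-- U1: the number of codes -/
def S_Card : Prop := ∀ (E Q Cd : Type) [Fintype E] [DecidableEq E] [Fintype Q] [DecidableEq Q]
  [Fintype Cd] (a b J1 h kk : ℕ), 1 ≤ kk → Fintype.card Cd ≤ 2 ^ a →
  2 ^ Fintype.card E * Fintype.card Q ^ Fintype.card E ≤ 2 ^ b → J1 ≤ 2 ^ b →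
  stp E Q + 1 ≤ 2 ^ b →
  Fintype.card (CG E Q Cd J1 (stp E Q) h kk) ≤ 2 ^ (3 * a + 10 * b + 4 + h * kk * (a + 1))

/-- the parameters as functions of `K`, `N` and `k` -/
def pL (N : ℕ) : ℕ := Nat.log 2 N + 1
def pκ (K N : ℕ) : ℕ := (K + 6) * pL N
def pn (K N : ℕ) : ℕ := N / (2 * pκ K N)
def pD (K N : ℕ) : ℕ := pn K N / 60
def pdd (K N : ℕ) : ℕ := pD K N / 2
def pA (K N : ℕ) : ℕ := pL N * pD K N
def ph (K k N : ℕ) : ℕ := pA K N / (16 * (k + 1))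
def pp (K N i : ℕ) : ℕ := pA K N / (16 * (5 + i)) - 1

/-- U2: the parameters are admissible -/
def S_Num1 : Prop := ∀ K k : ℕ, ∃ N0 : ℕ, ∀ N ≥ N0,
  25 ≤ pn K N ∧ 4 ≤ pD K N ∧ 2 * pn K N * pκ K N ≤ N ∧
  (1 + 1 / (2 : ℝ) ^ pL N) ^ (2 * pn K N) ≤ 5 / 4 ∧
  pA K N + 6 ≤ 2 ^ (4 * N) ∧
  (2 : ℝ) ^ (3 * N ^ K + 10 * (4 * N) + 4 + ph K k N * (k + 1) * (N ^ K + 1)) *
    2 ^ (4 * N) * 2 ^ (4 * N) * (2 * Real.exp (-((2 : ℝ) ^ ((K + 3) * pL N) / 2))) < 1 ∧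
  pn K N * (2 ^ pκ K N) ^ 4 ≤ N ^ (4 * K + 26) ∧
  ∀ i : ℕ, 16 * (5 + i) ≤ pA K N →
    (5 + i) * (pp K N i + 1) + 5 + (k + 1) * ph K k N ≤ pL N * pdd K N ∧
    (5 + i) * (pp K N i + 1) + 5 + (k + 1) * ph K k N < pA K N + 6 ∧
    pn K N + (2 * ((5 + i) * (pp K N i + 1)) + (k + 1) * ph K k N + 8) ≤
      pL N * (pD K N - pdd K N)

/-- U3: the final computation -/
def S_Num2 : Prop := ∀ K k : ℕ, ∃ (c : ℝ) (N0 : ℕ), 0 < c ∧ ∀ N ≥ N0, ∀ H S : ℕ, N ≤ H →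
  (S : ℝ) < Real.exp (c * (N : ℝ) ^ 2 / H) →
  ∃ i : ℕ, S ≤ 2 ^ i ∧ 16 * (5 + i) ≤ pA K N ∧ min H S < pp K N i * ph K k N

/-- the clause which forbids the values `α` around the vertex `v` -/
def fcl {E : Type} [DecidableEq E] {κ : ℕ} (T : Finset E) (α : T → Fin κ → Bool) :
    Finset ((E × Fin κ) × Bool) :=
  univ.biUnion fun e : T => univ.image fun b : Fin κ => ((e.1, b), !(α e b))

/-- U4: the CNF of a system of constraints -/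
def S_CNF : Prop := ∀ (n κ : ℕ) (G : Sys (Fin n) (Fin n × Bool) (Fin κ → Bool)), G.Ok →
  (∀ v, (G.bdr {v}).card ≤ 4) → ∃ F : Finset (Finset (((Fin n × Bool) × Fin κ) × Bool)),
    F.card ≤ n * (2 ^ κ) ^ 4 ∧ (∀ c ∈ F, c.card ≤ 4 * κ) ∧
    (∀ z : (Fin n × Bool) × Fin κ → Bool, ∃ c ∈ F, ∀ l ∈ c, z l.1 ≠ l.2) ∧
    (∀ c ∈ F, ∃ (v : Fin n) (α : Fin n × Bool → Fin κ → Bool),
      G.c v * ∏ e ∈ G.bdr {v}, G.r e (α e) ≠ 1 ∧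
      ∀ z : (Fin n × Bool) × Fin κ → Bool, (∀ l ∈ c, z l.1 ≠ l.2) →
        ∀ e ∈ G.bdr {v}, (fun b => z (e, b)) = α e)

/-- U5: existence of the pseudorandom system -/
def S_Sys : Prop := ∀ (n κ : ℕ) (Cd : Type) [Fintype Cd]
  (W : Cd → Finset (Fin n × Bool → Fin κ → Bool)) (a b J1 h kk T β : ℕ), 25 ≤ n → 1 ≤ kk →
  S_Signs → S_Hoeff → S_PR → S_Graph → S_Card → Fintype.card Cd ≤ 2 ^ a →
  2 * n + 2 * n * κ + 1 ≤ b → 4 * n ≤ b → J1 ≤ 2 ^ b → 2 ^ T * 2 ^ (3 * β) ≤ 2 ^ κ →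
  (2 : ℝ) ^ (3 * a + 10 * b + 4 + h * kk * (a + 1)) * 2 ^ b * 2 ^ b *
    (2 * Real.exp (-((2 : ℝ) ^ T / 2))) < 1 →
  ∃ G : Sys (Fin n) (Fin n × Bool) (Fin κ → Bool), G.Ok ∧ G.D0 = n / 60 ∧
    (∀ v, (G.bdr {v}).card ≤ 4) ∧
    ∀ x : CG (Fin n × Bool) (Fin κ → Bool) Cd J1 (stp (Fin n × Bool) (Fin κ → Bool)) h kk,
      PR ((2 : ℝ) ^ β) G.r (setG ((2 : ℝ) ^ β) W x)

end Pool.Agent.Helper600R2.HT
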