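import Pool.Agent.Helper600R2.HT.Stm

/-! T1: Hoeffding's inequality for random signs, counting form. -/

namespace Pool.Agent.Helper600R2.HT.T1

open Finset

variable {Q : Type} [Fintype Q] [DecidableEq Q]

/-- the moment generating function -/
theorem mgf (c : Q → ℝ) (l : ℝ) :
    ∑ r : Q → Bool, Real.exp (l * ∑ u, sg (r u) * c u) ≤
      2 ^ Fintype.card Q * Real.exp (l ^ 2 * (∑ u, c u ^ 2) / 2) := by
  have h1 : ∀ r : Q → Bool, Real.exp (l * ∑ u, sg (r u) * c u) =
      ∏ u, Real.exp (l * (sg (r u) * c u)) := by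
    intro r
    rw [mul_sum, Real.exp_sum]
  simp_rw [h1]
  have h2 := Finset.prod_univ_sum (fun _ : Q => (univ : Finset Bool))
    (fun u (b : Bool) => Real.exp (l * (sg b * c u)))
  rw [Fintype.piFinset_univ] at h2
  rw [← h2]
  have h3 : ∀ u, ∑ b : Bool, Real.exp (l * (sg b * c u)) ≤ 2 * Real.exp ((l * c u) ^ 2 / 2) := by
    intro u
    have h4 := Real.cosh_le_exp_half_sq (l * c u)
    rw [Real.cosh_eq] at h4
    rw [Fintype.sum_bool]
    have e1 : l * (sg true * c u) = -(l * c u) := by simp [sg]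
    have e2 : l * (sg false * c u) = l * c u := by simp [sg]
    rw [e1, e2]
    linarith
  calc ∏ u, ∑ b : Bool, Real.exp (l * (sg b * c u))
      ≤ ∏ u : Q, (2 * Real.exp ((l * c u) ^ 2 / 2)) := by
        apply Finset.prod_le_prod
        · intro u _
          exact Finset.sum_nonneg (fun b _ => (Real.exp_pos _).le)
        · intro u _
          exact h3 u
    _ = 2 ^ Fintype.card Q * Real.exp (l ^ 2 * (∑ u, c u ^ 2) / 2) := by
        rw [Finset.prod_mul_distrib, Finset.prod_const, ← Real.exp_sum, Finset.card_univ]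
        congr 2
        rw [mul_sum, Finset.sum_div]
        apply Finset.sum_congr rfl
        intro u _
        ring

/-- one-sided bound -/
theorem one (c : Q → ℝ) (t : ℝ) (ht : 0 ≤ t) (hC : 0 < ∑ u, c u ^ 2) :
    ((univ.filter (fun r : Q → Bool =>
      t * √(∑ u, c u ^ 2) < ∑ u, sg (r u) * c u)).card : ℝ) ≤
      Real.exp (-(t ^ 2 / 2)) * 2 ^ Fintype.card Q := by
  set C := ∑ u, c u ^ 2 with hCd
  have hs : 0 < √C := Real.sqrt_pos.mpr hC
  have hss : √C * √C = C := Real.mul_self_sqrt hC.le
  set l := t / √C with hl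
  have hl0 : 0 ≤ l := div_nonneg ht hs.le
  have e1 : l * (t * √C) = t ^ 2 := by
    rw [hl]; field_simp
  have e2 : l ^ 2 * C / 2 = t ^ 2 / 2 := by
    rw [hl, div_pow, Real.sq_sqrt hC.le]; field_simp
  have h1 : ((univ.filter (fun r : Q → Bool =>
      t * √C < ∑ u, sg (r u) * c u)).card : ℝ) * Real.exp (t ^ 2) ≤
      ∑ r : Q → Bool, Real.exp (l * ∑ u, sg (r u) * c u) := by
    calc _ = ∑ r ∈ univ.filter (fun r : Q → Bool => t * √C < ∑ u, sg (r u) * c u),
            Real.exp (t ^ 2) := by rw [Finset.sum_const, nsmul_eq_mul]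
      _ ≤ ∑ r ∈ univ.filter (fun r : Q → Bool => t * √C < ∑ u, sg (r u) * c u),
            Real.exp (l * ∑ u, sg (r u) * c u) := by
          apply Finset.sum_le_sum
          intro r hr
          rw [Finset.mem_filter] at hr
          apply Real.exp_le_exp.mpr
          rw [← e1]
          exact mul_le_mul_of_nonneg_left hr.2.le hl0
      _ ≤ _ := by
          apply Finset.sum_le_sum_of_subset_of_nonneg (Finset.filter_subset _ _)
          intro r _ _
          exact (Real.exp_pos _).le
  have h2 := h1.trans (mgf c l)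
  rw [← hCd, e2] at h2
  have e3 : Real.exp (-(t ^ 2 / 2)) * Real.exp (t ^ 2) = Real.exp (t ^ 2 / 2) := by
    rw [← Real.exp_add]; congr 1; ring
  have h4 : 0 < Real.exp (t ^ 2) := Real.exp_pos _
  refine le_of_mul_le_mul_right ?_ h4
  calc _ ≤ _ := h2
    _ = _ := by rw [← e3]; ring

theorem proof_T1 : S_Hoeff := by
  intro Q _ _ c t ht
  rcases (Finset.sum_nonneg (fun u (_ : u ∈ (univ : Finset Q)) => sq_nonneg (c u))).eq_or_lt with
    h0 | h0
  · have hc : ∀ u, c u = 0 := by
      intro u
      have := (Finset.sum_eq_zero_iff_of_nonneg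
        (fun u (_ : u ∈ (univ : Finset Q)) => sq_nonneg (c u))).mp h0.symm u (Finset.mem_univ u)
      exact pow_eq_zero_iff (two_ne_zero) |>.mp this
    have he : (univ.filter (fun r : Q → Bool =>
        t * √(∑ u, c u ^ 2) < |∑ u, sg (r u) * c u|)) = ∅ := by
      apply Finset.filter_eq_empty_iff.mpr
      intro r _
      simp [hc]
    rw [he]
    simp only [Finset.card_empty, Nat.cast_zero]
    positivity
  · have h1 := one c t ht h0
    have h2 := one (fun u => - c u) t ht (by simpa using h0)
    simp only [neg_sq, mul_neg, Finset.sum_neg_distrib] at h2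
    have hsub : (univ.filter (fun r : Q → Bool =>
        t * √(∑ u, c u ^ 2) < |∑ u, sg (r u) * c u|)) ⊆
        (univ.filter (fun r : Q → Bool => t * √(∑ u, c u ^ 2) < ∑ u, sg (r u) * c u)) ∪
        (univ.filter (fun r : Q → Bool => t * √(∑ u, c u ^ 2) < - ∑ u, sg (r u) * c u)) := by
      intro r hr
      rw [Finset.mem_filter] at hr
      rw [Finset.mem_union, Finset.mem_filter, Finset.mem_filter]
      rcases lt_abs.mp hr.2 with h | h
      · exact Or.inl ⟨Finset.mem_univ _, h⟩
      · exact Or.inr ⟨Finset.mem_univ _, h⟩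
    have h3 := (Finset.card_le_card hsub).trans (Finset.card_union_le _ _)
    have h3' : ((univ.filter (fun r : Q → Bool =>
        t * √(∑ u, c u ^ 2) < |∑ u, sg (r u) * c u|)).card : ℝ) ≤
        ((univ.filter (fun r : Q → Bool =>
          t * √(∑ u, c u ^ 2) < ∑ u, sg (r u) * c u)).card : ℝ) +
        ((univ.filter (fun r : Q → Bool =>
          t * √(∑ u, c u ^ 2) < - ∑ u, sg (r u) * c u)).card : ℝ) := by
      exact_mod_cast h3
    calc _ ≤ _ := h3'
      _ ≤ _ := add_le_add h1 h2
      _ = _ := by ring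

end Pool.Agent.Helper600R2.HT.T1
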