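import Pool.Agent.Helper600R2.HT.Stm

/-! T10: the size of the functionals `LL (Av v)` on a light set -/

set_option autoImplicit false

namespace Pool.Agent.Helper600R2.HT.T10

open Finset

variable {V E Q : Type} [Fintype V] [DecidableEq V] [Fintype E] [DecidableEq E]
  [Fintype Q] [DecidableEq Q]

omit [DecidableEq E] in
lemma sum_pow (x : ℝ) : ∑ S : Finset E, x ^ S.card = (1 + x) ^ Fintype.card E := by
  have h := Fintype.sum_pow_mul_eq_add_pow E x 1
  simp only [one_pow, mul_one] at h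
  rw [h, add_comm]

omit [Fintype V] in
lemma group (G : Sys V E Q) (𝓤 : Finset (Finset V)) (X : Finset (E → Q)) (σ : Bx E Q)
    (hB : ∀ S, hat0 G.r X S = (∏ e ∈ S ∩ σ.1, G.r e (σ.2 e)) * hat G.r X σ (S \ σ.1) /
      (Fintype.card Q : ℝ) ^ σ.1.card) :
    G.LL 𝓤 X = ∑ S : Finset E, G.AA 𝓤 σ S * hat G.r X σ S / (Fintype.card Q : ℝ) ^ σ.1.card := by
  unfold Sys.LL
  rw [← sum_fiberwise 𝓤 (fun U => G.bdr U \ σ.1)]
  refine sum_congr rfl fun S _ => ?_
  unfold Sys.AA
  rw [sum_mul, sum_div]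
  refine sum_congr rfl fun U hU => ?_
  rw [hB, (mem_filter.1 hU).2]
  ring

theorem proof_T10 : S_BndV := by
  intro V E Q _ _ _ _ _ _ _ G B w X σ v hOk hAAv hBox hB h54 hX hPR hLt
  obtain ⟨hb1, _, hb3, _⟩ := hBox V E Q G X σ hX
  obtain ⟨ha0, haS⟩ := hAAv V E Q G hOk σ v
  set a := G.AA (Av v) σ ∅ with ha
  have hq : (0:ℝ) < (Fintype.card Q : ℝ) ^ σ.1.card := by
    have : 0 < Fintype.card Q := Fintype.card_pos
    positivity
  have hB0 : (0:ℝ) < B := by linarith
  have hw : 0 ≤ w * B ^ σ.1.card :=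
    hb3.trans (hLt σ ⟨subset_rfl, fun _ _ => rfl⟩)
  rw [group G (Av v) X σ hb1]
  have hhat : hat G.r X σ ∅ = mean X σ := by
    unfold hat mean; simp
  rw [← add_sum_erase univ _ (mem_univ (∅ : Finset E)), hhat, add_sub_cancel_left]
  refine (abs_sum_le_sum_abs _ _).trans ?_
  have hterm : ∀ S ∈ (univ : Finset (Finset E)).erase ∅,
      |G.AA (Av v) σ S * hat G.r X σ S / (Fintype.card Q : ℝ) ^ σ.1.card| ≤
      (w * B ^ σ.1.card / (Fintype.card Q : ℝ) ^ σ.1.card * a) * (1 / B) ^ S.card := by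
    intro S _
    by_cases hd : Disjoint S σ.1
    · rw [abs_div, abs_mul, abs_of_pos hq]
      have h1 := hPR σ S w hd hLt
      have h2 := haS S
      have h3 : |G.AA (Av v) σ S| * |hat G.r X σ S| ≤ a * (w * B ^ σ.1.card * (1 / B) ^ S.card) :=
        mul_le_mul h2 h1 (abs_nonneg _) ha0
      calc _ ≤ a * (w * B ^ σ.1.card * (1 / B) ^ S.card) / (Fintype.card Q : ℝ) ^ σ.1.card := by
            gcongr
        _ = _ := by ring
    · have h0 : G.AA (Av v) σ S = 0 := by
        unfold Sys.AA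
        rw [filter_eq_empty_iff.2, sum_empty]
        intro U _ hU
        apply hd
        rw [← hU]
        exact sdiff_disjoint
      rw [h0]
      simp only [zero_mul, zero_div, abs_zero]
      positivity
  refine (sum_le_sum hterm).trans ?_
  rw [← mul_sum]
  have hs : ∑ S ∈ (univ : Finset (Finset E)).erase ∅, (1 / B) ^ S.card ≤ 1 / 4 := by
    have h1 := add_sum_erase univ (fun S : Finset E => (1 / B) ^ S.card) (mem_univ ∅)
    rw [sum_pow] at h1
    simp only [card_empty, pow_zero] at h1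
    linarith
  calc _ ≤ (w * B ^ σ.1.card / (Fintype.card Q : ℝ) ^ σ.1.card * a) * (1 / 4) := by gcongr
    _ = _ := by ring

end Pool.Agent.Helper600R2.HT.T10
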