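import Pool.Agent.Helper600R2.HT.Stm

namespace Pool.Agent.Helper600R2.HT.T11

open Finset

section

variable {V E Q : Type} [Fintype V] [DecidableEq V] [Fintype E] [DecidableEq E]
  [Fintype Q] [DecidableEq Q]

theorem key_bdr (G : Sys V E Q) (hr : ∀ e u, G.r e u = 1 ∨ G.r e u = -1) (z : E → Q)
    (U : Finset V) :
    ∏ e ∈ G.bdr U, G.r e (z e) =
      ∏ e, ((if G.hd e ∈ U then G.r e (z e) else 1) * (if G.tl e ∈ U then G.r e (z e) else 1)) := by
  rw [Sys.bdr, Finset.prod_filter]
  apply Finset.prod_congr rfl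
  intro e _
  by_cases h1 : G.hd e ∈ U <;> by_cases h2 : G.tl e ∈ U <;> simp [h1, h2]
  rcases hr e (z e) with h | h <;> rw [h] <;> norm_num

/-- the sign product over the boundary is multiplicative -/
theorem prod_bdr (G : Sys V E Q) (hr : ∀ e u, G.r e u = 1 ∨ G.r e u = -1) (z : E → Q)
    (U : Finset V) :
    ∏ e ∈ G.bdr U, G.r e (z e) = ∏ u ∈ U, ∏ e ∈ G.bdr {u}, G.r e (z e) := by
  rw [key_bdr G hr z U]
  simp_rw [key_bdr G hr z {_}]
  rw [Finset.prod_comm]
  apply Finset.prod_congr rfl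
  intro e _
  rw [Finset.prod_mul_distrib]
  simp_rw [mem_singleton]
  rw [Finset.prod_ite_eq, Finset.prod_ite_eq]

theorem sign_prod (f : E → ℝ) (hf : ∀ e, f e = 1 ∨ f e = -1) (S : Finset E) :
    ∏ e ∈ S, f e = 1 ∨ ∏ e ∈ S, f e = -1 := by
  induction S using Finset.induction_on with
  | empty => simp
  | insert a s ha ih =>
    rw [Finset.prod_insert ha]
    rcases hf a with h | h <;> rcases ih with h' | h' <;> rw [h, h'] <;> norm_num

theorem av_eq (v : V) : Av v = (univ.erase v : Finset V).powerset := by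
  ext U
  simp only [Av, mem_filter, mem_univ, true_and, mem_powerset]
  constructor
  · intro h x hx
    rw [mem_erase]
    exact ⟨fun h' => h (h' ▸ hx), mem_univ _⟩
  · intro h h'
    exact absurd (h h') (by simp)

theorem LL_nonneg (G : Sys V E Q) (hG : G.Ok) (v : V) (X : Finset (E → Q)) :
    0 ≤ G.LL (Av v) X := by
  have h1 : G.LL (Av v) X = (∑ z, ind X z * ∏ u ∈ (univ.erase v : Finset V),
      (1 + G.c u * ∏ e ∈ G.bdr {u}, G.r e (z e))) / (Fintype.card Q : ℝ) ^ Fintype.card E := by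
    unfold Sys.LL hat0
    simp_rw [Finset.prod_one_add, mul_sum, prod_mul_distrib, ← prod_bdr G hG.sr]
    rw [sum_comm, av_eq, sum_div]
    apply sum_congr rfl
    intro U _
    rw [← mul_div_assoc, mul_sum]
    congr 1
    apply sum_congr rfl
    intro z _
    ring
  rw [h1]
  apply div_nonneg _ (by positivity)
  apply sum_nonneg
  intro z _
  apply mul_nonneg
  · unfold ind; split_ifs <;> norm_num
  · apply prod_nonneg
    intro u _
    rcases sign_prod (fun e => G.r e (z e)) (fun e => hG.sr e (z e)) (G.bdr {u}) with h | h <;>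
      rcases hG.sc u with h' | h' <;> rw [h, h'] <;> norm_num

end

theorem proof_T11 : S_Pos := by
  intro V E Q _ _ _ _ _ _ G hG
  refine ⟨fun v X => LL_nonneg G hG v X, ?_⟩
  intro 𝓤 ι s X Y h
  unfold Sys.LL hat0
  rw [sum_comm]
  apply sum_congr rfl
  intro U _
  rw [← mul_sum, ← sum_div, sum_comm]
  congr 2
  apply sum_congr rfl
  intro z _
  rw [h z, sum_mul]

end Pool.Agent.Helper600R2.HT.T11
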