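import Pool.Agent.Helper600R2.HT.Stm

/-! T12: the comparison lemma. -/

set_option autoImplicit false

namespace Pool.Agent.Helper600R2.HT.T12

open Finset

section

variable {V E Q : Type} [Fintype V] [DecidableEq V] [Fintype E] [DecidableEq E]
  [Fintype Q] [DecidableEq Q]

theorem mu_eq (X : Finset (E → Q)) :
    mu X = (∑ z, ind X z) / (Fintype.card Q : ℝ) ^ Fintype.card E := by
  unfold mu ind
  congr 1
  simp

theorem mu_nonneg (X : Finset (E → Q)) : 0 ≤ mu X := by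
  unfold mu
  positivity

theorem piece [Nonempty Q] [Nonempty V] (G : Sys V E Q) (B θ η : ℝ) (dd : ℕ)
    (P : Finset (E → Q)) (hG : G.Ok) (hBase : S_Base) (hB : 1 ≤ B)
    (h54 : (1 + 1 / B) ^ Fintype.card E ≤ 5 / 4) (hdd : dd ≤ G.D0)
    (hη : 2 ^ Fintype.card V * (1 / B) ^ (G.D0 - dd) ≤ η)
    (hs : ∀ s : ℕ, θ * B ^ s < 1 → s ≤ dd) (hPR : PR B G.r P)
    (ρ : Bx E Q) (hin : ∀ z ∈ P, InB ρ z) (hm : θ * B ^ ρ.1.card < mean P ρ)
    (hL : Lt B P ρ (mean P ρ / B ^ ρ.1.card)) :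
    G.LL G.SS P ≤ 5 / 2 * ((∑ v, G.LL (Av v) P) / Fintype.card V) + η * mu P ∧
    -(η * mu P) ≤ G.LL G.SS P := by
  classical
  obtain ⟨hDec, hAA, hCmp, hBox, hBS, hBV, hPos, hAAv⟩ := hBase
  obtain ⟨_, hmu, hm0, hm1⟩ := hBox V E Q G P ρ hin
  have hρ : ρ.1.card ≤ dd := hs _ (hm.trans_le hm1)
  obtain ⟨hA0, _, _, _⟩ := hAA V E Q G hG ρ (hρ.trans hdd)
  have hBp : 0 < B ^ ρ.1.card := by positivity
  have hw : mean P ρ / B ^ ρ.1.card * B ^ ρ.1.card = mean P ρ := div_mul_cancel₀ _ hBp.ne'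
  have h1 := hBS V E Q G B (mean P ρ / B ^ ρ.1.card) η dd P ρ hG hAA hBox hB h54 hdd hρ hη hin
    hPR hL
  have h2 := fun v => hBV V E Q G B (mean P ρ / B ^ ρ.1.card) P ρ v hG hAAv hBox hB h54 hin
    hPR hL
  rw [hw, mul_div_assoc, ← hmu] at h1
  simp only [hw, mul_div_assoc] at h2
  simp only [← mul_div_assoc] at h2
  have hmp : 0 ≤ mu P := mu_nonneg P
  obtain ⟨A, hA⟩ : ∃ A, A = G.AA G.SS ρ ∅ := ⟨_, rfl⟩
  obtain ⟨m, hmm⟩ : ∃ m, m = mu P := ⟨_, rfl⟩
  rw [← hmm] at hmp h1 ⊢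
  rw [← hA] at h1 hA0
  have h3 : ∀ v, (if G.AA (Av v) ρ ∅ ≠ A then 0 else 3 / 4 * A * m) ≤ G.LL (Av v) P := by
    intro v
    have h4 := h2 v
    have h5 : G.AA (Av v) ρ ∅ * mean P ρ / (Fintype.card Q : ℝ) ^ ρ.1.card =
        G.AA (Av v) ρ ∅ * m := by rw [hmm, hmu]; ring
    have h6 : mean P ρ / (Fintype.card Q : ℝ) ^ ρ.1.card * G.AA (Av v) ρ ∅ / 4 =
        m * G.AA (Av v) ρ ∅ / 4 := by rw [hmm, hmu]
    rw [h5, h6, abs_le] at h4
    have h7 := (hAAv V E Q G hG ρ v).1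
    by_cases h8 : G.AA (Av v) ρ ∅ ≠ A
    · rw [if_pos h8]
      exact hPos V E Q G hG |>.1 v P
    · rw [if_neg h8]
      rw [not_not] at h8
      rw [h8] at h4
      nlinarith [h4.1]
  have hc := (hCmp V E Q G hG ρ (hρ.trans hdd)).1
  have hc' : 3 * ((univ.filter (fun v => G.AA (Av v) ρ ∅ ≠ A)).card : ℝ) ≤ Fintype.card V := by
    rw [hA]
    exact_mod_cast hc
  have hVpos : (0 : ℝ) < Fintype.card V := by
    exact_mod_cast Fintype.card_pos
  have hsum : ∑ v, (if G.AA (Av v) ρ ∅ ≠ A then 0 else 3 / 4 * A * m) =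
      3 / 4 * A * m * (Fintype.card V - (univ.filter (fun v => G.AA (Av v) ρ ∅ ≠ A)).card) := by
    have e1 : ∀ v, (if G.AA (Av v) ρ ∅ ≠ A then 0 else 3 / 4 * A * m) =
        3 / 4 * A * m - 3 / 4 * A * m * (if G.AA (Av v) ρ ∅ ≠ A then 1 else 0) := by
      intro v
      split_ifs <;> ring
    simp only [e1]
    rw [Finset.sum_sub_distrib, Finset.sum_const, Finset.card_univ, nsmul_eq_mul,
      ← Finset.mul_sum, Finset.sum_boole]
    ring
  have hge := Finset.sum_le_sum (fun v (_ : v ∈ (univ : Finset V)) => h3 v)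
  rw [hsum] at hge
  have hAm : 0 ≤ A * m := mul_nonneg hA0 hmp
  have havg : A * m / 2 ≤ (∑ v, G.LL (Av v) P) / Fintype.card V := by
    rw [le_div_iff₀ hVpos]
    refine le_trans ?_ hge
    nlinarith
  rw [abs_le] at h1
  constructor
  · nlinarith [h1.2]
  · nlinarith [h1.1]

end

theorem proof_T12 : S_Comp := by
  classical
  intro V E Q _ _ _ _ _ _ _ _ G B θ η dd X σ hG hBase hB h54 hdd hη _ hθ hs hσ _ hX hPR
  have hBase' := hBase
  obtain ⟨hDec, hAA, hCmp, hBox, hBS, hBV, hPos, hAAv⟩ := hBase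
  obtain ⟨hd1, hd2, hd3⟩ := hDec E Q B σ θ X hB hθ.le
  obtain ⟨hp1, hp2⟩ := hPos V E Q G hG
  have hη0 : 0 ≤ η := le_trans (by positivity) hη
  obtain ⟨_, hmuX, _, hmX1⟩ := hBox V E Q G X σ hX
  obtain ⟨hA0, _, _, _⟩ := hAA V E Q G hG σ (hσ.trans hdd)
  have hVpos : (0 : ℝ) < Fintype.card V := by
    exact_mod_cast Fintype.card_pos
  have hqpos : (0 : ℝ) < (Fintype.card Q : ℝ) ^ σ.1.card := by
    have : (0 : ℝ) < Fintype.card Q := by exact_mod_cast Fintype.card_pos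
    positivity
  -- decomposition of the indicator
  have hind : ∀ z, ind X z = ∑ j ∈ range (stp E Q), ind (part B σ θ X j) z +
      ind (rest B σ θ X (stp E Q)) z := by
    intro z
    rw [← hd1 z]
    by_cases h : InB σ z
    · rw [if_pos h]
    · rw [if_neg h]
      unfold ind
      rw [if_neg fun hz => h (hX z hz)]
  have hnn : ∀ (Y : Finset (E → Q)) z, 0 ≤ ind Y z := by
    intro Y z
    unfold ind
    split_ifs <;> norm_num
  have hrest : ∀ z ∈ rest B σ θ X (stp E Q), InB σ z := by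
    intro z hz
    by_contra hn
    have h1 := hd1 z
    rw [if_neg hn] at h1
    have h2 : ind (rest B σ θ X (stp E Q)) z = 1 := by
      unfold ind
      rw [if_pos hz]
    have h3 : 0 ≤ ∑ j ∈ range (stp E Q), ind (part B σ θ X j) z :=
      Finset.sum_nonneg fun j _ => hnn _ _
    linarith
  have hLL : ∀ 𝓤 : Finset (Finset V), G.LL 𝓤 X =
      ∑ j ∈ range (stp E Q), G.LL 𝓤 (part B σ θ X j) + G.LL 𝓤 (rest B σ θ X (stp E Q)) := by
    intro 𝓤
    have h := hp2 𝓤 (Option ℕ) (Finset.insertNone (range (stp E Q))) (Dc B σ θ X) X (by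
      intro z
      rw [Finset.sum_insertNone]
      rw [hind z, add_comm]
      rfl)
    rw [h, Finset.sum_insertNone, add_comm]
    rfl
  have hmu : mu X = ∑ j ∈ range (stp E Q), mu (part B σ θ X j) +
      mu (rest B σ θ X (stp E Q)) := by
    simp only [mu_eq]
    rw [← Finset.sum_div, ← add_div]
    congr 1
    rw [Finset.sum_comm, ← Finset.sum_add_distrib]
    exact Finset.sum_congr rfl fun z _ => hind z
  have hmule : ∑ j ∈ range (stp E Q), mu (part B σ θ X j) ≤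
      1 / (Fintype.card Q : ℝ) ^ σ.1.card := by
    have h1 := mu_nonneg (rest B σ θ X (stp E Q))
    have h2 : mu X ≤ 1 / (Fintype.card Q : ℝ) ^ σ.1.card := by
      rw [hmuX]
      exact div_le_div_of_nonneg_right hmX1 hqpos.le
    linarith
  -- the parts
  have hempty : ∀ 𝓤 : Finset (Finset V), G.LL 𝓤 ∅ = 0 := by
    intro 𝓤
    have h := hp2 𝓤 ℕ ∅ (fun _ => ∅) ∅ (by
      intro z
      simp [ind])
    simpa using h
  have hpart : ∀ j, G.LL G.SS (part B σ θ X j) ≤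
      5 / 2 * ((∑ v, G.LL (Av v) (part B σ θ X j)) / Fintype.card V) +
        η * mu (part B σ θ X j) ∧
      -(η * mu (part B σ θ X j)) ≤ G.LL G.SS (part B σ θ X j) := by
    intro j
    by_cases hne : (part B σ θ X j).Nonempty
    · obtain ⟨ρ, _, hin, hm, hL⟩ := hd3 j hne
      exact piece G B θ η dd _ hG hBase' hB h54 hdd hη hs (hPR (some j)) ρ hin hm hL
    · rw [Finset.not_nonempty_iff_eq_empty] at hne
      rw [hne]
      simp only [hempty]
      have : mu (∅ : Finset (E → Q)) = 0 := by simp [mu]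
      rw [this]
      simp
  -- the rest
  have hR := hBS V E Q G B θ η dd (rest B σ θ X (stp E Q)) σ hG hAA hBox hB h54 hdd hσ hη hrest
    (hPR none) hd2
  have hR0 := (hBox V E Q G (rest B σ θ X (stp E Q)) σ hrest).2.2.1
  have hR1 : mean (rest B σ θ X (stp E Q)) σ ≤ θ * B ^ σ.1.card :=
    hd2 σ ⟨Finset.Subset.refl _, fun e _ => rfl⟩
  have hRavg : 0 ≤ (∑ v, G.LL (Av v) (rest B σ θ X (stp E Q))) / Fintype.card V :=
    div_nonneg (Finset.sum_nonneg fun v _ => hp1 v _) hVpos.le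
  have hXavg : (∑ v, G.LL (Av v) X) / Fintype.card V =
      ∑ j ∈ range (stp E Q), (∑ v, G.LL (Av v) (part B σ θ X j)) / Fintype.card V +
        (∑ v, G.LL (Av v) (rest B σ θ X (stp E Q))) / Fintype.card V := by
    rw [← Finset.sum_div, ← add_div]
    congr 1
    rw [Finset.sum_comm, ← Finset.sum_add_distrib]
    exact Finset.sum_congr rfl fun v _ => hLL (Av v)
  obtain ⟨q, hq⟩ : ∃ q, q = (Fintype.card Q : ℝ) ^ σ.1.card := ⟨_, rfl⟩
  obtain ⟨A, hA⟩ : ∃ A, A = G.AA G.SS σ ∅ := ⟨_, rfl⟩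
  obtain ⟨m, hmm⟩ : ∃ m, m = mean (rest B σ θ X (stp E Q)) σ := ⟨_, rfl⟩
  obtain ⟨b, hb⟩ : ∃ b, b = θ * B ^ σ.1.card := ⟨_, rfl⟩
  rw [← hq] at hqpos hmule hR ⊢
  rw [← hA] at hA0 hR ⊢
  rw [← hmm] at hR hR0 hR1
  rw [← hb] at hR hR1 ⊢
  have hb0 : 0 ≤ b := hR0.trans hR1
  have e1 : A * m / q ≤ A * b / q :=
    div_le_div_of_nonneg_right (mul_le_mul_of_nonneg_left hR1 hA0) hqpos.le
  have e2 : 0 ≤ A * m / q := div_nonneg (mul_nonneg hA0 hR0) hqpos.le
  rw [abs_le] at hR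
  have e3 : b / q * (A / 4 + η) = A * b / q / 4 + b * η / q := by ring
  have e4 : (η + b * (5 / 4 * A + η)) / q = η * (1 / q) + 5 / 4 * (A * b / q) + b * η / q := by
    ring
  have e5 : 0 ≤ A * b / q := e2.trans e1
  rw [e3] at hR
  rw [e4]
  have s1 := Finset.sum_le_sum fun j (_ : j ∈ range (stp E Q)) => (hpart j).1
  have s2 := Finset.sum_le_sum fun j (_ : j ∈ range (stp E Q)) => (hpart j).2
  rw [Finset.sum_add_distrib, ← Finset.mul_sum, ← Finset.mul_sum] at s1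
  rw [Finset.sum_neg_distrib, ← Finset.mul_sum] at s2
  have e6 : η * ∑ j ∈ range (stp E Q), mu (part B σ θ X j) ≤ η * (1 / q) :=
    mul_le_mul_of_nonneg_left hmule hη0
  rw [hLL G.SS, hXavg]
  constructor
  · linarith [hR.2]
  · linarith [hR.1]

end Pool.Agent.Helper600R2.HT.T12
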