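import Pool.Agent.Helper600R2.HT.Stm

/-! Task T13: canonical paths. -/

set_option autoImplicit false

namespace Pool.Agent.Helper600R2.HT.T13

open Finset Pool.Agent.Helper600R2.HT

variable {E Q : Type} {kk M : ℕ}

theorem walk_congr (R : Dag E Q kk M) (f : Fin M) (a a' : ℕ → Fin kk) (n : ℕ)
    (h : ∀ s < n, a s = a' s) : R.walk f a n = R.walk f a' n := by
  induction n with
  | zero => rfl
  | succ n ih =>
    show R.prem (R.walk f a n) (a n) = R.prem (R.walk f a' n) (a' n)
    rw [ih (fun s hs => h s (Nat.lt_succ_of_lt hs)), h n (Nat.lt_succ_self n)]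

theorem least (R : Dag E Q kk M) (z : E → Q) (i : Fin M) (hi : z ∈ R.Vs i) :
    ∃ b, z ∈ R.Vs (R.prem i b) ∧ ∀ b' < b, z ∉ R.Vs (R.prem i b') := by
  obtain ⟨b, hb, hmin⟩ := WellFounded.has_min (wellFounded_lt (α := Fin kk))
    {b | z ∈ R.Vs (R.prem i b)} (R.cov i z hi)
  exact ⟨b, hb, fun b' hb' h => hmin b' h hb'⟩

/-- the greedy sequence of lines -/
noncomputable def lin (R : Dag E Q kk M) (z : E → Q) (f : Fin M) (hf : z ∈ R.Vs f) :
    ℕ → {i : Fin M // z ∈ R.Vs i}
  | 0 => ⟨f, hf⟩
  | s + 1 => ⟨R.prem (lin R z f hf s).1 (least R z _ (lin R z f hf s).2).choose,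
      (least R z _ (lin R z f hf s).2).choose_spec.1⟩

/-- the greedy choices -/
noncomputable def gr (R : Dag E Q kk M) (z : E → Q) (f : Fin M) (hf : z ∈ R.Vs f) (s : ℕ) :
    Fin kk := (least R z _ (lin R z f hf s).2).choose

theorem walk_gr (R : Dag E Q kk M) (z : E → Q) (f : Fin M) (hf : z ∈ R.Vs f) (s : ℕ) :
    R.walk f (gr R z f hf) s = (lin R z f hf s).1 := by
  induction s with
  | zero => rfl
  | succ s ih =>
    show R.prem (R.walk f (gr R z f hf) s) (gr R z f hf s) = _
    rw [ih]
    rfl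

theorem gr_spec (R : Dag E Q kk M) (z : E → Q) (f : Fin M) (hf : z ∈ R.Vs f) (s : ℕ) :
    z ∈ R.Vs (R.prem (R.walk f (gr R z f hf) s) (gr R z f hf s)) ∧
      ∀ b < gr R z f hf s, z ∉ R.Vs (R.prem (R.walk f (gr R z f hf) s) b) := by
  rw [walk_gr]
  exact (least R z _ (lin R z f hf s).2).choose_spec

theorem uniq (R : Dag E Q kk M) (z : E → Q) (f : Fin M) (a a' : ℕ → Fin kk) (h : ℕ)
    (ha : ∀ s < h, z ∈ R.Vs (R.prem (R.walk f a s) (a s)) ∧
      ∀ b < a s, z ∉ R.Vs (R.prem (R.walk f a s) b))
    (ha' : ∀ s < h, z ∈ R.Vs (R.prem (R.walk f a' s) (a' s)) ∧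
      ∀ b < a' s, z ∉ R.Vs (R.prem (R.walk f a' s) b)) : ∀ s < h, a s = a' s := by
  intro s
  induction s using Nat.strong_induction_on with
  | _ s ih =>
    intro hs
    have hw : R.walk f a s = R.walk f a' s :=
      walk_congr R f a a' s fun r hr => ih r hr (lt_trans hr hs)
    rcases lt_trichotomy (a s) (a' s) with hlt | heq | hgt
    · exfalso
      have h1 := (ha s hs).1
      rw [hw] at h1
      exact (ha' s hs).2 _ hlt h1
    · exact heq
    · exfalso
      have h1 := (ha' s hs).1
      rw [← hw] at h1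
      exact (ha s hs).2 _ hgt h1

theorem mem_ps [Fintype E] [DecidableEq E] [Fintype Q] [NeZero kk] (R : Dag E Q kk M) (f : Fin M)
    {h : ℕ} (a : Fin h → Fin kk) (z : E → Q) : z ∈ R.ps f a ↔ z ∈ R.Vs f ∧ ∀ s < h,
    z ∈ R.Vs (R.prem (R.walk f (exa a) s) (exa a s)) ∧
      ∀ b < exa a s, z ∉ R.Vs (R.prem (R.walk f (exa a) s) b) := by
  unfold Dag.ps
  simp only [mem_filter, mem_univ, true_and]

theorem proof_T13 : S_Path := by
  intro E Q _ _ _ _ kk M h _ R f
  refine ⟨?_, ?_⟩
  · intro z
    by_cases hz : z ∈ R.Vs f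
    · let a0 : Fin h → Fin kk := fun s => gr R z f hz s
      have hex : ∀ s < h, exa a0 s = gr R z f hz s := by
        intro s hs
        unfold exa
        rw [dif_pos hs]
      have hwk : ∀ s < h, R.walk f (exa a0) s = R.walk f (gr R z f hz) s := by
        intro s hs
        exact walk_congr R f _ _ s fun r hr => hex r (lt_trans hr hs)
      have h0 : z ∈ R.ps f a0 := by
        rw [mem_ps]
        refine ⟨hz, ?_⟩
        intro s hs
        rw [hwk s hs, hex s hs]
        exact gr_spec R z f hz s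
      rw [Finset.sum_eq_single a0]
      · unfold ind
        rw [if_pos hz, if_pos h0]
      · intro a _ hne
        unfold ind
        rw [if_neg]
        intro hmem
        apply hne
        rw [mem_ps] at hmem h0
        have hu := uniq R z f (exa a) (exa a0) h hmem.2 h0.2
        funext s
        have h1 := hu s.1 s.2
        unfold exa at h1
        rw [dif_pos s.2, dif_pos s.2] at h1
        exact h1
      · intro hn
        exact absurd (mem_univ _) hn
    · have h0 : ∀ a ∈ (univ : Finset (Fin h → Fin kk)), ind (R.ps f a) z = 0 := by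
        intro a _
        unfold ind
        rw [if_neg]
        intro hmem
        rw [mem_ps] at hmem
        exact hz hmem.1
      rw [Finset.sum_eq_zero h0]
      unfold ind
      rw [if_neg hz]
  · intro a z hmem
    rw [mem_ps] at hmem
    cases h with
    | zero => exact hmem.1
    | succ h => exact (hmem.2 h (Nat.lt_succ_self h)).1

end Pool.Agent.Helper600R2.HT.T13
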