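import Pool.Agent.Helper600R2.HT.Stm

/-! T14: one phase. -/

namespace Pool.Agent.Helper600R2.HT.T14

open Finset Pool.Agent.Helper600R2.HT

set_option linter.unusedSectionVars false

variable {V E Q : Type} [Fintype V] [DecidableEq V] [Fintype E] [DecidableEq E]
  [Fintype Q] [DecidableEq Q]

theorem ind_nonneg (X : Finset (E → Q)) (z : E → Q) : 0 ≤ ind X z := by
  unfold ind; split_ifs <;> norm_num

theorem ind_le_one (X : Finset (E → Q)) (z : E → Q) : ind X z ≤ 1 := by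
  unfold ind; split_ifs <;> norm_num

theorem ind_inter (X Y : Finset (E → Q)) (z : E → Q) : ind (X ∩ Y) z = ind X z * ind Y z := by
  unfold ind
  by_cases h1 : z ∈ X <;> by_cases h2 : z ∈ Y <;> simp [h1, h2]

theorem ind_of_mem {X : Finset (E → Q)} {z : E → Q} (h : z ∈ X) : ind X z = 1 := by
  unfold ind; rw [if_pos h]

theorem ind_of_notMem {X : Finset (E → Q)} {z : E → Q} (h : z ∉ X) : ind X z = 0 := by
  unfold ind; rw [if_neg h]

theorem card_eq (X : Finset (E → Q)) : (X.card : ℝ) = ∑ z, ind X z := by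
  unfold ind
  rw [Finset.sum_ite_mem, Finset.univ_inter]
  simp

theorem card_pos' [Nonempty Q] : (0 : ℝ) < Fintype.card Q := by
  exact_mod_cast Fintype.card_pos

theorem card_fun : (Fintype.card (E → Q) : ℝ) = (Fintype.card Q : ℝ) ^ Fintype.card E := by
  rw [Fintype.card_fun]; push_cast; rfl

theorem mean_le_one [Nonempty Q] (X : Finset (E → Q)) (σ : Bx E Q) : mean X σ ≤ 1 := by
  unfold mean
  rw [div_le_one (pow_pos card_pos' _), ← card_fun]
  calc ∑ z, ind X (mg σ z) ≤ ∑ _z : E → Q, (1 : ℝ) :=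
        Finset.sum_le_sum (fun z _ => ind_le_one X _)
    _ = _ := by simp

theorem mu_eq (X : Finset (E → Q)) :
    mu X = (∑ z, ind X z) / (Fintype.card Q : ℝ) ^ Fintype.card E := by
  unfold mu; rw [card_eq]

theorem mu_nonneg (X : Finset (E → Q)) : 0 ≤ mu X := by
  unfold mu; positivity

theorem LL_empty (G : Sys V E Q) (𝓤 : Finset (Finset V)) : G.LL 𝓤 ∅ = 0 := by
  unfold Sys.LL hat0
  refine Finset.sum_eq_zero (fun U _ => ?_)
  have : ∑ z : E → Q, ind ∅ z * ∏ e ∈ G.bdr U, G.r e (z e) = 0 := by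
    refine Finset.sum_eq_zero (fun z _ => ?_)
    rw [ind_of_notMem (notMem_empty z), zero_mul]
  rw [this]; simp

theorem sub_refl (σ : Bx E Q) : Sub σ σ := ⟨subset_rfl, fun _ _ => rfl⟩

theorem Lt_triv [Nonempty Q] {B : ℝ} (hB : 1 ≤ B) (X : Finset (E → Q)) (ρ : Bx E Q) :
    Lt B X ρ (1 / B ^ ρ.1.card) := by
  intro ρ' h
  have h1 : B ^ ρ.1.card ≤ B ^ ρ'.1.card := pow_le_pow_right₀ hB (card_le_card h.1)
  have h2 : 0 < B ^ ρ.1.card := pow_pos (by linarith) _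
  refine (mean_le_one X ρ').trans ?_
  rw [one_div, inv_mul_eq_div, le_div_iff₀ h2]
  linarith

/-- The rest lies in the box. -/
theorem rest_inB (hD : S_Decomp) [Nonempty Q] {B : ℝ} (hB : 1 ≤ B) {θ : ℝ} (hθ : 0 ≤ θ)
    (σ : Bx E Q) (X : Finset (E → Q)) {z : E → Q} (hz : z ∈ rest B σ θ X (stp E Q)) :
    InB σ z := by
  by_contra hcon
  have h := (hD E Q B σ θ X hB hθ).1 z
  rw [if_neg hcon, ind_of_mem hz] at h
  have h1 : 0 ≤ ∑ j ∈ range (stp E Q), ind (part B σ θ X j) z :=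
    Finset.sum_nonneg (fun j _ => ind_nonneg _ _)
  linarith

/-- The sum of the densities of the parts. -/
theorem sum_mu_le (hD : S_Decomp) (hBox : S_Box) [Nonempty Q] {B : ℝ} (hB : 1 ≤ B)
    {θ : ℝ} (hθ : 0 ≤ θ) (G : Sys V E Q) (σ : Bx E Q) (X : Finset (E → Q)) :
    ∑ j ∈ range (stp E Q), mu (part B σ θ X j) ≤ 1 / (Fintype.card Q : ℝ) ^ σ.1.card := by
  classical
  have hq : (0 : ℝ) < Fintype.card Q := card_pos'
  have h1 : ∑ j ∈ range (stp E Q), mu (part B σ θ X j) ≤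
      mu (univ.filter (fun z : E → Q => InB σ z)) := by
    simp only [mu_eq]
    rw [← Finset.sum_div, Finset.sum_comm]
    gcongr with z _
    have h := (hD E Q B σ θ X hB hθ).1 z
    have h2 : 0 ≤ ind (rest B σ θ X (stp E Q)) z := ind_nonneg _ _
    by_cases hz : InB σ z
    · rw [if_pos hz] at h
      rw [ind_of_mem (by simpa using hz)]
      have := ind_le_one X z
      linarith
    · rw [if_neg hz] at h
      have := ind_nonneg (univ.filter (fun z : E → Q => InB σ z)) z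
      linarith
  refine h1.trans ?_
  obtain ⟨_, h3, _, h4⟩ := hBox V E Q G (univ.filter (fun z : E → Q => InB σ z)) σ
    (fun z hz => by simpa using hz)
  rw [h3]
  gcongr

/-- A part with a bad box contributes little. -/
theorem bad_part (hB0 : S_Base) [Nonempty Q] (G : Sys V E Q) {B θ η : ℝ} {dd : ℕ} (hG : G.Ok)
    (hB : 1 ≤ B) (hexp : (1 + 1 / B) ^ Fintype.card E ≤ 5 / 4) (hdd : dd ≤ G.D0)
    (hη : 2 ^ Fintype.card V * (1 / B) ^ (G.D0 - dd) ≤ η) (hθ : 0 < θ)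
    (hs : ∀ s : ℕ, θ * B ^ s < 1 → s ≤ dd) (Y Z : Finset (E → Q)) (ρ : Bx E Q)
    (hY : ∀ z ∈ Y, InB ρ z) (hm : θ * B ^ ρ.1.card < mean Y ρ) (hbad : ¬ G.Good ρ)
    (hZ : Z ⊆ Y) (hPR : PR B G.r Z) :
    G.LL G.SS Z ≤ η / θ * mu Y := by
  obtain ⟨hD, hAA, hcmp, hBox, hBS, hBV, hPos, hAAv⟩ := hB0
  have hq : (0 : ℝ) < Fintype.card Q := card_pos'
  have hB1 : 0 < B ^ ρ.1.card := pow_pos (by linarith) _
  have hB2 : 1 ≤ B ^ ρ.1.card := one_le_pow₀ hB
  have hq1 : (0 : ℝ) < (Fintype.card Q : ℝ) ^ ρ.1.card := pow_pos hq _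
  obtain ⟨_, hmu, _, _⟩ := hBox V E Q G Y ρ hY
  have hρ : ρ.1.card ≤ dd := hs _ (hm.trans_le (mean_le_one Y ρ))
  have h0 : G.AA G.SS ρ ∅ = 0 := (hAA V E Q G hG ρ (hρ.trans hdd)).2.2.1 hbad
  have hη0 : 0 ≤ η := by
    refine le_trans ?_ hη
    have : 0 ≤ 1 / B := by positivity
    positivity
  have h1 := hBS V E Q G B (1 / B ^ ρ.1.card) η dd Z ρ hG hAA hBox hB hexp hdd hρ hη
    (fun z hz => hY z (hZ hz)) hPR (Lt_triv hB Z ρ)
  rw [h0] at h1
  have h2 : 1 / B ^ ρ.1.card * B ^ ρ.1.card = 1 := by field_simp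
  rw [h2] at h1
  simp only [zero_mul, zero_div, sub_zero, zero_add] at h1
  have h3 : G.LL G.SS Z ≤ 1 / (Fintype.card Q : ℝ) ^ ρ.1.card * η := (le_abs_self _).trans h1
  refine h3.trans ?_
  have h4 : θ / (Fintype.card Q : ℝ) ^ ρ.1.card ≤ mu Y := by
    rw [hmu]
    gcongr
    nlinarith
  calc 1 / (Fintype.card Q : ℝ) ^ ρ.1.card * η
      = η / θ * (θ / (Fintype.card Q : ℝ) ^ ρ.1.card) := by field_simp
    _ ≤ η / θ * mu Y := by gcongr

theorem proof_T14 : S_Phase := by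
  classical
  intro V E Q _ _ _ _ _ _ _ _ G B w0 θ1 θ2 η dd kk M h _ R f P σ hG hBase hComp hPath hB hexp hdd
    hη hη4 hθ1 hθ2 hs1 hs2 hσ hgood hPf hPσ hPRP hw0 hmean hLt hPR1 hPR2 hPR3 hnum
  have hBase' := hBase
  obtain ⟨hD, hAA, hcmp, hBox, hBS, hBV, hPos, hAAv⟩ := hBase
  have hq : (0 : ℝ) < Fintype.card Q := card_pos'
  have hqs : (0 : ℝ) < (Fintype.card Q : ℝ) ^ σ.1.card := pow_pos hq _
  have hBs : 0 < B ^ σ.1.card := pow_pos (by linarith) _
  have hBs1 : 1 ≤ B ^ σ.1.card := one_le_pow₀ hB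
  have hη0 : 0 ≤ η := by
    refine le_trans ?_ hη
    have : 0 ≤ 1 / B := by positivity
    positivity
  have ha0 : 1 ≤ G.AA G.SS σ ∅ := (hAA V E Q G hG σ (hσ.trans hdd)).2.1 hgood
  obtain ⟨hpos, hlin⟩ := hPos V E Q G hG
  obtain ⟨hpath1, hpath2⟩ := hPath E Q kk M h R f
  by_contra hcon
  -- bad boxes
  have hbad : ∀ (a : Fin h → Fin kk) (j : ℕ),
      G.LL G.SS (P ∩ R.ps f a ∩ part B σ θ2 (R.Vs (R.walk f (exa a) h)) j) ≤
        η / θ2 * mu (part B σ θ2 (R.Vs (R.walk f (exa a) h)) j) := by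
    intro a j
    by_cases hne : (part B σ θ2 (R.Vs (R.walk f (exa a) h)) j).Nonempty
    · obtain ⟨ρ, hρ1, hρ2, hρ3, hρ4⟩ :=
        (hD E Q B σ θ2 (R.Vs (R.walk f (exa a) h)) hB hθ2.le).2.2 j hne
      have hng : ¬ G.Good ρ := fun hg => hcon ⟨a, j, ρ, hρ1, hg, hρ2, hρ3, hρ4⟩
      exact bad_part hBase' G hG hB hexp hdd hη hθ2 hs2 _ _ ρ hρ2 hρ3 hng inter_subset_right
        (hPR2 a (some j))
    · rw [not_nonempty_iff_eq_empty] at hne
      rw [hne, inter_empty, LL_empty]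
      have := mu_nonneg (∅ : Finset (E → Q))
      positivity
  -- decomposition of P
  have hdec1 : G.LL G.SS P = ∑ a : Fin h → Fin kk, G.LL G.SS (P ∩ R.ps f a) := by
    apply hlin
    intro z
    simp only [ind_inter]
    rw [← Finset.mul_sum, ← hpath1 z]
    by_cases hz : z ∈ P
    · rw [ind_of_mem (hPf hz), mul_one]
    · rw [ind_of_notMem hz, zero_mul]
  have hdec2 : ∀ a : Fin h → Fin kk, G.LL G.SS (P ∩ R.ps f a) =
      G.LL G.SS (P ∩ R.ps f a ∩ rest B σ θ2 (R.Vs (R.walk f (exa a) h)) (stp E Q)) +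
      ∑ j ∈ range (stp E Q),
        G.LL G.SS (P ∩ R.ps f a ∩ part B σ θ2 (R.Vs (R.walk f (exa a) h)) j) := by
    intro a
    rw [hlin G.SS (Option ℕ) (insertNone (range (stp E Q)))
      (fun o => P ∩ R.ps f a ∩ Dc B σ θ2 (R.Vs (R.walk f (exa a) h)) o) (P ∩ R.ps f a)]
    · rw [Finset.sum_insertNone]
      rfl
    · intro z
      rw [Finset.sum_insertNone]
      simp only [ind_inter (P ∩ R.ps f a)]
      rw [← Finset.mul_sum, ← mul_add]
      by_cases hz : z ∈ P ∩ R.ps f a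
      · have hz1 := mem_inter.1 hz
        have h1 := (hD E Q B σ θ2 (R.Vs (R.walk f (exa a) h)) hB hθ2.le).1 z
        rw [if_pos (hPσ z hz1.1), ind_of_mem (hpath2 a hz1.2)] at h1
        have h2 : ind (Dc B σ θ2 (R.Vs (R.walk f (exa a) h)) none) z +
            ∑ j ∈ range (stp E Q), ind (Dc B σ θ2 (R.Vs (R.walk f (exa a) h)) (some j)) z = 1 := by
          rw [h1, add_comm]; rfl
        rw [h2, mul_one]
      · rw [ind_of_notMem hz, zero_mul]
  -- lower bound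
  have hlow : w0 * B ^ σ.1.card / (Fintype.card Q : ℝ) ^ σ.1.card *
      (3 / 4 * G.AA G.SS σ ∅ - η) ≤ G.LL G.SS P := by
    have h1 := hBS V E Q G B w0 η dd P σ hG hAA hBox hB hexp hdd hσ hη hPσ hPRP hLt
    rw [hmean] at h1
    have h2 := (abs_le.1 h1).1
    have h3 : G.AA G.SS σ ∅ * (w0 * B ^ σ.1.card) / (Fintype.card Q : ℝ) ^ σ.1.card =
        w0 * B ^ σ.1.card / (Fintype.card Q : ℝ) ^ σ.1.card * G.AA G.SS σ ∅ := by ring
    rw [h3] at h2
    linarith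
  -- bad parts
  have hbadsum : ∀ a : Fin h → Fin kk, ∑ j ∈ range (stp E Q),
      G.LL G.SS (P ∩ R.ps f a ∩ part B σ θ2 (R.Vs (R.walk f (exa a) h)) j) ≤
      η / θ2 * (1 / (Fintype.card Q : ℝ) ^ σ.1.card) := by
    intro a
    calc _ ≤ ∑ j ∈ range (stp E Q), η / θ2 * mu (part B σ θ2 (R.Vs (R.walk f (exa a) h)) j) :=
          Finset.sum_le_sum (fun j _ => hbad a j)
      _ = η / θ2 * ∑ j ∈ range (stp E Q), mu (part B σ θ2 (R.Vs (R.walk f (exa a) h)) j) := by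
          rw [Finset.mul_sum]
      _ ≤ _ := by
          have := sum_mu_le hD hBox hB hθ2.le G σ (R.Vs (R.walk f (exa a) h))
          gcongr
  -- the rest: comparison
  have hXσ : ∀ a : Fin h → Fin kk, ∀ z ∈ P ∩ R.ps f a ∩
      rest B σ θ2 (R.Vs (R.walk f (exa a) h)) (stp E Q), InB σ z := fun a z hz =>
    hPσ z (mem_inter.1 (mem_inter.1 hz).1).1
  have hrest : ∀ a : Fin h → Fin kk,
      G.LL G.SS (P ∩ R.ps f a ∩ rest B σ θ2 (R.Vs (R.walk f (exa a) h)) (stp E Q)) ≤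
      5 / 2 * ((∑ v, G.LL (Av v) (P ∩ R.ps f a ∩
        rest B σ θ2 (R.Vs (R.walk f (exa a) h)) (stp E Q))) / Fintype.card V) +
      (η + θ1 * B ^ σ.1.card * (5 / 4 * G.AA G.SS σ ∅ + η)) /
        (Fintype.card Q : ℝ) ^ σ.1.card := fun a =>
    (hComp V E Q G B θ1 η dd _ σ hG hBase' hB hexp hdd hη hη4 hθ1 hs1 hσ hgood (hXσ a)
      (hPR3 a)).1
  -- the measures of the rests
  have hmeas : ∀ (v : V) (g : Fin M), G.LL (Av v) (rest B σ θ2 (R.Vs g) (stp E Q)) ≤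
      5 / 4 * θ2 * B ^ σ.1.card * G.AA G.SS σ ∅ / (Fintype.card Q : ℝ) ^ σ.1.card := by
    intro v g
    have hD2 := (hD E Q B σ θ2 (R.Vs g) hB hθ2.le).2.1
    have h1 := hBV V E Q G B θ2 (rest B σ θ2 (R.Vs g) (stp E Q)) σ v hG hAAv hBox hB hexp
      (fun z hz => rest_inB hD hB hθ2.le σ _ hz) (hPR1 g none) hD2
    have h2 := (abs_le.1 h1).2
    have h3 : mean (rest B σ θ2 (R.Vs g) (stp E Q)) σ ≤ θ2 * B ^ σ.1.card := hD2 σ (sub_refl σ)
    have h4 := (hcmp V E Q G hG σ (hσ.trans hdd)).2 hgood v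
    have h5 := (hAAv V E Q G hG σ v).1
    have h6 : G.AA (Av v) σ ∅ * mean (rest B σ θ2 (R.Vs g) (stp E Q)) σ /
        (Fintype.card Q : ℝ) ^ σ.1.card ≤
        G.AA (Av v) σ ∅ * (θ2 * B ^ σ.1.card) / (Fintype.card Q : ℝ) ^ σ.1.card := by gcongr
    have h7 : G.LL (Av v) (rest B σ θ2 (R.Vs g) (stp E Q)) ≤
        5 / 4 * θ2 * B ^ σ.1.card * G.AA (Av v) σ ∅ / (Fintype.card Q : ℝ) ^ σ.1.card := by
      have h8 : 5 / 4 * θ2 * B ^ σ.1.card * G.AA (Av v) σ ∅ / (Fintype.card Q : ℝ) ^ σ.1.card =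
        G.AA (Av v) σ ∅ * (θ2 * B ^ σ.1.card) / (Fintype.card Q : ℝ) ^ σ.1.card +
        θ2 * B ^ σ.1.card / (Fintype.card Q : ℝ) ^ σ.1.card * (G.AA (Av v) σ ∅ / 4) := by ring
      rw [h8]
      linarith
    refine h7.trans ?_
    gcongr
  -- the rests of the paths with endpoint g
  have hgrp : ∀ (v : V) (g : Fin M),
      ∑ a ∈ univ.filter (fun a : Fin h → Fin kk => R.walk f (exa a) h = g),
        G.LL (Av v) (P ∩ R.ps f a ∩ rest B σ θ2 (R.Vs (R.walk f (exa a) h)) (stp E Q)) ≤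
      G.LL (Av v) (rest B σ θ2 (R.Vs g) (stp E Q)) := by
    intro v g
    let A : Finset (Fin h → Fin kk) := univ.filter (fun a => R.walk f (exa a) h = g)
    let Dg : Finset (E → Q) := (rest B σ θ2 (R.Vs g) (stp E Q)).filter
      (fun z => ∀ a ∈ A, z ∉ P ∩ R.ps f a)
    have h1 : G.LL (Av v) (rest B σ θ2 (R.Vs g) (stp E Q)) =
        ∑ o ∈ insertNone A, G.LL (Av v) (Option.elim o Dg (fun a => P ∩ R.ps f a ∩
          rest B σ θ2 (R.Vs (R.walk f (exa a) h)) (stp E Q))) := by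
      apply hlin (Av v) (Option (Fin h → Fin kk)) (insertNone A)
        (fun o => Option.elim o Dg (fun a => P ∩ R.ps f a ∩
          rest B σ θ2 (R.Vs (R.walk f (exa a) h)) (stp E Q)))
      intro z
      rw [Finset.sum_insertNone]
      simp only [Option.elim]
      have h2 : ∀ a ∈ A, ind (P ∩ R.ps f a ∩
          rest B σ θ2 (R.Vs (R.walk f (exa a) h)) (stp E Q)) z =
          ind (P ∩ R.ps f a) z * ind (rest B σ θ2 (R.Vs g) (stp E Q)) z := by
        intro a ha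
        have ha' : R.walk f (exa a) h = g := (mem_filter.1 ha).2
        rw [ind_inter, ha']
      rw [Finset.sum_congr rfl h2, ← Finset.sum_mul]
      by_cases hz : z ∈ rest B σ θ2 (R.Vs g) (stp E Q)
      · rw [ind_of_mem hz, mul_one]
        by_cases hex : ∃ a ∈ A, z ∈ P ∩ R.ps f a
        · obtain ⟨a, ha, hza⟩ := hex
          have h3 : ind Dg z = 0 := by
            apply ind_of_notMem
            intro h4
            exact (mem_filter.1 h4).2 a ha hza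
          rw [h3, zero_add]
          apply le_antisymm
          · calc (1 : ℝ) = ind (P ∩ R.ps f a) z := (ind_of_mem hza).symm
              _ ≤ _ := Finset.single_le_sum (f := fun a => ind (P ∩ R.ps f a) z)
                  (fun b _ => ind_nonneg _ _) ha
          · calc ∑ a ∈ A, ind (P ∩ R.ps f a) z ≤ ∑ a ∈ A, ind (R.ps f a) z := by
                  refine Finset.sum_le_sum (fun b _ => ?_)
                  rw [ind_inter]
                  have h5 := ind_le_one P z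
                  have h6 := ind_nonneg (R.ps f b) z
                  nlinarith
              _ ≤ ∑ a, ind (R.ps f a) z :=
                  Finset.sum_le_sum_of_subset_of_nonneg (subset_univ _)
                    (fun b _ _ => ind_nonneg _ _)
              _ = ind (R.Vs f) z := (hpath1 z).symm
              _ ≤ 1 := ind_le_one _ _
        · have h3 : z ∈ Dg := by
            refine mem_filter.2 ⟨hz, fun a ha hza => hex ⟨a, ha, hza⟩⟩
          rw [ind_of_mem h3]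
          have h4 : ∑ a ∈ A, ind (P ∩ R.ps f a) z = 0 :=
            Finset.sum_eq_zero (fun a ha => ind_of_notMem (fun hza => hex ⟨a, ha, hza⟩))
          rw [h4, add_zero]
      · have h3 : z ∉ Dg := fun h4 => hz (mem_filter.1 h4).1
        rw [ind_of_notMem hz, ind_of_notMem h3]
        ring
    rw [h1, Finset.sum_insertNone]
    simp only [Option.elim]
    have := hpos v Dg
    linarith
  have hVcard : (0 : ℝ) < Fintype.card V := by exact_mod_cast Fintype.card_pos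
  have hav : ∀ v : V, ∑ a : Fin h → Fin kk,
      G.LL (Av v) (P ∩ R.ps f a ∩ rest B σ θ2 (R.Vs (R.walk f (exa a) h)) (stp E Q)) ≤
      M * (5 / 4 * θ2 * B ^ σ.1.card * G.AA G.SS σ ∅ / (Fintype.card Q : ℝ) ^ σ.1.card) := by
    intro v
    rw [← Finset.sum_fiberwise (s := (univ : Finset (Fin h → Fin kk)))
      (g := fun a => R.walk f (exa a) h)]
    calc _ ≤ ∑ g : Fin M, G.LL (Av v) (rest B σ θ2 (R.Vs g) (stp E Q)) :=
          Finset.sum_le_sum (fun g _ => hgrp v g)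
      _ ≤ ∑ _g : Fin M,
          5 / 4 * θ2 * B ^ σ.1.card * G.AA G.SS σ ∅ / (Fintype.card Q : ℝ) ^ σ.1.card :=
          Finset.sum_le_sum (fun g _ => hmeas v g)
      _ = _ := by simp
  -- total
  have htot : G.LL G.SS P ≤
      (kk : ℝ) ^ h * (η / θ2 * (1 / (Fintype.card Q : ℝ) ^ σ.1.card)) +
      (kk : ℝ) ^ h * ((η + θ1 * B ^ σ.1.card * (5 / 4 * G.AA G.SS σ ∅ + η)) /
        (Fintype.card Q : ℝ) ^ σ.1.card) +
      5 / 2 * (M * (5 / 4 * θ2 * B ^ σ.1.card * G.AA G.SS σ ∅ /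
        (Fintype.card Q : ℝ) ^ σ.1.card)) := by
    rw [hdec1]
    have h1 : ∀ a : Fin h → Fin kk, G.LL G.SS (P ∩ R.ps f a) ≤
        (5 / 2 * ((∑ v, G.LL (Av v) (P ∩ R.ps f a ∩
          rest B σ θ2 (R.Vs (R.walk f (exa a) h)) (stp E Q))) / Fintype.card V)) +
        ((η + θ1 * B ^ σ.1.card * (5 / 4 * G.AA G.SS σ ∅ + η)) /
          (Fintype.card Q : ℝ) ^ σ.1.card + η / θ2 * (1 / (Fintype.card Q : ℝ) ^ σ.1.card)) := by
      intro a
      rw [hdec2 a]
      have h2 := hrest a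
      have h3 := hbadsum a
      linarith
    refine (Finset.sum_le_sum (fun a _ => h1 a)).trans ?_
    rw [Finset.sum_add_distrib, Finset.sum_const, card_univ, Fintype.card_fun, Fintype.card_fin,
      Fintype.card_fin, ← Finset.mul_sum, ← Finset.sum_div, Finset.sum_comm]
    have h4 : (∑ v, ∑ a : Fin h → Fin kk, G.LL (Av v) (P ∩ R.ps f a ∩
        rest B σ θ2 (R.Vs (R.walk f (exa a) h)) (stp E Q))) / (Fintype.card V : ℝ) ≤
        M * (5 / 4 * θ2 * B ^ σ.1.card * G.AA G.SS σ ∅ / (Fintype.card Q : ℝ) ^ σ.1.card) := by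
      rw [div_le_iff₀ hVcard]
      calc _ ≤ ∑ _v : V, (M * (5 / 4 * θ2 * B ^ σ.1.card * G.AA G.SS σ ∅ /
            (Fintype.card Q : ℝ) ^ σ.1.card) : ℝ) := Finset.sum_le_sum (fun v _ => hav v)
        _ = _ := by simp [mul_comm]
    rw [nsmul_eq_mul]
    push_cast
    linarith
  -- numbers
  have hfin := hlow.trans htot
  have hfin2 : w0 * B ^ σ.1.card * (3 / 4 * G.AA G.SS σ ∅ - η) ≤
      (kk : ℝ) ^ h * (η / θ2) +
      (kk : ℝ) ^ h * (η + θ1 * B ^ σ.1.card * (5 / 4 * G.AA G.SS σ ∅ + η)) +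
      5 / 2 * (M * (5 / 4 * θ2 * B ^ σ.1.card * G.AA G.SS σ ∅)) := by
    have h1 := mul_le_mul_of_nonneg_right hfin hqs.le
    have h2 : w0 * B ^ σ.1.card / (Fintype.card Q : ℝ) ^ σ.1.card *
        (3 / 4 * G.AA G.SS σ ∅ - η) * (Fintype.card Q : ℝ) ^ σ.1.card =
        w0 * B ^ σ.1.card * (3 / 4 * G.AA G.SS σ ∅ - η) := by field_simp
    have h3 : ((kk : ℝ) ^ h * (η / θ2 * (1 / (Fintype.card Q : ℝ) ^ σ.1.card)) +
      (kk : ℝ) ^ h * ((η + θ1 * B ^ σ.1.card * (5 / 4 * G.AA G.SS σ ∅ + η)) /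
        (Fintype.card Q : ℝ) ^ σ.1.card) +
      5 / 2 * (M * (5 / 4 * θ2 * B ^ σ.1.card * G.AA G.SS σ ∅ /
        (Fintype.card Q : ℝ) ^ σ.1.card))) * (Fintype.card Q : ℝ) ^ σ.1.card =
        (kk : ℝ) ^ h * (η / θ2) +
      (kk : ℝ) ^ h * (η + θ1 * B ^ σ.1.card * (5 / 4 * G.AA G.SS σ ∅ + η)) +
      5 / 2 * (M * (5 / 4 * θ2 * B ^ σ.1.card * G.AA G.SS σ ∅)) := by field_simp
    rw [h2, h3] at h1
    exact h1
  set c := B ^ σ.1.card with hc
  set a0 := G.AA G.SS σ ∅ with ha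
  have hca : 1 ≤ c * a0 := by nlinarith
  have hkk : (0 : ℝ) ≤ (kk : ℝ) ^ h := by positivity
  have hM0 : (0 : ℝ) ≤ M := by positivity
  have hηθ : 0 ≤ η / θ2 := by positivity
  -- left side
  have hL : c * a0 * ((3 / 4 - η) * w0) ≤ w0 * c * (3 / 4 * a0 - η) := by
    have h1 : w0 * c * (3 / 4 * a0 - η) - c * a0 * ((3 / 4 - η) * w0) =
        w0 * c * (η * (a0 - 1)) := by ring
    have h2 : 0 ≤ w0 * c * (η * (a0 - 1)) := by
      have : 0 ≤ a0 - 1 := by linarith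
      positivity
    linarith
  have hR1 : (kk : ℝ) ^ h * (η / θ2) ≤ c * a0 * ((kk : ℝ) ^ h * (η / θ2)) := by
    have h1 : 0 ≤ (kk : ℝ) ^ h * (η / θ2) := by positivity
    nlinarith
  have hR2 : (kk : ℝ) ^ h * (η + θ1 * c * (5 / 4 * a0 + η)) ≤
      c * a0 * ((kk : ℝ) ^ h * (η + θ1 * (5 / 4 + η))) := by
    have h1 : η + θ1 * c * (5 / 4 * a0 + η) ≤ c * a0 * (η + θ1 * (5 / 4 + η)) := by
      have h2 : c * a0 * (η + θ1 * (5 / 4 + η)) - (η + θ1 * c * (5 / 4 * a0 + η)) =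
          η * (c * a0 - 1) + θ1 * c * η * (a0 - 1) := by ring
      have h3 : 0 ≤ η * (c * a0 - 1) := mul_nonneg hη0 (by linarith)
      have h4 : 0 ≤ θ1 * c * η * (a0 - 1) := by
        have : 0 ≤ a0 - 1 := by linarith
        positivity
      linarith
    calc (kk : ℝ) ^ h * (η + θ1 * c * (5 / 4 * a0 + η)) ≤
        (kk : ℝ) ^ h * (c * a0 * (η + θ1 * (5 / 4 + η))) := by gcongr
      _ = _ := by ring
  have hlast : c * a0 * ((kk : ℝ) ^ h * (η / θ2) + (kk : ℝ) ^ h * (η + θ1 * (5 / 4 + η)) +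
      25 / 8 * M * θ2) < c * a0 * ((3 / 4 - η) * w0) := by
    have : 0 < c * a0 := by linarith
    gcongr
  have hM3 : 5 / 2 * (M * (5 / 4 * θ2 * c * a0)) = c * a0 * (25 / 8 * M * θ2) := by ring
  nlinarith

end Pool.Agent.Helper600R2.HT.T14
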