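import Pool.Agent.Helper600R2.HT.Stm

namespace Pool.Agent.Helper600R2.HT.T15

open Finset

theorem proof_T15 : S_NotAx := by
  intro V E Q _ _ _ _ _ _ _ G B X ρ v α _hok hbox hB hBq hV hdeg hgood hX hmean hlt hα
  set T : Finset E := G.bdr {v} \ ρ.1 with hT
  set ρ' : Bx E Q := (ρ.1 ∪ T, fun e => if e ∈ ρ.1 then ρ.2 e else α e) with hρ'
  have hX' : ∀ z ∈ X, InB ρ' z := by
    intro z hz e he
    show z e = if e ∈ ρ.1 then ρ.2 e else α e
    by_cases h : e ∈ ρ.1
    · rw [if_pos h]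
      exact hX z hz e h
    · rw [if_neg h]
      have he' : e ∈ ρ.1 ∪ T := he
      rcases Finset.mem_union.1 he' with h1 | h1
      · exact absurd h1 h
      · exact hα z hz e (Finset.mem_sdiff.1 h1).1
  have hsub : Sub ρ ρ' := by
    refine ⟨Finset.subset_union_left, fun e he => ?_⟩
    show (if e ∈ ρ.1 then ρ.2 e else α e) = ρ.2 e
    rw [if_pos he]
  obtain ⟨-, hmu, -, -⟩ := hbox V E Q G X ρ hX
  obtain ⟨-, hmu', -, -⟩ := hbox V E Q G X ρ' hX'
  have hcard : ρ'.1.card = ρ.1.card + T.card := by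
    show (ρ.1 ∪ T).card = _
    exact Finset.card_union_of_disjoint Finset.disjoint_sdiff
  have hq0 : (0 : ℝ) < Fintype.card Q := by
    exact_mod_cast Fintype.card_pos
  have hB0 : (0 : ℝ) < B := by linarith
  have h1 : mean X ρ' = mean X ρ * (Fintype.card Q : ℝ) ^ T.card := by
    rw [hmu, hcard, pow_add] at hmu'
    have ha : (0 : ℝ) < (Fintype.card Q : ℝ) ^ ρ.1.card := by positivity
    have hb : (0 : ℝ) < (Fintype.card Q : ℝ) ^ T.card := by positivity
    rw [div_eq_div_iff ha.ne' (mul_pos ha hb).ne'] at hmu'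
    have h2 : (Fintype.card Q : ℝ) ^ ρ.1.card * (mean X ρ * (Fintype.card Q : ℝ) ^ T.card) =
        (Fintype.card Q : ℝ) ^ ρ.1.card * mean X ρ' := by linarith
    exact (mul_left_cancel₀ ha.ne' h2).symm
  have h3 : mean X ρ' ≤ mean X ρ * B ^ T.card := by
    refine (hlt ρ' hsub).trans (le_of_eq ?_)
    rw [hcard, pow_add]
    have : B ^ ρ.1.card ≠ 0 := by positivity
    field_simp
  have h4 : (Fintype.card Q : ℝ) ^ T.card ≤ B ^ T.card := by
    rw [h1] at h3
    exact le_of_mul_le_mul_left h3 hmean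
  have hT0 : T.card = 0 := by
    by_contra hne
    exact absurd h4 (not_le.2 (pow_lt_pow_left₀ hBq hB0.le hne))
  have hsub' : G.bdr {v} ⊆ ρ.1 := by
    rw [Finset.card_eq_zero] at hT0
    exact Finset.sdiff_eq_empty_iff_subset.1 hT0
  obtain ⟨z, hz⟩ : X.Nonempty := by
    rw [Finset.nonempty_iff_ne_empty]
    rintro rfl
    have h5 : mu (∅ : Finset (E → Q)) = 0 := by simp [mu]
    rw [h5] at hmu
    have h6 : mean (∅ : Finset (E → Q)) ρ / (Fintype.card Q : ℝ) ^ ρ.1.card > 0 := by positivity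
    linarith
  have hSS : ({v} : Finset V) ∈ G.SS := by
    unfold Sys.SS
    rw [Finset.mem_filter]
    refine ⟨Finset.mem_univ _, ?_, hdeg⟩
    rw [Finset.card_singleton]
    omega
  have h7 := hgood {v} hSS hsub'
  rw [Finset.prod_singleton] at h7
  rw [← h7]
  congr 1
  refine Finset.prod_congr rfl fun e he => ?_
  rw [← hα z hz e he, hX z hz e (hsub' he)]

end Pool.Agent.Helper600R2.HT.T15
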