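import Pool.Agent.Helper600R2.HT.Stm
import Pool.Agent.Helper600R2.Expander

/-! Task T16: the graph. -/

namespace Pool.Agent.Helper600R2.HT.T16

open Finset

variable {n : ℕ} (π : Equiv.Perm (Fin n))

/-- heads -/
def hdd : Fin n × Bool → Fin n := fun e => if e.2 then π e.1 else finRotate n e.1

/-- tails -/
def tll : Fin n × Bool → Fin n := fun e => e.1

/-- edge boundary -/
def bdy (U : Finset (Fin n)) : Finset (Fin n × Bool) :=
  univ.filter (fun e => ¬ (hdd π e ∈ U ↔ tll e ∈ U))

lemma mem_bdy (U : Finset (Fin n)) (e : Fin n × Bool) :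
    e ∈ bdy π U ↔ ¬ (hdd π e ∈ U ↔ tll e ∈ U) := by
  simp [bdy]

lemma bd1 (U : Finset (Fin n)) : (bd (finRotate n) U).card ≤ (bdy π U).card := by
  refine card_le_card_of_injOn (fun i => (i, false)) ?_ ?_
  · intro i hi
    have hi' : ¬ (i ∈ U ↔ finRotate n i ∈ U) := by
      simpa only [bd, coe_filter, mem_univ, true_and, Set.mem_ofPred_eq] using hi
    refine mem_coe.2 ((mem_bdy π U _).2 fun h => hi' ?_)
    have h' : finRotate n i ∈ U ↔ i ∈ U := by simpa [hdd, tll] using h
    exact h'.symm
  · intro i _ j _ h
    exact congrArg Prod.fst h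

lemma bd2 (U : Finset (Fin n)) : (bd π U).card ≤ (bdy π U).card := by
  refine card_le_card_of_injOn (fun i => (i, true)) ?_ ?_
  · intro i hi
    have hi' : ¬ (i ∈ U ↔ π i ∈ U) := by
      simpa only [bd, coe_filter, mem_univ, true_and, Set.mem_ofPred_eq] using hi
    refine mem_coe.2 ((mem_bdy π U _).2 fun h => hi' ?_)
    have h' : π i ∈ U ↔ i ∈ U := by simpa [hdd, tll] using h
    exact h'.symm
  · intro i _ j _ h
    exact congrArg Prod.fst h

lemma conn (U : Finset (Fin n)) (h : bdy π U = ∅) : U = ∅ ∨ U = univ := by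
  cases n with
  | zero => left; ext i; exact i.elim0
  | succ n =>
    have hstep : ∀ i : Fin (n + 1), finRotate (n + 1) i ∈ U ↔ i ∈ U := by
      intro i
      by_contra hc
      have : (i, false) ∈ bdy π U := (mem_bdy π U _).2 (by simpa [hdd, tll] using hc)
      rw [h] at this
      exact absurd this (notMem_empty _)
    have hconst : ∀ k : ℕ, ∀ hk : k < n + 1, ((⟨k, hk⟩ : Fin (n + 1)) ∈ U ↔ (0 : Fin (n + 1)) ∈ U) := by
      intro k
      induction k with
      | zero => intro _; exact Iff.rfl
      | succ k ih =>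
        intro hk
        have hrot : finRotate (n + 1) (⟨k, by omega⟩ : Fin (n + 1)) = ⟨k + 1, hk⟩ := by
          rw [finRotate_apply]
          apply Fin.ext
          rw [Fin.val_add_one_of_lt']
          exact hk
        rw [← hrot, hstep]
        exact ih (by omega)
    by_cases h0 : (0 : Fin (n + 1)) ∈ U
    · right
      ext i
      simp only [mem_univ, iff_true]
      exact (hconst i.val i.isLt).2 h0
    · left
      ext i
      simp only [notMem_empty, iff_false]
      exact fun hi => h0 ((hconst i.val i.isLt).1 hi)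

lemma deg (v : Fin n) : (bdy π {v}).card ≤ 4 := by
  classical
  have h : bdy π {v} ⊆
      {(v, false), (v, true), ((finRotate n).symm v, false), (π.symm v, true)} := by
    rintro ⟨i, s⟩ hi
    rw [mem_bdy] at hi
    simp only [mem_insert, mem_singleton, Prod.mk.injEq] at hi ⊢
    by_contra hcon
    push Not at hcon
    apply hi
    have hiv : i ≠ v := by
      rintro rfl
      cases s
      · exact hcon.1 rfl rfl
      · exact hcon.2.1 rfl rfl
    have hh : hdd π (i, s) ≠ v := by
      cases s
      · intro hh
        change finRotate n i = v at hh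
        refine hcon.2.2.1 ?_ rfl
        rw [← hh, Equiv.symm_apply_apply]
      · intro hh
        change π i = v at hh
        refine hcon.2.2.2 ?_ rfl
        rw [← hh, Equiv.symm_apply_apply]
    exact ⟨fun h => absurd h hh, fun h => absurd h hiv⟩
  exact (card_le_card h).trans card_le_four

theorem proof_T16 : S_Graph := by
  intro n hn
  obtain ⟨π, hπ⟩ := exists_expander hn
  refine ⟨hdd π, tll, ?_, ?_, ?_⟩
  · intro U h1 h2
    have h3 := bd1 π U
    have h4 := bd2 π U
    have h5 : bdy π U = univ.filter (fun e => ¬ (hdd π e ∈ U ↔ tll e ∈ U)) := rfl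
    rw [← h5]
    rcases hπ U h1 h2 with h | h <;> omega
  · intro U h
    exact conn π U h
  · intro v
    exact deg π v

end Pool.Agent.Helper600R2.HT.T16
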