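import Pool.Agent.Helper600R2.HT.Stm

namespace Pool.Agent.Helper600R2.HT.T17

open Finset

variable {E Q : Type} [Fintype E] [DecidableEq E] [Fintype Q] [DecidableEq Q]

theorem qpos [Nonempty Q] : (0 : ℝ) < (Fintype.card Q : ℝ) ^ Fintype.card E := by
  have : 0 < Fintype.card Q := Fintype.card_pos
  positivity

theorem mean_univ [Nonempty Q] (σ : Bx E Q) : mean (univ : Finset (E → Q)) σ = 1 := by
  have h := qpos (E := E) (Q := Q)
  unfold mean
  have e : (∑ z : E → Q, ind (univ : Finset (E → Q)) (mg σ z)) =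
      (Fintype.card Q : ℝ) ^ Fintype.card E := by
    simp [ind]
  rw [e, div_self h.ne']

theorem mean_le [Nonempty Q] (Y : Finset (E → Q)) (σ : Bx E Q) : mean Y σ ≤ 1 := by
  rw [← mean_univ (Q := Q) σ]
  unfold mean
  have h := qpos (E := E) (Q := Q)
  gcongr with z
  unfold ind
  rw [if_pos (mem_univ _)]
  split_ifs <;> norm_num

theorem pick_none [Nonempty Q] {B : ℝ} (hB : 1 ≤ B) (σ : Bx E Q) (Y : Finset (E → Q)) :
    pick B σ 1 Y = none := by
  unfold pick
  rw [dif_neg]
  rintro ⟨ρ, -, h, -⟩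
  have h1 := mean_le Y ρ
  have h2 : 1 ≤ B ^ ρ.1.card := one_le_pow₀ hB
  linarith

theorem rest_eq [Nonempty Q] {B : ℝ} (hB : 1 ≤ B) (α : E → Q) (X : Finset (E → Q)) (j : ℕ) :
    rest B ((∅, α) : Bx E Q) 1 X j = X := by
  induction j with
  | zero =>
    classical
    unfold rest
    ext z
    rw [mem_filter]
    refine ⟨fun h => h.1, fun h => ⟨h, ?_⟩⟩
    intro e he
    exact absurd he (notMem_empty e)
  | succ j ih =>
    rw [rest, pick_none hB]
    exact ih

theorem proof_T17 : S_Elem := by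
  intro E Q _ _ _ _ _ B X α hB
  refine ⟨fun ρ _ => ?_, mean_univ _, ?_⟩
  · rw [mean_univ, one_mul]
    exact one_le_pow₀ hB
  · exact rest_eq hB α X _

end Pool.Agent.Helper600R2.HT.T17
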