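import Pool.Agent.Helper600R2.HT.Stm

/-! T2: good signs exist (union bound). -/

namespace Pool.Agent.Helper600R2.HT.T2

open Finset

/-- exchange the value at `e` with the extra value -/
def sw {E β : Type} [DecidableEq E] (e : E) (p : (E → β) × β) : (E → β) × β :=
  (Function.update p.1 e p.2, p.1 e)

theorem sw_inv {E β : Type} [DecidableEq E] (e : E) :
    Function.Involutive (sw (β := β) e) := by
  intro p
  unfold sw
  ext1
  · simp
  · simp

theorem count {E β : Type} [Fintype E] [DecidableEq E] [Fintype β] [DecidableEq β] (e : E)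
    (P : (E → β) → Prop) [DecidablePred P] :
    ∑ r : E → β, (univ.filter (fun q => P (Function.update r e q))).card =
      (univ.filter P).card * Fintype.card β := by
  have h1 : ∑ r : E → β, (univ.filter (fun q => P (Function.update r e q))).card =
      ∑ p : (E → β) × β, if P (sw e p).1 then 1 else 0 := by
    rw [Fintype.sum_prod_type]
    refine sum_congr rfl (fun r _ => ?_)
    rw [card_filter]
    rfl
  have h2 : ∑ p : (E → β) × β, (if P (sw e p).1 then 1 else 0) =
      ∑ p : (E → β) × β, if P p.1 then 1 else 0 := by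
    exact Equiv.sum_comp (sw_inv (β := β) e).toPerm
      (fun p : (E → β) × β => if P p.1 then 1 else 0)
  rw [h1, h2, Fintype.sum_prod_type, card_filter, sum_mul]
  refine sum_congr rfl (fun r _ => ?_)
  show (∑ _y : β, if P r then 1 else 0) = _
  rw [sum_const, smul_eq_mul, card_univ, mul_comm]

theorem hat_congr {E Q : Type} [Fintype E] [DecidableEq E] [Fintype Q] [DecidableEq Q]
    (r r' : E → Q → ℝ) (X : Finset (E → Q)) (σ : Bx E Q) (S : Finset E)
    (h : ∀ e ∈ S, r e = r' e) : hat r X σ S = hat r' X σ S := by
  unfold hat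
  congr 1
  refine sum_congr rfl (fun z _ => ?_)
  congr 1
  refine prod_congr rfl (fun e he => ?_)
  rw [h e he]

theorem proof_T2 : S_Signs := by
  classical
  intro E Q Γ _ _ _ _ _ X t ht hH hlt
  set sr : (E → Q → Bool) → E → Q → ℝ := fun r e u => sg (r e u) with hsr
  let I := Γ × Bx E Q × E × Finset E
  let bad : I → (E → Q → Bool) → Prop := fun i r =>
    i.2.2.1 ∉ i.2.2.2 ∧
    t * √(∑ u, hat (sr r) (X i.1) (xt i.2.1 i.2.2.1 u) i.2.2.2 ^ 2) <
      |∑ u, sg (r i.2.2.1 u) * hat (sr r) (X i.1) (xt i.2.1 i.2.2.1 u) i.2.2.2|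
  let Bad : I → Finset (E → Q → Bool) := fun i => univ.filter (bad i)
  have hN : (0 : ℝ) < Fintype.card (E → Q → Bool) := by
    exact_mod_cast Fintype.card_pos
  have h2Q : (Fintype.card (Q → Bool) : ℝ) = 2 ^ Fintype.card Q := by
    rw [Fintype.card_fun, Fintype.card_bool]
    push_cast
    rfl
  have hbad : ∀ i, ((Bad i).card : ℝ) ≤
      2 * Real.exp (-(t ^ 2 / 2)) * Fintype.card (E → Q → Bool) := by
    rintro ⟨γ, σ, e, S⟩
    by_cases he : e ∈ S
    · have : Bad (γ, σ, e, S) = ∅ := by
        apply filter_eq_empty_iff.mpr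
        intro r _ hr
        exact hr.1 he
      rw [this]
      simp only [card_empty, Nat.cast_zero]
      positivity
    · have hc := count e (bad (γ, σ, e, S))
      have hle : ∀ r : E → Q → Bool,
          ((univ.filter (fun q => bad (γ, σ, e, S) (Function.update r e q))).card : ℝ) ≤
          2 * Real.exp (-(t ^ 2 / 2)) * 2 ^ Fintype.card Q := by
        intro r
        have hh := hH Q (fun u => hat (sr r) (X γ) (xt σ e u) S) t ht
        refine le_trans ?_ hh
        have : (univ.filter (fun q => bad (γ, σ, e, S) (Function.update r e q))) ⊆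
            (univ.filter (fun q : Q → Bool =>
              t * √(∑ u, (hat (sr r) (X γ) (xt σ e u) S) ^ 2) <
                |∑ u, sg (q u) * hat (sr r) (X γ) (xt σ e u) S|)) := by
          intro q hq
          rw [mem_filter] at hq ⊢
          refine ⟨mem_univ _, ?_⟩
          have h2 := hq.2.2
          have hcg : ∀ u, hat (sr (Function.update r e q)) (X γ) (xt σ e u) S =
              hat (sr r) (X γ) (xt σ e u) S := by
            intro u
            apply hat_congr
            intro e' he'
            have hne : e' ≠ e := fun h => he (h ▸ he')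
            funext u'
            simp only [hsr]
            rw [Function.update_of_ne hne]
          simp only [hcg, Function.update_self] at h2
          exact h2
        exact_mod_cast card_le_card this
      have hs : ((Bad (γ, σ, e, S)).card : ℝ) * 2 ^ Fintype.card Q ≤
          Fintype.card (E → Q → Bool) * (2 * Real.exp (-(t ^ 2 / 2)) * 2 ^ Fintype.card Q) := by
        have e1 : ((Bad (γ, σ, e, S)).card : ℝ) * 2 ^ Fintype.card Q =
            ∑ r : E → Q → Bool,
              ((univ.filter (fun q => bad (γ, σ, e, S) (Function.update r e q))).card : ℝ) := by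
          rw [← h2Q]
          exact_mod_cast hc.symm
        rw [e1]
        calc _ ≤ ∑ _r : E → Q → Bool, (2 * Real.exp (-(t ^ 2 / 2)) * 2 ^ Fintype.card Q) :=
              sum_le_sum (fun r _ => hle r)
          _ = _ := by rw [sum_const, card_univ, nsmul_eq_mul]
      have hp : (0 : ℝ) < 2 ^ Fintype.card Q := by positivity
      have : ((Bad (γ, σ, e, S)).card : ℝ) * 2 ^ Fintype.card Q ≤
          (2 * Real.exp (-(t ^ 2 / 2)) * Fintype.card (E → Q → Bool)) * 2 ^ Fintype.card Q := by
        calc _ ≤ _ := hs
          _ = _ := by ring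
      exact le_of_mul_le_mul_right this hp
  have hI : (Fintype.card I : ℝ) = (Fintype.card Γ : ℝ) * (2 ^ Fintype.card E *
      (Fintype.card Q : ℝ) ^ Fintype.card E) * Fintype.card E * 2 ^ Fintype.card E := by
    have : Fintype.card I = Fintype.card Γ * ((2 ^ Fintype.card E *
      (Fintype.card Q) ^ Fintype.card E) * (Fintype.card E * 2 ^ Fintype.card E)) := by
      simp only [I, Bx, Fintype.card_prod, Fintype.card_finset, Fintype.card_fun]
    rw [this]
    push_cast
    ring
  have hun : ((univ.biUnion Bad).card : ℝ) < Fintype.card (E → Q → Bool) := by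
    calc ((univ.biUnion Bad).card : ℝ) ≤ ∑ i, ((Bad i).card : ℝ) := by
          exact_mod_cast card_biUnion_le
      _ ≤ ∑ _i : I, 2 * Real.exp (-(t ^ 2 / 2)) * Fintype.card (E → Q → Bool) :=
          sum_le_sum (fun i _ => hbad i)
      _ = ((Fintype.card I : ℝ) * (2 * Real.exp (-(t ^ 2 / 2)))) *
          Fintype.card (E → Q → Bool) := by
          rw [sum_const, card_univ, nsmul_eq_mul]
          ring
      _ < 1 * Fintype.card (E → Q → Bool) := by
          apply mul_lt_mul_of_pos_right _ hN
          rw [hI]
          exact hlt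
      _ = _ := one_mul _
  have : ∃ r : E → Q → Bool, r ∉ univ.biUnion Bad := by
    by_contra hcon
    push Not at hcon
    have : univ.biUnion Bad = univ := eq_univ_iff_forall.mpr hcon
    rw [this, card_univ] at hun
    exact lt_irrefl _ hun
  obtain ⟨r, hr⟩ := this
  refine ⟨r, ?_⟩
  intro γ σ e S _ he
  by_contra hcon
  push Not at hcon
  apply hr
  rw [mem_biUnion]
  refine ⟨(γ, σ, e, S), mem_univ _, ?_⟩
  rw [mem_filter]
  exact ⟨mem_univ _, he, hcon⟩

end Pool.Agent.Helper600R2.HT.T2
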