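import Pool.Agent.Helper600R2.HT.Stm

/-!
# T3: good signs make a set pseudorandom
-/

set_option autoImplicit false

namespace Pool.Agent.Helper600R2.HT.T3

open Finset

variable {E Q : Type} [Fintype E] [DecidableEq E] [Fintype Q] [DecidableEq Q]

theorem mg_xt (σ : Bx E Q) (e : E) (u : Q) (z : E → Q) (he : e ∉ σ.1) :
    mg (xt σ e u) z = mg σ (Function.update z e u) := by
  funext x
  unfold mg xt
  simp only
  by_cases hx : x = e
  · subst hx
    rw [if_pos (Finset.mem_insert_self _ _), if_neg he, Function.update_self, Function.update_self]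
  · rw [Function.update_of_ne hx, Function.update_of_ne hx]
    by_cases hs : x ∈ σ.1
    · rw [if_pos (Finset.mem_insert_of_mem hs), if_pos hs]
    · rw [if_neg hs, if_neg]
      rw [Finset.mem_insert]
      tauto

theorem sum_update (e : E) (F : (E → Q) → ℝ) :
    ∑ u : Q, ∑ z : E → Q, F (Function.update z e u) = (Fintype.card Q : ℝ) * ∑ z, F z := by
  rw [← Finset.sum_product']
  have h1 : ∑ x ∈ (univ : Finset Q) ×ˢ (univ : Finset (E → Q)), F (Function.update x.2 e x.1) =
      ∑ y ∈ (univ : Finset (E → Q)) ×ˢ (univ : Finset Q), F y.1 := by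
    refine Finset.sum_nbij' (fun x => (Function.update x.2 e x.1, x.2 e))
      (fun y => (y.1 e, Function.update y.1 e y.2)) ?_ ?_ ?_ ?_ ?_
    · intro x _
      simp
    · intro y _
      simp
    · intro x _
      simp
    · intro y _
      simp
    · intro x _
      rfl
  rw [h1, Finset.sum_product]
  simp only [Finset.sum_const, Finset.card_univ, nsmul_eq_mul]
  rw [Finset.mul_sum]

theorem hat_insert (r : E → Q → ℝ) (X : Finset (E → Q)) (σ : Bx E Q) (e : E) (S : Finset E)
    (he : e ∉ σ.1) (heS : e ∉ S) :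
    ∑ u, r e u * hat r X (xt σ e u) S = (Fintype.card Q : ℝ) * hat r X σ (insert e S) := by
  have h1 := sum_update e (fun z => ind X (mg σ z) * ∏ x ∈ insert e S, r x (z x))
  unfold hat
  rw [← mul_div_assoc, ← h1, Finset.sum_div]
  refine Finset.sum_congr rfl fun u _ => ?_
  rw [← mul_div_assoc, Finset.mul_sum]
  congr 1
  refine Finset.sum_congr rfl fun z _ => ?_
  rw [mg_xt σ e u z he, Finset.prod_insert heS, Function.update_self]
  have h2 : ∏ x ∈ S, r x (Function.update z e u x) = ∏ x ∈ S, r x (z x) := by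
    refine Finset.prod_congr rfl fun x hx => ?_
    have : x ≠ e := fun h => heS (h ▸ hx)
    rw [Function.update_of_ne this]
  rw [h2]
  ring

theorem mean_xt (X : Finset (E → Q)) (σ : Bx E Q) (e : E) (he : e ∉ σ.1) :
    ∑ u, mean X (xt σ e u) = (Fintype.card Q : ℝ) * mean X σ := by
  have h1 := sum_update e (fun z => ind X (mg σ z))
  unfold mean
  rw [← mul_div_assoc, ← h1, Finset.sum_div]
  refine Finset.sum_congr rfl fun u _ => ?_
  congr 1
  refine Finset.sum_congr rfl fun z _ => ?_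
  rw [mg_xt σ e u z he]

theorem mean_nonneg (X : Finset (E → Q)) (σ : Bx E Q) : 0 ≤ mean X σ := by
  unfold mean
  refine div_nonneg (Finset.sum_nonneg fun z _ => ?_) (by positivity)
  unfold ind
  split_ifs <;> norm_num

theorem Lt_self {B : ℝ} {X : Finset (E → Q)} {σ : Bx E Q} {w : ℝ} (h : Lt B X σ w) :
    mean X σ ≤ w * B ^ σ.1.card := h σ ⟨Finset.Subset.refl _, fun _ _ => rfl⟩

theorem Lt_xt {B : ℝ} {X : Finset (E → Q)} {σ : Bx E Q} {w : ℝ} (h : Lt B X σ w) (e : E)
    (he : e ∉ σ.1) (u : Q) : Lt B X (xt σ e u) w := by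
  intro ρ hρ
  refine h ρ ⟨(Finset.subset_insert _ _).trans hρ.1, fun x hx => ?_⟩
  have h1 := hρ.2 x (Finset.mem_insert_of_mem hx)
  have h2 : x ≠ e := fun h => he (h ▸ hx)
  rw [h1]
  show Function.update σ.2 e u x = σ.2 x
  rw [Function.update_of_ne h2]

theorem key [Nonempty Q] (r : E → Q → ℝ) (X : Finset (E → Q)) (t B : ℝ) (ht : 0 ≤ t)
    (hr : ∀ (σ : Bx E Q) (e : E) (S : Finset E), e ∉ σ.1 → e ∉ S →
      |∑ u, r e u * hat r X (xt σ e u) S| ≤ t * √(∑ u, hat r X (xt σ e u) S ^ 2))
    (S : Finset E) : ∀ (σ : Bx E Q) (w : ℝ), Disjoint S σ.1 → Lt B X σ w →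
      hat r X σ S ^ 2 ≤ (t ^ 2 / Fintype.card Q) ^ S.card *
        (mean X σ * (w * B ^ (σ.1.card + S.card))) := by
  have hq : (0 : ℝ) < Fintype.card Q := by exact_mod_cast Fintype.card_pos
  induction S using Finset.induction_on with
  | empty =>
    intro σ w _ hL
    have h1 : hat r X σ ∅ = mean X σ := by
      unfold hat mean
      simp
    rw [h1, Finset.card_empty, pow_zero, one_mul, add_zero, sq]
    exact mul_le_mul_of_nonneg_left (Lt_self hL) (mean_nonneg X σ)
  | insert e S heS ih =>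
    intro σ w hd hL
    rw [Finset.disjoint_insert_left] at hd
    obtain ⟨he, hdS⟩ := hd
    have h1 := hr σ e S he heS
    rw [hat_insert r X σ e S he heS] at h1
    have h2 : ((Fintype.card Q : ℝ) * hat r X σ (insert e S)) ^ 2 ≤
        t ^ 2 * ∑ u, hat r X (xt σ e u) S ^ 2 := by
      rw [← sq_abs]
      refine (pow_le_pow_left₀ (abs_nonneg _) h1 2).trans (le_of_eq ?_)
      rw [mul_pow, Real.sq_sqrt (Finset.sum_nonneg fun u _ => sq_nonneg _)]
    have h3 : ∑ u, hat r X (xt σ e u) S ^ 2 ≤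
        ∑ u, (t ^ 2 / Fintype.card Q) ^ S.card *
          (mean X (xt σ e u) * (w * B ^ (σ.1.card + (insert e S).card))) := by
      refine Finset.sum_le_sum fun u _ => ?_
      have hd' : Disjoint S (xt σ e u).1 := by
        show Disjoint S (insert e σ.1)
        rw [Finset.disjoint_insert_right]
        exact ⟨heS, hdS⟩
      have h4 := ih (xt σ e u) w hd' (Lt_xt hL e he u)
      have h5 : (xt σ e u).1.card + S.card = σ.1.card + (insert e S).card := by
        show (insert e σ.1).card + S.card = _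
        rw [Finset.card_insert_of_notMem he, Finset.card_insert_of_notMem heS]
        omega
      rwa [h5] at h4
    rw [← Finset.mul_sum, ← Finset.sum_mul, mean_xt X σ e he] at h3
    have h6 : ((Fintype.card Q : ℝ) * hat r X σ (insert e S)) ^ 2 ≤
        t ^ 2 * ((t ^ 2 / Fintype.card Q) ^ S.card *
          (Fintype.card Q * mean X σ * (w * B ^ (σ.1.card + (insert e S).card)))) :=
      h2.trans (mul_le_mul_of_nonneg_left h3 (sq_nonneg _))
    rw [mul_pow] at h6
    have h7 : t ^ 2 * ((t ^ 2 / Fintype.card Q) ^ S.card *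
          (Fintype.card Q * mean X σ * (w * B ^ (σ.1.card + (insert e S).card)))) =
        (Fintype.card Q : ℝ) ^ 2 * ((t ^ 2 / Fintype.card Q) ^ (insert e S).card *
        (mean X σ * (w * B ^ (σ.1.card + (insert e S).card)))) := by
      have h8 : (Fintype.card Q : ℝ) * (t ^ 2 / Fintype.card Q) = t ^ 2 := by field_simp
      have h9 : (t ^ 2 / (Fintype.card Q : ℝ)) ^ (insert e S).card =
          (t ^ 2 / (Fintype.card Q : ℝ)) ^ S.card * (t ^ 2 / (Fintype.card Q : ℝ)) := by
        rw [Finset.card_insert_of_notMem heS, pow_succ]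
      rw [h9]
      linear_combination (-((t ^ 2 / (Fintype.card Q : ℝ)) ^ S.card *
        (Fintype.card Q * mean X σ * (w * B ^ (σ.1.card + (insert e S).card))))) * h8
    rw [h7] at h6
    exact le_of_mul_le_mul_left h6 (by positivity)

theorem proof_T3 : S_PR := by
  intro E Q _ _ _ _ _ r X t B ht hB hq hr σ S w hd hL
  have hqp : (0 : ℝ) < Fintype.card Q := by exact_mod_cast Fintype.card_pos
  have hBp : 0 < B := by linarith
  have h1 := key r X t B ht hr S σ w hd hL
  have hm0 := mean_nonneg X σ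
  have hm1 := Lt_self hL
  have hW : 0 ≤ w * B ^ σ.1.card := hm0.trans hm1
  have h2 : mean X σ * (w * B ^ (σ.1.card + S.card)) ≤ (w * B ^ σ.1.card) ^ 2 * B ^ S.card := by
    have h3 : w * B ^ (σ.1.card + S.card) = (w * B ^ σ.1.card) * B ^ S.card := by
      rw [pow_add]; ring
    rw [h3]
    have h4 : 0 ≤ (w * B ^ σ.1.card) * B ^ S.card := mul_nonneg hW (by positivity)
    calc _ ≤ (w * B ^ σ.1.card) * ((w * B ^ σ.1.card) * B ^ S.card) :=
          mul_le_mul_of_nonneg_right hm1 h4
      _ = _ := by ring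
  have h5 : t ^ 2 / Fintype.card Q * B ≤ (1 / B) ^ 2 := by
    rw [div_mul_eq_mul_div, one_div, inv_pow, div_le_iff₀ hqp, ← div_eq_inv_mul,
      le_div_iff₀ (by positivity)]
    calc t ^ 2 * B * B ^ 2 = t ^ 2 * B ^ 3 := by ring
      _ ≤ _ := hq
  have h6 : hat r X σ S ^ 2 ≤ (w * B ^ σ.1.card * (1 / B) ^ S.card) ^ 2 := by
    calc hat r X σ S ^ 2 ≤ (t ^ 2 / Fintype.card Q) ^ S.card *
          ((w * B ^ σ.1.card) ^ 2 * B ^ S.card) :=
          h1.trans (mul_le_mul_of_nonneg_left h2 (by positivity))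
      _ = (w * B ^ σ.1.card) ^ 2 * (t ^ 2 / Fintype.card Q * B) ^ S.card := by
          rw [mul_pow (t ^ 2 / (Fintype.card Q : ℝ)) B]; ring
      _ ≤ (w * B ^ σ.1.card) ^ 2 * ((1 / B) ^ 2) ^ S.card :=
          mul_le_mul_of_nonneg_left (pow_le_pow_left₀ (by positivity) h5 _) (sq_nonneg _)
      _ = _ := by
          rw [← pow_mul, mul_comm 2 S.card, pow_mul, ← mul_pow]
  exact abs_le_of_sq_le_sq h6 (mul_nonneg hW (by positivity))

end Pool.Agent.Helper600R2.HT.T3
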