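import Pool.Agent.Helper600R2.HT.Stm

namespace Pool.Agent.Helper600R2.HT.T4

open Finset

section

variable {E Q : Type} [Fintype E] [DecidableEq E] [Fintype Q] [DecidableEq Q]

theorem ind_mem {X : Finset (E → Q)} {z : E → Q} (h : z ∈ X) : ind X z = 1 := if_pos h

theorem ind_not_mem {X : Finset (E → Q)} {z : E → Q} (h : z ∉ X) : ind X z = 0 := if_neg h

theorem ind_nonneg (X : Finset (E → Q)) (z : E → Q) : 0 ≤ ind X z := by
  by_cases h : z ∈ X
  · rw [ind_mem h]; exact zero_le_one
  · rw [ind_not_mem h]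

theorem ind_mono {X Y : Finset (E → Q)} (h : X ⊆ Y) (z : E → Q) : ind X z ≤ ind Y z := by
  by_cases hz : z ∈ X
  · rw [ind_mem hz, ind_mem (h hz)]
  · rw [ind_not_mem hz]; exact ind_nonneg Y z

theorem mean_nonneg (X : Finset (E → Q)) (σ : Bx E Q) : 0 ≤ mean X σ :=
  div_nonneg (sum_nonneg fun z _ => ind_nonneg X _) (by positivity)

theorem mean_mono {X Y : Finset (E → Q)} (h : X ⊆ Y) (σ : Bx E Q) : mean X σ ≤ mean Y σ := by
  unfold mean
  exact div_le_div_of_nonneg_right (sum_le_sum fun z _ => ind_mono h _) (by positivity)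

theorem mg_InB (σ : Bx E Q) (z : E → Q) : InB σ (mg σ z) := by
  intro e he
  unfold mg
  rw [if_pos he]

open Classical in
theorem mean_filter (Y : Finset (E → Q)) (ρ : Bx E Q) :
    mean (Y.filter (fun z => InB ρ z)) ρ = mean Y ρ := by
  unfold mean
  congr 1
  refine sum_congr rfl fun z _ => ?_
  by_cases h : mg ρ z ∈ Y
  · rw [ind_mem h, ind_mem (mem_filter.2 ⟨h, mg_InB ρ z⟩)]
  · rw [ind_not_mem h, ind_not_mem (fun h' => h (mem_filter.1 h').1)]

theorem Sub_trans {σ ρ ρ' : Bx E Q} (h : Sub σ ρ) (h' : Sub ρ ρ') : Sub σ ρ' :=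
  ⟨h.1.trans h'.1, fun e he => (h'.2 e (h.1 he)).trans (h.2 e he)⟩

variable {B : ℝ} {σ : Bx E Q} {θ : ℝ} {X : Finset (E → Q)}

theorem pick_some {Y : Finset (E → Q)} {ρ : Bx E Q} (h : pick B σ θ Y = some ρ) :
    Sub σ ρ ∧ θ * B ^ ρ.1.card < mean Y ρ ∧
      ∀ ρ', Sub σ ρ' → mean Y ρ' * B ^ ρ.1.card ≤ mean Y ρ * B ^ ρ'.1.card := by
  unfold pick at h
  split_ifs at h with h'
  · have h1 := h'.choose_spec
    rw [Option.some.injEq] at h
    rw [h] at h1
    exact h1

theorem pick_none (hB : 1 ≤ B) {Y : Finset (E → Q)} (h : pick B σ θ Y = none) : Lt B Y σ θ := by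
  classical
  by_contra hcon
  unfold Lt at hcon
  push Not at hcon
  obtain ⟨ρ0, h0, h1⟩ := hcon
  have hB0 : ∀ n : ℕ, 0 < B ^ n := fun n => pow_pos (by linarith) n
  obtain ⟨ρ, hρ, hmax⟩ := exists_max_image (univ.filter (fun ρ : Bx E Q => Sub σ ρ))
    (fun ρ => mean Y ρ / B ^ ρ.1.card) ⟨ρ0, mem_filter.2 ⟨mem_univ _, h0⟩⟩
  have h2 := hmax ρ0 (mem_filter.2 ⟨mem_univ _, h0⟩)
  have h3 : θ < mean Y ρ0 / B ^ ρ0.1.card := by rwa [lt_div_iff₀ (hB0 _)]
  have h4 : θ < mean Y ρ / B ^ ρ.1.card := lt_of_lt_of_le h3 h2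
  rw [lt_div_iff₀ (hB0 _)] at h4
  have hex : ∃ ρ, Sub σ ρ ∧ θ * B ^ ρ.1.card < mean Y ρ ∧
      ∀ ρ', Sub σ ρ' → mean Y ρ' * B ^ ρ.1.card ≤ mean Y ρ * B ^ ρ'.1.card := by
    refine ⟨ρ, (mem_filter.1 hρ).2, h4, fun ρ' hρ' => ?_⟩
    have h5 := hmax ρ' (mem_filter.2 ⟨mem_univ _, hρ'⟩)
    rwa [div_le_div_iff₀ (hB0 _) (hB0 _)] at h5
  unfold pick at h
  rw [dif_pos hex] at h
  exact absurd h (by simp)

theorem rest_some {j : ℕ} {ρ : Bx E Q} (h : pick B σ θ (rest B σ θ X j) = some ρ) :
    rest B σ θ X (j + 1) = (open Classical in (rest B σ θ X j).filter (fun z => ¬ InB ρ z)) := by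
  rw [rest]
  rw [h]

theorem rest_none {j : ℕ} (h : pick B σ θ (rest B σ θ X j) = none) :
    rest B σ θ X (j + 1) = rest B σ θ X j := by
  rw [rest]
  rw [h]

theorem part_some {j : ℕ} {ρ : Bx E Q} (h : pick B σ θ (rest B σ θ X j) = some ρ) :
    part B σ θ X j = (open Classical in (rest B σ θ X j).filter (fun z => InB ρ z)) := by
  unfold part
  rw [h]

theorem part_none {j : ℕ} (h : pick B σ θ (rest B σ θ X j) = none) :
    part B σ θ X j = ∅ := by
  unfold part
  rw [h]

theorem split_one (j : ℕ) (z : E → Q) :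
    ind (rest B σ θ X j) z = ind (part B σ θ X j) z + ind (rest B σ θ X (j + 1)) z := by
  classical
  rcases h : pick B σ θ (rest B σ θ X j) with _ | ρ
  · rw [part_none h, rest_none h, ind_not_mem (notMem_empty z), zero_add]
  · rw [part_some h, rest_some h]
    by_cases hz : z ∈ rest B σ θ X j
    · by_cases hb : InB ρ z
      · have a1 : z ∈ (rest B σ θ X j).filter (fun z => InB ρ z) := mem_filter.2 ⟨hz, hb⟩
        have a2 : z ∉ (rest B σ θ X j).filter (fun z => ¬ InB ρ z) :=
          fun h' => (mem_filter.1 h').2 hb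
        rw [ind_mem hz, ind_mem a1, ind_not_mem a2, add_zero]
      · have a1 : z ∉ (rest B σ θ X j).filter (fun z => InB ρ z) :=
          fun h' => hb (mem_filter.1 h').2
        have a2 : z ∈ (rest B σ θ X j).filter (fun z => ¬ InB ρ z) := mem_filter.2 ⟨hz, hb⟩
        rw [ind_mem hz, ind_not_mem a1, ind_mem a2, zero_add]
    · have a1 : z ∉ (rest B σ θ X j).filter (fun z => InB ρ z) :=
        fun h' => hz (mem_filter.1 h').1
      have a2 : z ∉ (rest B σ θ X j).filter (fun z => ¬ InB ρ z) :=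
        fun h' => hz (mem_filter.1 h').1
      rw [ind_not_mem hz, ind_not_mem a1, ind_not_mem a2, zero_add]

theorem split_all (n : ℕ) (z : E → Q) :
    ind (rest B σ θ X 0) z = ∑ j ∈ range n, ind (part B σ θ X j) z + ind (rest B σ θ X n) z := by
  induction n with
  | zero => simp
  | succ n ih => rw [ih, sum_range_succ, split_one n z, add_assoc]

theorem exists_mem_of_mean_pos {Y : Finset (E → Q)} {ρ : Bx E Q} (h : 0 < mean Y ρ) :
    ∃ z, z ∈ Y ∧ InB ρ z := by
  by_contra hcon
  push Not at hcon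
  have h1 : ∑ z, ind Y (mg ρ z) = 0 :=
    sum_eq_zero fun z _ => ind_not_mem fun hz => hcon _ hz (mg_InB ρ z)
  unfold mean at h
  rw [h1, zero_div] at h
  exact lt_irrefl _ h

theorem dich (hB : 1 ≤ B) (hθ : 0 ≤ θ) (n : ℕ) : pick B σ θ (rest B σ θ X n) = none ∨
    (rest B σ θ X n).card + n ≤ (rest B σ θ X 0).card := by
  classical
  induction n with
  | zero => right; simp
  | succ n ih =>
    rcases ih with h | h
    · left
      rw [rest_none h]
      exact h
    · rcases hp : pick B σ θ (rest B σ θ X n) with _ | ρ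
      · left
        rw [rest_none hp]
        exact hp
      · right
        obtain ⟨-, h2, -⟩ := pick_some hp
        have h3 : 0 < mean (rest B σ θ X n) ρ :=
          lt_of_le_of_lt (mul_nonneg hθ (pow_nonneg (by linarith) _)) h2
        obtain ⟨z, hz, hzb⟩ := exists_mem_of_mean_pos h3
        rw [rest_some hp]
        have h4 : ((rest B σ θ X n).filter (fun z => ¬ InB ρ z)).card < (rest B σ θ X n).card := by
          refine card_lt_card ((filter_subset _ _).ssubset_of_not_subset fun hs => ?_)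
          exact (mem_filter.1 (hs hz)).2 hzb
        omega

theorem lt_rest (hB : 1 ≤ B) (hθ : 0 ≤ θ) : Lt B (rest B σ θ X (stp E Q)) σ θ := by
  rcases dich (B := B) (σ := σ) (θ := θ) (X := X) hB hθ (stp E Q) with h | h
  · exact pick_none hB h
  · have h1 : (rest B σ θ X 0).card ≤ stp E Q := by
      unfold stp
      exact card_le_univ _
    have h2 : (rest B σ θ X (stp E Q)).card = 0 := by omega
    rw [card_eq_zero] at h2
    intro ρ _
    rw [h2]
    have h3 : mean (∅ : Finset (E → Q)) ρ = 0 := by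
      unfold mean
      rw [sum_eq_zero fun z _ => ind_not_mem (notMem_empty _), zero_div]
    rw [h3]
    exact mul_nonneg hθ (pow_nonneg (by linarith) _)

end

theorem proof_T4 : S_Decomp := by
  intro E Q _ _ _ _ _ B σ θ X hB hθ
  classical
  refine ⟨fun z => ?_, lt_rest hB hθ, fun j hj => ?_⟩
  · rw [← split_all]
    by_cases hz : InB σ z
    · rw [if_pos hz]
      by_cases hx : z ∈ X
      · rw [ind_mem hx, ind_mem]
        exact mem_filter.2 ⟨hx, hz⟩
      · rw [ind_not_mem hx, ind_not_mem]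
        exact fun h => hx (mem_filter.1 h).1
    · rw [if_neg hz, ind_not_mem]
      exact fun h => hz (mem_filter.1 h).2
  · rcases hp : pick B σ θ (rest B σ θ X j) with _ | ρ
    · rw [part_none hp] at hj
      exact absurd hj not_nonempty_empty
    · obtain ⟨h1, h2, h3⟩ := pick_some hp
      have hB0 : ∀ n : ℕ, 0 < B ^ n := fun n => pow_pos (by linarith) n
      have h4 : mean (part B σ θ X j) ρ = mean (rest B σ θ X j) ρ := by
        rw [part_some hp]
        exact mean_filter _ _
      have h5 : part B σ θ X j ⊆ rest B σ θ X j := by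
        rw [part_some hp]
        exact filter_subset _ _
      refine ⟨ρ, h1, ?_, ?_, ?_⟩
      · intro z hz
        rw [part_some hp] at hz
        exact (mem_filter.1 hz).2
      · rw [h4]; exact h2
      · intro ρ' hρ'
        have h6 := h3 ρ' (Sub_trans h1 hρ')
        rw [h4]
        calc mean (part B σ θ X j) ρ' ≤ mean (rest B σ θ X j) ρ' := mean_mono h5 ρ'
          _ ≤ mean (rest B σ θ X j) ρ * B ^ ρ'.1.card / B ^ ρ.1.card := by
              rw [le_div_iff₀ (hB0 _)]
              exact h6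
          _ = _ := by ring

end Pool.Agent.Helper600R2.HT.T4
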