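import Pool.Agent.Helper600R2.HT.Stm

/-! Task T5 of project HT (helper15): the coefficient sums over the small sets. -/

namespace Pool.Agent.Helper600R2.HT.T5

open Finset

section

variable {V E Q : Type} [Fintype V] [DecidableEq V] [Fintype E] [DecidableEq E]
  [Fintype Q] [DecidableEq Q]

theorem prod_symm {α : Type} [DecidableEq α] (f : α → ℝ) (hf : ∀ x, f x = 1 ∨ f x = -1)
    (A B : Finset α) : ∏ x ∈ symmDiff A B, f x = (∏ x ∈ A, f x) * ∏ x ∈ B, f x := by
  have h1 : ∏ x ∈ A, f x = (∏ x ∈ A ∩ B, f x) * ∏ x ∈ A \ B, f x :=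
    (Finset.prod_inter_mul_prod_sdiff A B f).symm
  have h2 : ∏ x ∈ B, f x = (∏ x ∈ A ∩ B, f x) * ∏ x ∈ B \ A, f x := by
    rw [Finset.inter_comm]
    exact (Finset.prod_inter_mul_prod_sdiff B A f).symm
  have h3 : (∏ x ∈ A ∩ B, f x) * (∏ x ∈ A ∩ B, f x) = 1 := by
    rw [← Finset.prod_mul_distrib]
    apply Finset.prod_eq_one
    intro x _
    rcases hf x with h | h <;> rw [h] <;> norm_num
  have h4 : symmDiff A B = (A \ B) ∪ (B \ A) := rfl
  have h5 : Disjoint (A \ B) (B \ A) := disjoint_sdiff_sdiff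
  rw [h4, Finset.prod_union h5, h1, h2]
  calc (∏ x ∈ A \ B, f x) * ∏ x ∈ B \ A, f x
      = ((∏ x ∈ A ∩ B, f x) * (∏ x ∈ A ∩ B, f x)) *
        ((∏ x ∈ A \ B, f x) * ∏ x ∈ B \ A, f x) := by rw [h3, one_mul]
    _ = _ := by ring

theorem bdr_symm (G : Sys V E Q) (U W : Finset V) :
    G.bdr (symmDiff U W) = symmDiff (G.bdr U) (G.bdr W) := by
  ext e
  simp only [Sys.bdr, Finset.mem_symmDiff, Finset.mem_filter, Finset.mem_univ, true_and]
  tauto

/-- the summand -/
noncomputable def term (G : Sys V E Q) (σ : Bx E Q) (U : Finset V) : ℝ :=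
  (∏ v ∈ U, G.c v) * ∏ e ∈ G.bdr U ∩ σ.1, G.r e (σ.2 e)

theorem term_symm (G : Sys V E Q) (hG : G.Ok) (σ : Bx E Q) (U W : Finset V) :
    term G σ (symmDiff U W) = term G σ U * term G σ W := by
  unfold term
  have h1 : G.bdr (symmDiff U W) ∩ σ.1 = symmDiff (G.bdr U ∩ σ.1) (G.bdr W ∩ σ.1) := by
    rw [bdr_symm]
    ext e
    simp only [Finset.mem_symmDiff, Finset.mem_inter]
    tauto
  rw [h1, prod_symm G.c hG.sc, prod_symm (fun e => G.r e (σ.2 e)) (fun e => hG.sr e _)]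
  ring

theorem term_sq (G : Sys V E Q) (hG : G.Ok) (σ : Bx E Q) (U : Finset V) :
    term G σ U * term G σ U = 1 := by
  rw [← term_symm G hG, symmDiff_self]
  simp [term, Sys.bdr]

theorem closed (G : Sys V E Q) (hG : G.Ok) {U W : Finset V} (hU : U ∈ G.SS) (hW : W ∈ G.SS)
    (hc : (G.bdr (symmDiff U W)).card ≤ G.D0) : symmDiff U W ∈ G.SS := by
  unfold Sys.SS at *
  rw [Finset.mem_filter] at *
  refine ⟨Finset.mem_univ _, ?_, hc⟩
  have h1 : (symmDiff U W).card ≤ U.card + W.card := by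
    refine (Finset.card_le_card ?_).trans (Finset.card_union_le U W)
    intro x hx
    rw [Finset.mem_symmDiff] at hx
    rw [Finset.mem_union]
    tauto
  have h2 := hU.2.1
  have h3 := hW.2.1
  by_contra hcon
  have := hG.mid (symmDiff U W) (by omega) (by omega)
  omega

theorem cls (G : Sys V E Q) (U W : Finset V) (I S : Finset E) (hU : G.bdr U \ I = S)
    (hW : G.bdr W \ I = ∅) : G.bdr (symmDiff U W) \ I = S := by
  rw [bdr_symm, ← hU]
  ext e
  have h : ¬ (e ∈ G.bdr W \ I) := by rw [hW]; exact Finset.notMem_empty e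
  simp only [Finset.mem_sdiff, Finset.mem_symmDiff] at h ⊢
  tauto

theorem cls2 (G : Sys V E Q) (U W : Finset V) (I S : Finset E) (hU : G.bdr U \ I = S)
    (hW : G.bdr W \ I = S) : G.bdr (symmDiff U W) \ I = ∅ := by
  rw [bdr_symm]
  ext e
  have h : (e ∈ G.bdr W \ I) ↔ (e ∈ G.bdr U \ I) := by rw [hW, hU]
  simp only [Finset.mem_sdiff, Finset.mem_symmDiff, Finset.notMem_empty, iff_false] at h ⊢
  tauto

theorem card_of (I S B : Finset E) (h : B \ I = S) : B.card ≤ I.card + S.card := by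
  have h1 : B ⊆ I ∪ S := by
    intro e he
    by_cases h2 : e ∈ I
    · exact Finset.mem_union_left _ h2
    · exact Finset.mem_union_right _ (h ▸ Finset.mem_sdiff.mpr ⟨he, h2⟩)
  exact (Finset.card_le_card h1).trans (Finset.card_union_le _ _)

theorem AA_eq (G : Sys V E Q) (hG : G.Ok) (σ : Bx E Q) (S : Finset E)
    (hS : σ.1.card + S.card ≤ G.D0) {U0 : Finset V} (hU0 : U0 ∈ G.SS)
    (hU0' : G.bdr U0 \ σ.1 = S) : G.AA G.SS σ S = term G σ U0 * G.AA G.SS σ ∅ := by
  unfold Sys.AA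
  rw [Finset.mul_sum]
  have hinv : ∀ U : Finset V, symmDiff U0 (symmDiff U0 U) = U := fun U => by
    rw [← symmDiff_assoc, symmDiff_self, bot_symmDiff]
  refine Finset.sum_nbij' (fun U => symmDiff U0 U) (fun U => symmDiff U0 U) ?_ ?_ ?_ ?_ ?_
  · intro U hU
    rw [Finset.mem_filter] at hU ⊢
    have h1 := cls2 G U0 U σ.1 S hU0' hU.2
    refine ⟨closed G hG hU0 hU.1 ?_, h1⟩
    have := card_of _ _ _ h1
    rw [Finset.card_empty] at this
    omega
  · intro U hU
    rw [Finset.mem_filter] at hU ⊢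
    have h1 := cls G U0 U σ.1 S hU0' hU.2
    refine ⟨closed G hG hU0 hU.1 ?_, h1⟩
    have := card_of _ _ _ h1
    omega
  · intro U _; exact hinv U
  · intro U _; exact hinv U
  · intro U _
    show term G σ U = term G σ U0 * term G σ (symmDiff U0 U)
    rw [← term_symm G hG, hinv]

end

theorem proof_T5 : S_AA := by
  intro V E Q _ _ _ _ _ _ G hG σ hσ
  have hVpos : 0 < Fintype.card V := by
    rw [Fintype.card_pos_iff]
    by_contra hV
    rw [not_nonempty_iff] at hV
    have := hG.tot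
    rw [Finset.univ_eq_empty, Finset.prod_empty] at this
    norm_num at this
  have hempty : (∅ : Finset V) ∈ G.SS ∧ G.bdr (∅ : Finset V) \ σ.1 = ∅ := by
    have hb : G.bdr (∅ : Finset V) = ∅ := by simp [Sys.bdr]
    refine ⟨?_, by rw [hb, Finset.empty_sdiff]⟩
    rw [Sys.SS, Finset.mem_filter]
    exact ⟨Finset.mem_univ _, by simpa using hVpos, by rw [hb]; simp⟩
  have hgood : G.Good σ → 1 ≤ G.AA G.SS σ ∅ := by
    intro hg
    unfold Sys.AA
    have h1 : ∀ U ∈ G.SS.filter (fun U => G.bdr U \ σ.1 = ∅),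
        (∏ v ∈ U, G.c v) * ∏ e ∈ G.bdr U ∩ σ.1, G.r e (σ.2 e) = 1 := by
      intro U hU
      rw [Finset.mem_filter] at hU
      have h2 : G.bdr U ⊆ σ.1 := Finset.sdiff_eq_empty_iff_subset.mp hU.2
      rw [Finset.inter_eq_left.mpr h2]
      exact hg U hU.1 h2
    rw [Finset.sum_congr rfl h1, Finset.sum_const, nsmul_eq_mul, mul_one]
    have h3 : 0 < (G.SS.filter (fun U => G.bdr U \ σ.1 = ∅)).card :=
      Finset.card_pos.mpr ⟨∅, Finset.mem_filter.mpr hempty⟩
    exact_mod_cast h3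
  have hbad : ¬ G.Good σ → G.AA G.SS σ ∅ = 0 := by
    intro hg
    unfold Sys.Good at hg
    push Not at hg
    obtain ⟨U0, h1, h2, h3⟩ := hg
    have h4 : G.bdr U0 \ σ.1 = ∅ := Finset.sdiff_eq_empty_iff_subset.mpr h2
    have h5 := AA_eq G hG σ ∅ (by simpa using hσ) h1 h4
    have h6 : term G σ U0 ≠ 1 := by
      unfold term
      rw [Finset.inter_eq_left.mpr h2]
      exact h3
    have h7 := term_sq G hG σ U0
    have h8 : term G σ U0 = -1 := by
      rcases mul_self_eq_one_iff.mp h7 with h | h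
      · exact absurd h h6
      · exact h
    rw [h8] at h5
    linarith
  have hnn : 0 ≤ G.AA G.SS σ ∅ := by
    by_cases hg : G.Good σ
    · linarith [hgood hg]
    · rw [hbad hg]
  refine ⟨hnn, hgood, hbad, ?_⟩
  intro S _ hc
  by_cases hex : ∃ U0 ∈ G.SS, G.bdr U0 \ σ.1 = S
  · obtain ⟨U0, h1, h2⟩ := hex
    rw [AA_eq G hG σ S hc h1 h2, abs_mul, abs_of_nonneg hnn]
    have h3 : |term G σ U0| = 1 := by
      rcases mul_self_eq_one_iff.mp (term_sq G hG σ U0) with h | h
      · rw [h, abs_one]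
      · rw [h, abs_neg, abs_one]
    rw [h3, one_mul]
  · have h1 : G.AA G.SS σ S = 0 := by
      unfold Sys.AA
      rw [Finset.filter_eq_empty_iff.mpr, Finset.sum_empty]
      intro U hU hU'
      exact hex ⟨U, hU, hU'⟩
    rw [h1, abs_zero]
    exact hnn

end Pool.Agent.Helper600R2.HT.T5
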