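import Pool.Agent.Helper600R2.HT.Stm

/-! T6: the coefficient sums over the sets avoiding a vertex. -/

namespace Pool.Agent.Helper600R2.HT.T6

open Finset

theorem prod_symmDiff' {α : Type} [DecidableEq α] (f : α → ℝ) (hf : ∀ a, f a * f a = 1)
    (A B : Finset α) : ∏ a ∈ symmDiff A B, f a = (∏ a ∈ A, f a) * ∏ a ∈ B, f a := by
  have hd : Disjoint (A \ B) (B \ A) := by
    rw [Finset.disjoint_left]
    intro x hx hy
    rw [Finset.mem_sdiff] at hx hy
    exact hy.2 hx.1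
  have h1 : symmDiff A B = (A \ B) ∪ (B \ A) := rfl
  have h2 : ∏ a ∈ A, f a = (∏ a ∈ A \ B, f a) * ∏ a ∈ A ∩ B, f a := by
    rw [← Finset.prod_union (Finset.disjoint_sdiff_inter A B), Finset.sdiff_union_inter]
  have h3 : ∏ a ∈ B, f a = (∏ a ∈ B \ A, f a) * ∏ a ∈ A ∩ B, f a := by
    rw [Finset.inter_comm, ← Finset.prod_union (Finset.disjoint_sdiff_inter B A),
      Finset.sdiff_union_inter]
  have h4 : (∏ a ∈ A ∩ B, f a) * ∏ a ∈ A ∩ B, f a = 1 := by
    rw [← Finset.prod_mul_distrib]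
    exact Finset.prod_eq_one fun a _ => hf a
  rw [h1, Finset.prod_union hd, h2, h3]
  calc (∏ a ∈ A \ B, f a) * ∏ a ∈ B \ A, f a
      = (∏ a ∈ A \ B, f a) * (∏ a ∈ B \ A, f a) *
          ((∏ a ∈ A ∩ B, f a) * ∏ a ∈ A ∩ B, f a) := by rw [h4, mul_one]
    _ = _ := by ring

theorem prod_pm {α : Type} (f : α → ℝ) (hf : ∀ a, f a = 1 ∨ f a = -1) (A : Finset α) :
    ∏ a ∈ A, f a = 1 ∨ ∏ a ∈ A, f a = -1 := by
  classical
  induction A using Finset.induction_on with
  | empty => left; simp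
  | insert a s ha ih =>
    rw [Finset.prod_insert ha]
    rcases hf a with h | h <;> rcases ih with h' | h' <;> rw [h, h'] <;> norm_num

section

variable {V E Q : Type} [Fintype V] [DecidableEq V] [Fintype E] [DecidableEq E]
  [Fintype Q] [DecidableEq Q]

theorem bdr_symmDiff (G : Sys V E Q) (U U' : Finset V) :
    G.bdr (symmDiff U U') = symmDiff (G.bdr U) (G.bdr U') := by
  ext e
  simp only [Sys.bdr, Finset.mem_symmDiff, Finset.mem_filter, Finset.mem_univ, true_and]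
  tauto

/-- the summand -/
noncomputable def term (G : Sys V E Q) (σ : Bx E Q) (U : Finset V) : ℝ :=
  (∏ v ∈ U, G.c v) * ∏ e ∈ G.bdr U ∩ σ.1, G.r e (σ.2 e)

theorem sq_of_pm {x : ℝ} (h : x = 1 ∨ x = -1) : x * x = 1 := by
  rcases h with h | h <;> rw [h] <;> norm_num

theorem term_pm (G : Sys V E Q) (hG : G.Ok) (σ : Bx E Q) (U : Finset V) :
    term G σ U = 1 ∨ term G σ U = -1 := by
  unfold term
  rcases prod_pm G.c hG.sc U with h | h <;>
    rcases prod_pm (fun e => G.r e (σ.2 e)) (fun e => hG.sr e _) (G.bdr U ∩ σ.1) with h' | h' <;>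
    rw [h, h'] <;> norm_num

theorem term_symmDiff (G : Sys V E Q) (hG : G.Ok) (σ : Bx E Q) (U U' : Finset V) :
    term G σ (symmDiff U U') = term G σ U * term G σ U' := by
  unfold term
  have h1 : G.bdr (symmDiff U U') ∩ σ.1 = symmDiff (G.bdr U ∩ σ.1) (G.bdr U' ∩ σ.1) := by
    rw [bdr_symmDiff]
    ext e
    simp only [Finset.mem_symmDiff, Finset.mem_inter]
    tauto
  rw [h1, prod_symmDiff' G.c (fun v => sq_of_pm (hG.sc v)),
    prod_symmDiff' (fun e => G.r e (σ.2 e)) (fun e => sq_of_pm (hG.sr e _))]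
  ring

/-- the class -/
def cls (G : Sys V E Q) (σ : Bx E Q) (v : V) (S : Finset E) : Finset (Finset V) :=
  (Av v).filter (fun U => G.bdr U \ σ.1 = S)

theorem mem_cls (G : Sys V E Q) (σ : Bx E Q) (v : V) (S : Finset E) (U : Finset V) :
    U ∈ cls G σ v S ↔ v ∉ U ∧ G.bdr U \ σ.1 = S := by
  simp [cls, Av]

theorem cls_symmDiff (G : Sys V E Q) (σ : Bx E Q) (v : V) (S S' : Finset E) (U U' : Finset V)
    (h : U ∈ cls G σ v S) (h' : U' ∈ cls G σ v S') :
    symmDiff U U' ∈ cls G σ v (symmDiff S S') := by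
  rw [mem_cls] at h h' ⊢
  constructor
  · rw [Finset.mem_symmDiff]
    tauto
  · rw [← h.2, ← h'.2, bdr_symmDiff]
    ext e
    simp only [Finset.mem_symmDiff, Finset.mem_sdiff]
    tauto

theorem AA_eq (G : Sys V E Q) (σ : Bx E Q) (v : V) (S : Finset E) :
    G.AA (Av v) σ S = ∑ U ∈ cls G σ v S, term G σ U := rfl

theorem AA_shift (G : Sys V E Q) (hG : G.Ok) (σ : Bx E Q) (v : V) (S : Finset E) (U0 : Finset V)
    (h0 : U0 ∈ cls G σ v S) : G.AA (Av v) σ S = term G σ U0 * G.AA (Av v) σ ∅ := by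
  rw [AA_eq, AA_eq, Finset.mul_sum]
  symm
  refine Finset.sum_bij' (fun U _ => symmDiff U U0) (fun U _ => symmDiff U U0) ?_ ?_ ?_ ?_ ?_
  · intro U hU
    have h1 := cls_symmDiff G σ v ∅ S U U0 hU h0
    have h2 : symmDiff (∅ : Finset E) S = S := bot_symmDiff S
    rwa [h2] at h1
  · intro U hU
    have h1 := cls_symmDiff G σ v S S U U0 hU h0
    have h2 : symmDiff S S = (∅ : Finset E) := symmDiff_self S
    rwa [h2] at h1
  · intro U _
    exact symmDiff_symmDiff_cancel_right U0 U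
  · intro U _
    exact symmDiff_symmDiff_cancel_right U0 U
  · intro U _
    rw [term_symmDiff G hG]
    ring

end

theorem proof_T6 : S_AAv := by
  intro V E Q _ _ _ _ _ _ G hG σ v
  have hpos : 0 ≤ G.AA (Av v) σ ∅ := by
    by_cases h : ∃ U0 ∈ cls G σ v ∅, term G σ U0 = -1
    · obtain ⟨U0, h0, h1⟩ := h
      have h2 := AA_shift G hG σ v ∅ U0 h0
      rw [h1] at h2
      linarith
    · rw [AA_eq]
      refine Finset.sum_nonneg fun U hU => ?_
      rcases term_pm G hG σ U with h1 | h1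
      · rw [h1]; norm_num
      · exact absurd ⟨U, hU, h1⟩ h
  refine ⟨hpos, fun S => ?_⟩
  rcases (cls G σ v S).eq_empty_or_nonempty with h | ⟨U0, h0⟩
  · rw [AA_eq, h, Finset.sum_empty, abs_zero]
    exact hpos
  · rw [AA_shift G hG σ v S U0 h0, abs_mul, abs_of_nonneg hpos]
    have h1 : |term G σ U0| = 1 := by
      rcases term_pm G hG σ U0 with h | h <;> rw [h] <;> norm_num
    rw [h1, one_mul]

end Pool.Agent.Helper600R2.HT.T6
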