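import Pool.Agent.Helper600R2.HT.Stm

namespace Pool.Agent.Helper600R2.HT.T7

open Finset

theorem prod_symmDiff {α : Type} [DecidableEq α] (χ : α → ℝ) (h : ∀ a, χ a * χ a = 1)
    (A B : Finset α) : ∏ a ∈ symmDiff A B, χ a = (∏ a ∈ A, χ a) * ∏ a ∈ B, χ a := by
  have e : symmDiff A B = (A \ B) ∪ (B \ A) := rfl
  have hd : Disjoint (A \ B) (B \ A) := by
    rw [disjoint_left]
    intro x hx hy
    exact (mem_sdiff.1 hx).2 (mem_sdiff.1 hy).1
  rw [e, prod_union hd]
  have h1 := prod_inter_mul_prod_diff A B χ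
  have h2 := prod_inter_mul_prod_diff B A χ
  rw [← h1, ← h2, inter_comm B A]
  have h3 : (∏ a ∈ A ∩ B, χ a) * ∏ a ∈ A ∩ B, χ a = 1 := by
    rw [← prod_mul_distrib]
    exact prod_eq_one fun a _ => h a
  calc (∏ a ∈ A \ B, χ a) * ∏ a ∈ B \ A, χ a
      = ((∏ a ∈ A ∩ B, χ a) * ∏ a ∈ A ∩ B, χ a) * ((∏ a ∈ A \ B, χ a) * ∏ a ∈ B \ A, χ a) := by
        rw [h3, one_mul]
    _ = _ := by ring

section

variable {V E Q : Type} [Fintype V] [DecidableEq V] [Fintype E] [DecidableEq E]
  [Fintype Q] [DecidableEq Q] {G : Sys V E Q}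

theorem bdr_symmDiff (U W : Finset V) : G.bdr (symmDiff U W) = symmDiff (G.bdr U) (G.bdr W) := by
  ext e
  simp only [Sys.bdr, mem_filter, mem_univ, true_and, mem_symmDiff]
  tauto

theorem bdr_compl (U : Finset V) : G.bdr Uᶜ = G.bdr U := by
  ext e
  simp only [Sys.bdr, mem_filter, mem_univ, true_and, mem_compl]
  tauto

theorem bdr_union (U W : Finset V) : G.bdr (U ∪ W) ⊆ G.bdr U ∪ G.bdr W := by
  intro e
  simp only [Sys.bdr, mem_filter, mem_univ, true_and, mem_union]
  tauto

theorem bdr_empty : G.bdr ∅ = ∅ := by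
  ext e
  simp [Sys.bdr]

theorem card_pos_of_ok (hG : G.Ok) : 0 < Fintype.card V := by
  by_contra h
  have h0 : Fintype.card V = 0 := by omega
  haveI := Fintype.card_eq_zero_iff.1 h0
  have := hG.tot
  rw [univ_eq_empty, prod_empty] at this
  norm_num at this

/-- the sets counted by `AA SS σ ∅` -/
def H (G : Sys V E Q) (σ : Bx E Q) : Finset (Finset V) :=
  G.SS.filter (fun U => G.bdr U \ σ.1 = ∅)

theorem mem_H {σ : Bx E Q} (hσ : σ.1.card ≤ G.D0) {U : Finset V} :
    U ∈ H G σ ↔ 3 * U.card < Fintype.card V ∧ G.bdr U ⊆ σ.1 := by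
  unfold H Sys.SS
  simp only [mem_filter, mem_univ, true_and, sdiff_eq_empty_iff_subset]
  constructor
  · rintro ⟨⟨h1, -⟩, h2⟩
    exact ⟨h1, h2⟩
  · rintro ⟨h1, h2⟩
    exact ⟨⟨h1, (card_le_card h2).trans hσ⟩, h2⟩

theorem third (hG : G.Ok) {σ : Bx E Q} (hσ : σ.1.card ≤ G.D0) {U : Finset V}
    (h : G.bdr U ⊆ σ.1) (h2 : 3 * U.card ≤ 2 * Fintype.card V) : U ∈ H G σ := by
  rw [mem_H hσ]
  refine ⟨?_, h⟩
  by_contra hcon
  have h3 := hG.mid U (by omega) h2
  have h4 := (card_le_card h).trans hσ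
  omega

/-- the union of all sets in `H` -/
def Cl (G : Sys V E Q) (σ : Bx E Q) : Finset V := (H G σ).biUnion id

theorem Cl_mem (hG : G.Ok) {σ : Bx E Q} (hσ : σ.1.card ≤ G.D0) : Cl G σ ∈ H G σ := by
  have key : ∀ T : Finset (Finset V), T ⊆ H G σ → T.biUnion id ∈ H G σ := by
    intro T
    induction T using Finset.induction_on with
    | empty =>
      intro _
      rw [biUnion_empty, mem_H hσ, bdr_empty, card_empty]
      have := card_pos_of_ok hG
      exact ⟨by omega, empty_subset _⟩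
    | insert U T _ ih =>
      intro hT
      have h1 := (mem_H hσ).1 (hT (mem_insert_self U T))
      have h2 := (mem_H hσ).1 (ih ((subset_insert U T).trans hT))
      rw [biUnion_insert]
      apply third hG hσ
      · exact (bdr_union _ _).trans (union_subset h1.2 h2.2)
      · have := card_union_le (id U) (T.biUnion id)
        simp only [id] at this ⊢
        omega
  exact key _ (Subset.refl _)

theorem subset_Cl {σ : Bx E Q} {U : Finset V} (h : U ∈ H G σ) : U ⊆ Cl G σ :=
  subset_biUnion_of_mem id h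

theorem Hv_eq (hG : G.Ok) {σ : Bx E Q} (hσ : σ.1.card ≤ G.D0) {v : V} (hv : v ∉ Cl G σ) :
    (Av v).filter (fun U => G.bdr U \ σ.1 = ∅) = G.SS.filter (fun U => G.bdr U \ σ.1 = ∅) := by
  ext U
  constructor
  · intro hU
    rw [mem_filter, Av, mem_filter, sdiff_eq_empty_iff_subset] at hU
    obtain ⟨⟨-, h1⟩, h2⟩ := hU
    by_cases h3 : 3 * U.card ≤ 2 * Fintype.card V
    · exact third hG hσ h2 h3
    · exfalso
      have h4 : Uᶜ ∈ H G σ := by
        rw [mem_H hσ, bdr_compl, card_compl]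
        have h5 := card_le_univ U
        exact ⟨by omega, h2⟩
      exact hv (subset_Cl h4 (mem_compl.2 h1))
  · intro hU
    have h1 : U ∈ H G σ := hU
    rw [mem_filter] at hU ⊢
    refine ⟨?_, hU.2⟩
    rw [Av, mem_filter]
    exact ⟨mem_univ _, fun h => hv (subset_Cl h1 h)⟩

theorem AA_eq (hG : G.Ok) {σ : Bx E Q} (hσ : σ.1.card ≤ G.D0) {v : V} (hv : v ∉ Cl G σ) :
    G.AA (Av v) σ ∅ = G.AA G.SS σ ∅ := by
  unfold Sys.AA
  rw [Hv_eq hG hσ hv]

/-- one term of the sum -/
noncomputable def tm (G : Sys V E Q) (σ : Bx E Q) (U : Finset V) : ℝ :=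
  (∏ v ∈ U, G.c v) * ∏ e ∈ G.bdr U, G.r e (σ.2 e)

theorem AA_tm {σ : Bx E Q} (T : Finset (Finset V)) :
    G.AA T σ ∅ = ∑ U ∈ T.filter (fun U => G.bdr U \ σ.1 = ∅), tm G σ U := by
  unfold Sys.AA tm
  refine sum_congr rfl fun U hU => ?_
  rw [mem_filter, sdiff_eq_empty_iff_subset] at hU
  rw [inter_eq_left.2 hU.2]

theorem tm_symmDiff (hG : G.Ok) (σ : Bx E Q) (U W : Finset V) :
    tm G σ (symmDiff U W) = tm G σ U * tm G σ W := by
  unfold tm
  rw [bdr_symmDiff, prod_symmDiff _ (fun v => by rcases hG.sc v with h | h <;> rw [h] <;> norm_num),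
    prod_symmDiff _ (fun e => by rcases hG.sr e (σ.2 e) with h | h <;> rw [h] <;> norm_num)]
  ring

end

theorem proof_T7 : S_AAcmp := by
  intro V E Q _ _ _ _ _ _ G hG σ hσ
  refine ⟨?_, ?_⟩
  · have h1 := (mem_H hσ).1 (Cl_mem hG hσ)
    refine le_trans (Nat.mul_le_mul_left 3 (card_le_card (t := Cl G σ) ?_)) h1.1.le
    intro v hv
    rw [mem_filter] at hv
    by_contra hcon
    exact hv.2 (AA_eq hG hσ hcon)
  · intro hgood v
    by_cases hv : v ∈ Cl G σ
    · have hCl := Cl_mem hG hσ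
      have hCl' := (mem_H hσ).1 hCl
      have hpos : 0 ≤ G.AA G.SS σ ∅ := by
        rw [AA_tm]
        refine sum_nonneg fun U hU => ?_
        rw [mem_filter, sdiff_eq_empty_iff_subset] at hU
        have h1 := hgood U hU.1 hU.2
        unfold tm
        rw [h1]
        exact zero_le_one
      have htC : tm G σ (Cl G σ) = 1 := hgood _ (mem_filter.1 hCl).1 hCl'.2
      have htW : tm G σ (Cl G σ)ᶜ = -1 := by
        have e1 : (Cl G σ)ᶜ = symmDiff (Cl G σ) univ := by
          ext x
          simp [mem_symmDiff]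
        have e2 : tm G σ univ = -1 := by
          unfold tm
          have e3 : G.bdr (univ : Finset V) = ∅ := by
            ext e
            simp [Sys.bdr]
          rw [e3, hG.tot, prod_empty, mul_one]
        rw [e1, tm_symmDiff hG, htC, e2, one_mul]
      have hz : G.AA (Av v) σ ∅ = 0 := by
        rw [AA_tm]
        have h1 : ∑ U ∈ (Av v).filter (fun U => G.bdr U \ σ.1 = ∅), tm G σ U =
            ∑ U ∈ (Av v).filter (fun U => G.bdr U \ σ.1 = ∅), -tm G σ U := by
          have hmem : ∀ U ∈ (Av v).filter (fun U => G.bdr U \ σ.1 = ∅),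
              symmDiff U (Cl G σ)ᶜ ∈ (Av v).filter (fun U => G.bdr U \ σ.1 = ∅) := by
            intro U hU
            rw [mem_filter, Av, mem_filter, sdiff_eq_empty_iff_subset] at hU ⊢
            refine ⟨⟨mem_univ _, ?_⟩, ?_⟩
            · rw [mem_symmDiff, mem_compl]
              rintro (h | h)
              · exact hU.1.2 h.1
              · exact h.1 hv
            · rw [bdr_symmDiff, bdr_compl]
              exact symmDiff_le_sup.trans (union_subset hU.2 hCl'.2)
          refine sum_nbij' (fun U => symmDiff U (Cl G σ)ᶜ) (fun U => symmDiff U (Cl G σ)ᶜ)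
            hmem hmem ?_ ?_ ?_
          · intro U _
            exact symmDiff_symmDiff_cancel_right _ _
          · intro U _
            exact symmDiff_symmDiff_cancel_right _ _
          · intro U _
            rw [tm_symmDiff hG, htW]
            ring
        rw [sum_neg_distrib] at h1
        linarith
      rw [hz]
      exact hpos
    · exact (AA_eq hG hσ hv).le

end Pool.Agent.Helper600R2.HT.T7
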