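import Pool.Agent.Helper600R2.HT.Stm

set_option autoImplicit false

namespace Pool.Agent.Helper600R2.HT.T8

open Finset

variable {E Q : Type} [Fintype E] [DecidableEq E] [Fintype Q] [DecidableEq Q]

theorem mg_inB (σ : Bx E Q) (z : E → Q) : InB σ (mg σ z) := by
  intro e he
  simp [mg, he]

theorem mg_eq {σ : Bx E Q} {y : E → Q} (hy : InB σ y) (z : E → Q) :
    mg σ z = y ↔ z ∈ Fintype.piFinset (fun e => if e ∈ σ.1 then (univ : Finset Q) else {y e}) := by
  rw [Fintype.mem_piFinset]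
  constructor
  · intro h e
    by_cases he : e ∈ σ.1
    · simp [he]
    · rw [if_neg he, mem_singleton, ← h]
      simp [mg, he]
  · intro h
    funext e
    by_cases he : e ∈ σ.1
    · simp only [mg, he, if_true]
      exact (hy e he).symm
    · have := h e
      rw [if_neg he, mem_singleton] at this
      simp only [mg, he, if_false]
      exact this

theorem card_fib {σ : Bx E Q} {y : E → Q} (hy : InB σ y) :
    (univ.filter (fun z : E → Q => mg σ z = y)).card = Fintype.card Q ^ σ.1.card := by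
  have h1 : univ.filter (fun z : E → Q => mg σ z = y) =
      Fintype.piFinset (fun e => if e ∈ σ.1 then (univ : Finset Q) else {y e}) := by
    ext z
    rw [mem_filter, ← mg_eq hy]
    simp
  rw [h1, Fintype.card_piFinset]
  have h2 : ∀ e, (if e ∈ σ.1 then (univ : Finset Q) else {y e}).card =
      if e ∈ σ.1 then Fintype.card Q else 1 := by
    intro e
    split_ifs
    · exact Finset.card_univ
    · exact card_singleton _
  rw [prod_congr rfl (fun e _ => h2 e), prod_ite]
  simp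

theorem sum_mg (σ : Bx E Q) (F : (E → Q) → ℝ) (hF : ∀ z, ¬ InB σ z → F z = 0) :
    ∑ z, F (mg σ z) = (Fintype.card Q : ℝ) ^ σ.1.card * ∑ z, F z := by
  have h1 : ∑ z, F (mg σ z) = ∑ y, ∑ z ∈ univ.filter (fun z : E → Q => mg σ z = y), F (mg σ z) := by
    exact (sum_fiberwise univ (fun z => mg σ z) (fun z => F (mg σ z))).symm
  rw [h1, mul_sum]
  apply sum_congr rfl
  intro y _
  have h2 : ∑ z ∈ univ.filter (fun z : E → Q => mg σ z = y), F (mg σ z) =
      ∑ z ∈ univ.filter (fun z : E → Q => mg σ z = y), F y := by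
    apply sum_congr rfl
    intro z hz
    rw [(mem_filter.1 hz).2]
  rw [h2, sum_const, nsmul_eq_mul]
  by_cases hy : InB σ y
  · rw [card_fib hy]
    push_cast
    ring
  · rw [hF y hy]
    ring

theorem ind_zero {X : Finset (E → Q)} {σ : Bx E Q} (h : ∀ z ∈ X, InB σ z) {z : E → Q}
    (hz : ¬ InB σ z) : ind X z = 0 := by
  unfold ind
  rw [if_neg (fun hX => hz (h z hX))]

theorem mean_eq {X : Finset (E → Q)} {σ : Bx E Q} (h : ∀ z ∈ X, InB σ z) :
    mean X σ = (Fintype.card Q : ℝ) ^ σ.1.card * X.card / (Fintype.card Q : ℝ) ^ Fintype.card E := by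
  unfold mean
  rw [sum_mg σ (ind X) (fun z hz => ind_zero h hz)]
  congr 2
  unfold ind
  rw [sum_ite]
  simp

theorem hat_eq {X : Finset (E → Q)} {σ : Bx E Q} (h : ∀ z ∈ X, InB σ z) (r : E → Q → ℝ)
    (S : Finset E) :
    hat r X σ (S \ σ.1) = (Fintype.card Q : ℝ) ^ σ.1.card *
      (∑ z, ind X z * ∏ e ∈ S \ σ.1, r e (z e)) / (Fintype.card Q : ℝ) ^ Fintype.card E := by
  unfold hat
  have h1 : ∀ z : E → Q, ind X (mg σ z) * ∏ e ∈ S \ σ.1, r e (z e) =
      (fun y : E → Q => ind X y * ∏ e ∈ S \ σ.1, r e (y e)) (mg σ z) := by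
    intro z
    show _ = ind X (mg σ z) * ∏ e ∈ S \ σ.1, r e (mg σ z e)
    congr 1
    apply prod_congr rfl
    intro e he
    have he2 : e ∉ σ.1 := (mem_sdiff.1 he).2
    simp [mg, he2]
  rw [sum_congr rfl (fun z _ => h1 z),
    sum_mg σ (fun y : E → Q => ind X y * ∏ e ∈ S \ σ.1, r e (y e))]
  intro z hz
  show ind X z * _ = 0
  rw [ind_zero h hz, zero_mul]

theorem hat0_eq {X : Finset (E → Q)} {σ : Bx E Q} (h : ∀ z ∈ X, InB σ z) (r : E → Q → ℝ)
    (S : Finset E) :
    hat0 r X S = (∏ e ∈ S ∩ σ.1, r e (σ.2 e)) *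
      (∑ z, ind X z * ∏ e ∈ S \ σ.1, r e (z e)) / (Fintype.card Q : ℝ) ^ Fintype.card E := by
  unfold hat0
  congr 1
  rw [mul_sum]
  apply sum_congr rfl
  intro z _
  by_cases hz : z ∈ X
  · have h1 : ∏ e ∈ S, r e (z e) = (∏ e ∈ S ∩ σ.1, r e (σ.2 e)) * ∏ e ∈ S \ σ.1, r e (z e) := by
      rw [← prod_inter_mul_prod_diff S σ.1]
      congr 1
      apply prod_congr rfl
      intro e he
      rw [h z hz e (mem_inter.1 he).2]
    rw [h1]
    ring
  · unfold ind
    rw [if_neg hz]
    ring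

theorem proof_T8 : S_Box := by
  intro V E Q _ _ _ _ _ _ _ G X σ h
  have hq : (0 : ℝ) < Fintype.card Q := by
    exact_mod_cast Fintype.card_pos
  have hq1 : (0 : ℝ) < (Fintype.card Q : ℝ) ^ σ.1.card := pow_pos hq _
  have hq2 : (0 : ℝ) < (Fintype.card Q : ℝ) ^ Fintype.card E := pow_pos hq _
  refine ⟨?_, ?_, ?_, ?_⟩
  · intro S
    rw [hat_eq h, hat0_eq h]
    field_simp
  · rw [mean_eq h]
    unfold mu
    field_simp
  · unfold mean
    apply div_nonneg _ hq2.le
    apply sum_nonneg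
    intro z _
    unfold ind
    split_ifs <;> norm_num
  · unfold mean
    rw [div_le_one hq2]
    have h1 : ∑ z : E → Q, ind X (mg σ z) ≤ ∑ z : E → Q, (1 : ℝ) := by
      apply sum_le_sum
      intro z _
      unfold ind
      split_ifs <;> norm_num
    refine h1.trans ?_
    rw [sum_const, nsmul_eq_mul, mul_one, Finset.card_univ, Fintype.card_fun]
    push_cast
    exact le_rfl

end Pool.Agent.Helper600R2.HT.T8
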