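import Pool.Agent.Helper600R2.HT.Stm

/-! T9: the size of the functional `LL SS` on a light set. -/

namespace Pool.Agent.Helper600R2.HT.T9

open Finset

set_option linter.unusedSectionVars false

variable {V E Q : Type} [Fintype V] [DecidableEq V] [Fintype E] [DecidableEq E]
  [Fintype Q] [DecidableEq Q]

theorem abs_prod_one {ι : Type} (s : Finset ι) (f : ι → ℝ) (h : ∀ i, f i = 1 ∨ f i = -1) :
    |∏ i ∈ s, f i| = 1 := by
  rw [Finset.abs_prod]
  exact Finset.prod_eq_one (fun i _ => by rcases h i with h | h <;> simp [h])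

theorem sum_ne (E : Type) [Fintype E] [DecidableEq E] (x : ℝ) :
    ∑ S ∈ (univ : Finset (Finset E)).erase ∅, x ^ S.card = (1 + x) ^ Fintype.card E - 1 := by
  have h := Fintype.sum_pow_mul_eq_add_pow E x 1
  simp only [one_pow, mul_one] at h
  rw [Finset.sum_erase_eq_sub (Finset.mem_univ _), h, Finset.card_empty, pow_zero, add_comm x 1]

theorem hat_empty (r : E → Q → ℝ) (X : Finset (E → Q)) (σ : Bx E Q) :
    hat r X σ ∅ = mean X σ := by
  simp [hat, mean]

/-- the coefficient of `U` -/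
noncomputable def kk (G : Sys V E Q) (σ : Bx E Q) (U : Finset V) : ℝ :=
  (∏ v ∈ U, G.c v) * ∏ e ∈ G.bdr U ∩ σ.1, G.r e (σ.2 e)

theorem kk_abs (G : Sys V E Q) (hG : G.Ok) (σ : Bx E Q) (U : Finset V) : |kk G σ U| = 1 := by
  unfold kk
  rw [abs_mul, abs_prod_one U G.c hG.sc, abs_prod_one _ (fun e => G.r e (σ.2 e))
    (fun e => hG.sr e _), one_mul]

theorem AA_not_disj (G : Sys V E Q) (𝓤 : Finset (Finset V)) (σ : Bx E Q) (S : Finset E)
    (h : ¬ Disjoint S σ.1) : G.AA 𝓤 σ S = 0 := by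
  unfold Sys.AA
  apply Finset.sum_eq_zero
  intro U hU
  exfalso
  apply h
  rw [← (Finset.mem_filter.1 hU).2]
  exact Finset.sdiff_disjoint

theorem LL_eq (G : Sys V E Q) [Nonempty Q] (hBox : S_Box) (𝓤 : Finset (Finset V))
    (X : Finset (E → Q)) (σ : Bx E Q) (hX : ∀ z ∈ X, InB σ z) :
    G.LL 𝓤 X = (∑ U ∈ 𝓤, kk G σ U * hat G.r X σ (G.bdr U \ σ.1)) /
      (Fintype.card Q : ℝ) ^ σ.1.card := by
  unfold Sys.LL
  rw [Finset.sum_div]
  refine Finset.sum_congr rfl fun U _ => ?_
  rw [(hBox V E Q G X σ hX).1 (G.bdr U)]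
  unfold kk
  ring

/-- grouping of the sum -/
theorem group (G : Sys V E Q) (𝓤 : Finset (Finset V)) (σ : Bx E Q) (f : Finset E → ℝ)
    (p : Finset E → Prop) [DecidablePred p] :
    ∑ U ∈ 𝓤.filter (fun U => p (G.bdr U \ σ.1)), kk G σ U * f (G.bdr U \ σ.1) =
      ∑ S ∈ univ.filter p, G.AA 𝓤 σ S * f S := by
  have h1 : ∀ U ∈ 𝓤.filter (fun U => p (G.bdr U \ σ.1)),
      (G.bdr U \ σ.1) ∈ univ.filter p := by
    intro U hU
    exact Finset.mem_filter.2 ⟨Finset.mem_univ _, (Finset.mem_filter.1 hU).2⟩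
  rw [← Finset.sum_fiberwise_of_maps_to h1]
  refine Finset.sum_congr rfl fun S hS => ?_
  have hp : p S := (Finset.mem_filter.1 hS).2
  unfold Sys.AA
  rw [Finset.sum_mul, Finset.filter_filter]
  have h2 : 𝓤.filter (fun U => p (G.bdr U \ σ.1) ∧ G.bdr U \ σ.1 = S) =
      𝓤.filter (fun U => G.bdr U \ σ.1 = S) := by
    apply Finset.filter_congr
    intro U _
    constructor
    · exact fun h => h.2
    · intro h
      exact ⟨h ▸ hp, h⟩
  rw [h2]
  refine Finset.sum_congr rfl fun U hU => ?_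
  rw [(Finset.mem_filter.1 hU).2]
  rfl

theorem proof_T9 : S_BndS := by
  intro V E Q _ _ _ _ _ _ _ G B w η dd X σ hG hAA hBox hB hE hdd hσ hη hX hPR hLt
  have hB0 : 0 < B := lt_of_lt_of_le one_pos hB
  have hB1 : 1 / B ≤ 1 := by rw [div_le_one hB0]; exact hB
  have hB2 : 0 ≤ 1 / B := by positivity
  set I := σ.1 with hI
  set q : ℝ := (Fintype.card Q : ℝ) with hq
  have hq0 : 0 < q := by
    rw [hq]
    exact_mod_cast Fintype.card_pos
  set W := w * B ^ I.card with hW
  obtain ⟨-, -, hm0, -⟩ := hBox V E Q G X σ hX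
  have hmW : mean X σ ≤ W := hLt σ ⟨subset_rfl, fun _ _ => rfl⟩
  have hW0 : 0 ≤ W := hm0.trans hmW
  obtain ⟨ha0, -, -, haS⟩ := hAA V E Q G hG σ (hσ.trans hdd)
  set a := G.AA G.SS σ ∅ with ha
  set H : Finset E → ℝ := fun S => hat G.r X σ S with hH
  -- the total sum
  have hLL := LL_eq G hBox G.SS X σ hX
  rw [hLL, ← sub_div, abs_div, abs_of_pos (pow_pos hq0 I.card), div_mul_eq_mul_div]
  apply div_le_div_of_nonneg_right _ (pow_pos hq0 I.card).le
  -- splitting
  have hsplit := Finset.sum_filter_add_sum_filter_not G.SS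
    (fun U => (G.bdr U \ I).card + I.card ≤ G.D0)
    (fun U => kk G σ U * H (G.bdr U \ I))
  have hg := group G G.SS σ H (fun S => S.card + I.card ≤ G.D0)
  rw [← hsplit, hg]
  have hem : (∅ : Finset E) ∈ univ.filter (fun S : Finset E => S.card + I.card ≤ G.D0) := by
    refine Finset.mem_filter.2 ⟨Finset.mem_univ _, ?_⟩
    rw [Finset.card_empty, zero_add]
    exact hσ.trans hdd
  rw [← Finset.add_sum_erase _ _ hem]
  have hH0 : H ∅ = mean X σ := hat_empty _ _ _
  rw [← ha, hH0]
  -- first part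
  have hA : |∑ S ∈ (univ.filter (fun S : Finset E => S.card + I.card ≤ G.D0)).erase ∅,
      G.AA G.SS σ S * H S| ≤ a * W * (1 / 4) := by
    calc |∑ S ∈ (univ.filter (fun S : Finset E => S.card + I.card ≤ G.D0)).erase ∅,
        G.AA G.SS σ S * H S|
        ≤ ∑ S ∈ (univ.filter (fun S : Finset E => S.card + I.card ≤ G.D0)).erase ∅,
          |G.AA G.SS σ S * H S| := Finset.abs_sum_le_sum_abs _ _
      _ ≤ ∑ S ∈ (univ.filter (fun S : Finset E => S.card + I.card ≤ G.D0)).erase ∅,
          a * W * (1 / B) ^ S.card := by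
        refine Finset.sum_le_sum fun S hS => ?_
        have hS1 : S.card + I.card ≤ G.D0 := by
          have := (Finset.mem_erase.1 hS).2
          exact (Finset.mem_filter.1 this).2
        by_cases hd : Disjoint S I
        · rw [abs_mul, mul_assoc]
          have h1 := haS S hd (by rw [← hI]; omega)
          have h2 : |H S| ≤ W * (1 / B) ^ S.card := hPR σ S w hd hLt
          exact mul_le_mul h1 h2 (abs_nonneg _) ha0
        · rw [AA_not_disj G G.SS σ S hd, zero_mul, abs_zero]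
          positivity
      _ ≤ ∑ S ∈ (univ : Finset (Finset E)).erase ∅, a * W * (1 / B) ^ S.card := by
        apply Finset.sum_le_sum_of_subset_of_nonneg
        · exact Finset.erase_subset_erase _ (Finset.filter_subset _ _)
        · intro S _ _
          positivity
      _ = a * W * ((1 + 1 / B) ^ Fintype.card E - 1) := by
        rw [← Finset.mul_sum, sum_ne]
      _ ≤ a * W * (1 / 4) := by
        apply mul_le_mul_of_nonneg_left _ (mul_nonneg ha0 hW0)
        linarith
  -- second part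
  have hC : |∑ U ∈ G.SS.filter (fun U => ¬ ((G.bdr U \ I).card + I.card ≤ G.D0)),
      kk G σ U * H (G.bdr U \ I)| ≤ W * η := by
    calc |∑ U ∈ G.SS.filter (fun U => ¬ ((G.bdr U \ I).card + I.card ≤ G.D0)),
        kk G σ U * H (G.bdr U \ I)|
        ≤ ∑ U ∈ G.SS.filter (fun U => ¬ ((G.bdr U \ I).card + I.card ≤ G.D0)),
          |kk G σ U * H (G.bdr U \ I)| := Finset.abs_sum_le_sum_abs _ _
      _ ≤ ∑ U ∈ G.SS.filter (fun U => ¬ ((G.bdr U \ I).card + I.card ≤ G.D0)),
          W * (1 / B) ^ (G.D0 - dd) := by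
        refine Finset.sum_le_sum fun U hU => ?_
        have hU1 := (Finset.mem_filter.1 hU).2
        rw [abs_mul, kk_abs G hG, one_mul]
        have h2 : |H (G.bdr U \ I)| ≤ W * (1 / B) ^ (G.bdr U \ I).card :=
          hPR σ _ w Finset.sdiff_disjoint hLt
        refine h2.trans (mul_le_mul_of_nonneg_left ?_ hW0)
        apply pow_le_pow_of_le_one hB2 hB1
        omega
      _ = ((G.SS.filter (fun U => ¬ ((G.bdr U \ I).card + I.card ≤ G.D0))).card : ℝ) *
          (W * (1 / B) ^ (G.D0 - dd)) := by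
        rw [Finset.sum_const, nsmul_eq_mul]
      _ ≤ 2 ^ Fintype.card V * (W * (1 / B) ^ (G.D0 - dd)) := by
        apply mul_le_mul_of_nonneg_right _ (by positivity)
        have h3 : (G.SS.filter (fun U => ¬ ((G.bdr U \ I).card + I.card ≤ G.D0))).card ≤
            2 ^ Fintype.card V := by
          refine (Finset.card_le_univ _).trans ?_
          rw [Fintype.card_finset]
        exact_mod_cast h3
      _ = W * (2 ^ Fintype.card V * (1 / B) ^ (G.D0 - dd)) := by ring
      _ ≤ W * η := mul_le_mul_of_nonneg_left hη hW0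
  have hA' := abs_le.1 hA
  have hC' := abs_le.1 hC
  rw [abs_le]
  constructor
  · nlinarith [hA'.1, hC'.1]
  · nlinarith [hA'.2, hC'.2]

end Pool.Agent.Helper600R2.HT.T9
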