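import Pool.Agent.Helper600R2.HT.Stm2

/-! The number of codes. -/

namespace Pool.Agent.Helper600R2.HT.U1

open Finset

theorem opt (x n : ℕ) (h : x ≤ 2 ^ n) : x + 1 ≤ 2 ^ (n + 1) := by
  have : 1 ≤ 2 ^ n := Nat.one_le_two_pow
  rw [pow_succ]
  omega

theorem cardCA (E Q Cd : Type) [Fintype E] [DecidableEq E] [Fintype Q] [Fintype Cd]
    (a b J1 st : ℕ) (h1 : Fintype.card Cd ≤ 2 ^ a)
    (h2 : 2 ^ Fintype.card E * Fintype.card Q ^ Fintype.card E ≤ 2 ^ b) (h3 : J1 ≤ 2 ^ b)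
    (h4 : st + 1 ≤ 2 ^ b) :
    Fintype.card (CA E Q Cd J1 st) ≤ 2 ^ (a + 3 * b + 1) := by
  rw [Fintype.card_option]
  refine opt _ _ ?_
  rw [Fintype.card_prod, Fintype.card_prod, Fintype.card_prod, Fintype.card_prod,
    Fintype.card_option, Fintype.card_finset, Fintype.card_fun,
    Fintype.card_fin, Fintype.card_fin]
  calc Fintype.card Cd * (2 ^ Fintype.card E * Fintype.card Q ^ Fintype.card E *
        (J1 * (st + 1))) ≤ 2 ^ a * (2 ^ b * (2 ^ b * 2 ^ b)) :=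
        Nat.mul_le_mul h1 (Nat.mul_le_mul h2 (Nat.mul_le_mul h3 h4))
    _ = 2 ^ (a + 3 * b) := by
        rw [← pow_add, ← pow_add, ← pow_add]
        congr 1
        omega

theorem cardCP (Cd : Type) [Fintype Cd] (a h kk : ℕ) (h1 : Fintype.card Cd ≤ 2 ^ a) :
    Fintype.card (CP Cd h kk) ≤ 2 ^ (a + h * kk * (a + 1) + 1) := by
  rw [Fintype.card_option]
  refine opt _ _ ?_
  rw [Fintype.card_prod, Fintype.card_fun, Fintype.card_prod, Fintype.card_fun, Fintype.card_fin,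
    Fintype.card_fin]
  have h2 : Fintype.card Cd ^ kk * kk ≤ 2 ^ (kk * (a + 1)) := by
    calc Fintype.card Cd ^ kk * kk ≤ (2 ^ a) ^ kk * 2 ^ kk :=
          Nat.mul_le_mul (Nat.pow_le_pow_left h1 _) Nat.lt_two_pow_self.le
      _ = 2 ^ (kk * (a + 1)) := by
          rw [← pow_mul, ← pow_add]
          congr 1
          ring
  calc Fintype.card Cd * (Fintype.card Cd ^ kk * kk) ^ h ≤ 2 ^ a * (2 ^ (kk * (a + 1))) ^ h :=
        Nat.mul_le_mul h1 (Nat.pow_le_pow_left h2 _)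
    _ = 2 ^ (a + h * kk * (a + 1)) := by
        rw [← pow_mul, ← pow_add]
        congr 1
        ring

theorem proof_U1 : S_Card := by
  intro E Q Cd _ _ _ _ _ a b J1 h kk _ h1 h2 h3 h4
  have c1 := cardCA E Q Cd a b J1 (stp E Q) h1 h2 h3 h4
  have c2 := cardCP Cd a h kk h1
  rw [Fintype.card_prod, Fintype.card_prod, Fintype.card_prod, Fintype.card_prod,
    Fintype.card_prod, Fintype.card_prod, Fintype.card_finset, Fintype.card_fun,
    Fintype.card_option (α := Fin (stp E Q)), Fintype.card_fin, Fintype.card_fin]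
  calc _ ≤ 2 ^ (a + 3 * b + 1) * (2 ^ (a + h * kk * (a + 1) + 1) * 2 ^ (a + 3 * b + 1)) *
        (2 ^ b * (2 ^ b * 2 ^ b)) :=
        Nat.mul_le_mul (Nat.mul_le_mul c1 (Nat.mul_le_mul c2 c1))
          (Nat.mul_le_mul h2 (Nat.mul_le_mul h3 h4))
    _ = 2 ^ (3 * a + 9 * b + 3 + h * kk * (a + 1)) := by
        simp only [← pow_add]
        congr 1
        ring
    _ ≤ 2 ^ (3 * a + 10 * b + 4 + h * kk * (a + 1)) :=
        Nat.pow_le_pow_right (by norm_num) (by omega)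

end Pool.Agent.Helper600R2.HT.U1
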