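import Pool.Agent.Helper600R2.HT.Stm2

/-! The parameters are admissible. -/

namespace Pool.Agent.Helper600R2.HT.U2

open Finset

theorem sq_le_two_pow (s : ℕ) (hs : 4 ≤ s) : s ^ 2 ≤ 2 ^ s := by
  induction s, hs using Nat.le_induction with
  | base => norm_num
  | succ s hs ih =>
    rw [pow_succ 2 s]
    nlinarith

/-- `C * (log N + 1) ≤ N` for large `N` -/
theorem log_small (C N : ℕ) (hN : 2 ^ (2 * C + 4) ≤ N) : C * (Nat.log 2 N + 1) ≤ N := by
  have hN0 : N ≠ 0 := by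
    have : 0 < 2 ^ (2 * C + 4) := by positivity
    omega
  have hs : 2 * C + 4 ≤ Nat.log 2 N := Nat.le_log_of_pow_le (by norm_num) hN
  have h1 : 2 ^ Nat.log 2 N ≤ N := Nat.pow_log_le_self 2 hN0
  have h2 := sq_le_two_pow (Nat.log 2 N) (by omega)
  generalize Nat.log 2 N = s at *
  have h3 : C * (s + 1) ≤ s ^ 2 := by nlinarith
  omega

theorem exp_tenth : Real.exp (1 / 10) ≤ 5 / 4 := by
  have h1 : Real.exp (1 / 10) ^ 10 = Real.exp 1 := by
    rw [← Real.exp_nat_mul]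
    norm_num
  have h2 := Real.exp_one_lt_d9
  have h3 : Real.exp (1 / 10) ^ 10 ≤ (5 / 4 : ℝ) ^ 10 := by
    rw [h1]
    norm_num
    linarith
  exact (pow_le_pow_iff_left₀ (Real.exp_pos _).le (by norm_num) (by norm_num)).1 h3

theorem c4 (L m : ℕ) (h : 10 * m ≤ 2 ^ L) : (1 + 1 / (2 : ℝ) ^ L) ^ m ≤ 5 / 4 := by
  have h1 : (1 + 1 / (2 : ℝ) ^ L) ≤ Real.exp (1 / (2 : ℝ) ^ L) := by
    have := Real.add_one_le_exp (1 / (2 : ℝ) ^ L)
    linarith
  calc (1 + 1 / (2 : ℝ) ^ L) ^ m ≤ Real.exp (1 / (2 : ℝ) ^ L) ^ m :=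
        pow_le_pow_left₀ (by positivity) h1 _
    _ = Real.exp (m * (1 / (2 : ℝ) ^ L)) := by rw [← Real.exp_nat_mul]
    _ ≤ Real.exp (1 / 10) := by
        apply Real.exp_le_exp.2
        have h2 : (10 * m : ℝ) ≤ 2 ^ L := by exact_mod_cast h
        rw [mul_one_div, div_le_div_iff₀ (by positivity) (by norm_num)]
        linarith
    _ ≤ 5 / 4 := exp_tenth

/-- the union bound -/
theorem c6 (K N L E : ℕ) (hN : 16 ≤ N) (hL : N ≤ 2 ^ L) (hE : E + 1 ≤ 58 * N ^ (K + 1)) :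
    (2 : ℝ) ^ E * (2 * Real.exp (-((2 : ℝ) ^ ((K + 3) * L) / 2))) < 1 := by
  have h1 : (2 : ℝ) ^ (E + 1) ≤ Real.exp ((E + 1 : ℕ) : ℝ) := by
    have h2 : (2 : ℝ) ≤ Real.exp 1 := by
      have := Real.add_one_le_exp (1 : ℝ)
      linarith
    calc (2 : ℝ) ^ (E + 1) ≤ Real.exp 1 ^ (E + 1) := pow_le_pow_left₀ (by norm_num) h2 _
      _ = Real.exp ((E + 1 : ℕ) : ℝ) := by rw [← Real.exp_nat_mul, mul_one]
  have h3 : ((E + 1 : ℕ) : ℝ) ≤ 58 * (N : ℝ) ^ (K + 1) := by exact_mod_cast hE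
  have h4 : (N : ℝ) ^ (K + 3) ≤ (2 : ℝ) ^ ((K + 3) * L) := by
    have : N ^ (K + 3) ≤ 2 ^ ((K + 3) * L) := by
      rw [mul_comm, pow_mul]
      exact Nat.pow_le_pow_left hL _
    exact_mod_cast this
  have hN' : (16 : ℝ) ≤ N := by exact_mod_cast hN
  have h5 : 58 * (N : ℝ) ^ (K + 1) < (2 : ℝ) ^ ((K + 3) * L) / 2 := by
    have h6 : (N : ℝ) ^ (K + 3) = (N : ℝ) ^ (K + 1) * N ^ 2 := by rw [← pow_add]
    have h7 : 0 < (N : ℝ) ^ (K + 1) := by positivity
    have h8 : (256 : ℝ) ≤ (N : ℝ) ^ 2 := by nlinarith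
    have h9 := mul_le_mul_of_nonneg_left h8 h7.le
    linarith
  calc (2 : ℝ) ^ E * (2 * Real.exp (-((2 : ℝ) ^ ((K + 3) * L) / 2)))
      = (2 : ℝ) ^ (E + 1) * Real.exp (-((2 : ℝ) ^ ((K + 3) * L) / 2)) := by
        rw [pow_succ]
        ring
    _ ≤ Real.exp ((E + 1 : ℕ) : ℝ) * Real.exp (-((2 : ℝ) ^ ((K + 3) * L) / 2)) :=
        mul_le_mul_of_nonneg_right h1 (Real.exp_pos _).le
    _ = Real.exp (((E + 1 : ℕ) : ℝ) - (2 : ℝ) ^ ((K + 3) * L) / 2) := by
        rw [← Real.exp_add, sub_eq_add_neg]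
    _ < 1 := by
        rw [Real.exp_lt_one_iff]
        linarith

theorem c7 (K N L n : ℕ) (hn : n ≤ N) (hL : 2 ^ L ≤ 2 * N) (hN : 2 ^ (4 * K + 24) ≤ N) :
    n * (2 ^ ((K + 6) * L)) ^ 4 ≤ N ^ (4 * K + 26) := by
  have h1 : (2 ^ ((K + 6) * L)) ^ 4 = (2 ^ L) ^ (4 * K + 24) := by
    rw [← pow_mul, ← pow_mul]
    congr 1
    ring
  have h2 : (2 ^ L) ^ (4 * K + 24) ≤ N * N ^ (4 * K + 24) := by
    calc (2 ^ L) ^ (4 * K + 24) ≤ (2 * N) ^ (4 * K + 24) := Nat.pow_le_pow_left hL _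
      _ = 2 ^ (4 * K + 24) * N ^ (4 * K + 24) := by rw [mul_pow]
      _ ≤ N * N ^ (4 * K + 24) := Nat.mul_le_mul_right _ hN
  rw [h1]
  calc n * (2 ^ L) ^ (4 * K + 24) ≤ N * (N * N ^ (4 * K + 24)) := Nat.mul_le_mul hn h2
    _ = N ^ (4 * K + 26) := by ring

theorem proof_U2 : S_Num1 := by
  intro K k
  refine ⟨2 ^ (2 * (2000 * (K + 6)) + 4), fun N hN => ?_⟩
  have hlog := log_small (2000 * (K + 6)) N hN
  obtain ⟨M, hM⟩ : ∃ M, M = 2 * (2000 * (K + 6)) + 4 := ⟨_, rfl⟩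
  rw [← hM] at hN
  have hNbig : 2 ^ (4 * K + 24) ≤ N :=
    (Nat.pow_le_pow_right (n := 2) (j := M) (by norm_num) (by omega)).trans hN
  have hN10 : 2 ^ 10 ≤ N := (Nat.pow_le_pow_right (n := 2) (j := M) (by norm_num) (by omega)).trans hN
  have hLb : M ≤ Nat.log 2 N := Nat.le_log_of_pow_le (by norm_num) hN
  clear hN
  have hN1000 : 1000 ≤ N := le_trans (by norm_num) hN10
  clear hN10
  have hL : pL N = Nat.log 2 N + 1 := rfl
  have hM' : 4000 ≤ M := by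
    clear hlog hNbig hLb hL
    omega
  have hLbig : 4000 ≤ pL N := by
    rw [hL]
    exact (hM'.trans hLb).trans (Nat.le_succ _)
  clear hLb hM'
  have hL1 : N < 2 ^ pL N := Nat.lt_pow_succ_log_self (by norm_num) N
  have hL2 : 2 ^ pL N ≤ 2 * N := by
    rw [hL, pow_succ]
    have := Nat.pow_log_le_self 2 (x := N) (by omega)
    omega
  rw [← hL] at hlog
  have hκ : pκ K N = (K + 6) * pL N := rfl
  have hκpos : 0 < pκ K N := by
    rw [hκ]
    positivity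
  have hn : pn K N = N / (2 * pκ K N) := rfl
  -- `n ≥ 1000`
  have hn1 : 1000 ≤ pn K N := by
    rw [hn, Nat.le_div_iff_mul_le (by omega), hκ]
    calc 1000 * (2 * ((K + 6) * pL N)) = 2000 * (K + 6) * pL N := by ring
      _ ≤ N := hlog
  have hnκ : 2 * pn K N * pκ K N ≤ N := by
    have := Nat.div_mul_le_self N (2 * pκ K N)
    rw [← hn] at this
    calc 2 * pn K N * pκ K N = pn K N * (2 * pκ K N) := by ring
      _ ≤ N := this
  have hD : pD K N = pn K N / 60 := rfl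
  have hD1 : 4 ≤ pD K N := by omega
  have hA : pA K N = pL N * pD K N := rfl
  -- `12 * L * n ≤ N`
  have hLn : 12 * (pL N * pn K N) ≤ N := by
    refine le_trans ?_ hnκ
    rw [hκ]
    have : 0 ≤ K * (pn K N * pL N) := Nat.zero_le _
    calc 12 * (pL N * pn K N) = 2 * pn K N * (6 * pL N) := by ring
      _ ≤ 2 * pn K N * ((K + 6) * pL N) :=
        Nat.mul_le_mul_left _ (Nat.mul_le_mul_right _ (by omega))
  have hAn : pA K N ≤ pL N * pn K N := by
    rw [hA]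
    exact Nat.mul_le_mul_left _ (by omega)
  have hAN : pA K N ≤ N := by omega
  have hnN : 24 * pn K N ≤ N := by
    have : 4000 * pn K N ≤ pL N * pn K N := Nat.mul_le_mul_right _ hLbig
    omega
  have hh : (k + 1) * ph K k N ≤ pA K N / 16 := by
    unfold ph
    rw [Nat.le_div_iff_mul_le (by norm_num)]
    calc (k + 1) * (pA K N / (16 * (k + 1))) * 16 =
          pA K N / (16 * (k + 1)) * (16 * (k + 1)) := by ring
      _ ≤ pA K N := Nat.div_mul_le_self _ _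
  refine ⟨by omega, hD1, hnκ, c4 _ _ (by omega), ?_, ?_, ?_, ?_⟩
  · have h1 : N + 6 ≤ 2 ^ (4 * N) := by
      have h2 : 4 * N < 2 ^ (4 * N) := Nat.lt_two_pow_self
      omega
    omega
  · have e : (2 : ℝ) ^ (3 * N ^ K + 10 * (4 * N) + 4 + ph K k N * (k + 1) * (N ^ K + 1)) *
        2 ^ (4 * N) * 2 ^ (4 * N) * (2 * Real.exp (-((2 : ℝ) ^ ((K + 3) * pL N) / 2))) =
        (2 : ℝ) ^ (3 * N ^ K + 10 * (4 * N) + 4 + ph K k N * (k + 1) * (N ^ K + 1) +
          4 * N + 4 * N) * (2 * Real.exp (-((2 : ℝ) ^ ((K + 3) * pL N) / 2))) := by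
      rw [pow_add _ _ (4 * N), pow_add _ _ (4 * N)]
    rw [e]
    refine c6 K N (pL N) _ (by omega) hL1.le ?_
    have h1 : ph K k N * (k + 1) * (N ^ K + 1) ≤ N * (N ^ K + 1) := by
      refine Nat.mul_le_mul_right _ ?_
      rw [mul_comm]
      omega
    have h2 : N * (N ^ K + 1) = N ^ (K + 1) + N := by ring
    have h3 : 1000 * N ^ K ≤ N ^ (K + 1) := by
      rw [pow_succ, mul_comm]
      exact Nat.mul_le_mul_left _ hN1000
    have h4 : N ≤ N ^ (K + 1) := Nat.le_self_pow (by omega) N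
    omega
  · rw [hκ]
    exact c7 K N (pL N) (pn K N) (by omega) hL2 hNbig
  · intro i hi
    have hq : (5 + i) * (pA K N / (16 * (5 + i))) ≤ pA K N / 16 := by
      rw [Nat.le_div_iff_mul_le (by norm_num)]
      calc (5 + i) * (pA K N / (16 * (5 + i))) * 16 =
            pA K N / (16 * (5 + i)) * (16 * (5 + i)) := by ring
        _ ≤ pA K N := Nat.div_mul_le_self _ _
    have hq1 : 1 ≤ pA K N / (16 * (5 + i)) := by
      rw [Nat.le_div_iff_mul_le (by omega)]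
      omega
    have hpp : pp K N i + 1 = pA K N / (16 * (5 + i)) := by
      unfold pp
      omega
    rw [hpp]
    have hdd : pdd K N = pD K N / 2 := rfl
    have hd1 : pL N * (pD K N - 1) ≤ 2 * (pL N * pdd K N) := by
      calc pL N * (pD K N - 1) ≤ pL N * (2 * pdd K N) := Nat.mul_le_mul_left _ (by omega)
        _ = 2 * (pL N * pdd K N) := by ring
    have hd2 : pL N * pD K N ≤ 2 * (pL N * (pD K N - pdd K N)) := by
      calc pL N * pD K N ≤ pL N * (2 * (pD K N - pdd K N)) := Nat.mul_le_mul_left _ (by omega)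
        _ = 2 * (pL N * (pD K N - pdd K N)) := by ring
    have hd3 : pL N * (pD K N - 1) + pL N = pL N * pD K N := by
      obtain ⟨d, hd⟩ : ∃ d, pD K N = d + 1 := ⟨pD K N - 1, by omega⟩
      rw [hd]
      simp only [Nat.add_sub_cancel]
      ring
    have hd4 : pL N * 4 ≤ pL N * pD K N := Nat.mul_le_mul_left _ hD1
    have hd5 : 4000 * pD K N ≤ pL N * pD K N := Nat.mul_le_mul_right _ hLbig
    rw [← hA] at hd2 hd3 hd4 hd5
    generalize (5 + i) * (pA K N / (16 * (5 + i))) = X at *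
    generalize (k + 1) * ph K k N = Y at *
    refine ⟨?_, ?_, ?_⟩
    · omega
    · omega
    · omega

end Pool.Agent.Helper600R2.HT.U2
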