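import Pool.Agent.Helper600R2.HT.Stm2

set_option autoImplicit false

/-! Module U3: the final computation (helper959). -/

namespace Pool.Agent.Helper600R2.HT.U3

open Finset

lemma log_small (ε : ℝ) (hε : 0 < ε) : ∃ N1 : ℕ, ∀ N ≥ N1, (pL N : ℝ) ≤ ε * N := by
  have h1 : ∀ᶠ x : ℝ in Filter.atTop, ‖Real.log x‖ ≤ (ε / 4) * ‖x‖ := by
    have := Real.isLittleO_log_id_atTop
    exact (Asymptotics.isLittleO_iff.1 this) (by positivity)
  rw [Filter.eventually_atTop] at h1
  obtain ⟨x0, hx0⟩ := h1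
  refine ⟨max (Nat.ceil x0) (max 1 (Nat.ceil (2 / ε))), fun N hN => ?_⟩
  have hNx : x0 ≤ (N : ℝ) := le_trans (Nat.le_ceil x0) (by exact_mod_cast le_trans (le_max_left _ _) hN)
  have hN1 : 1 ≤ N := le_trans (le_trans (le_max_left _ _) (le_max_right _ _)) hN
  have hN2 : 2 / ε ≤ (N : ℝ) := le_trans (Nat.le_ceil _)
    (by exact_mod_cast le_trans (le_trans (le_max_right _ _) (le_max_right _ _)) hN)
  have hNr : (1 : ℝ) ≤ N := by exact_mod_cast hN1
  have h2 := hx0 N hNx
  rw [Real.norm_of_nonneg (Real.log_nonneg hNr), Real.norm_of_nonneg (by linarith)] at h2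
  have h3 : (Nat.log 2 N : ℝ) * Real.log 2 ≤ Real.log N := by
    have h4 : ((2 ^ Nat.log 2 N : ℕ) : ℝ) ≤ N := by
      exact_mod_cast Nat.pow_log_le_self 2 (by omega)
    have h5 := Real.log_le_log (by positivity) h4
    rw [Nat.cast_pow, Real.log_pow] at h5
    exact_mod_cast h5
  have h6 : (1 : ℝ) / 2 < Real.log 2 := by linarith [Real.log_two_gt_d9]
  have h7 : (Nat.log 2 N : ℝ) * (1 / 2) ≤ (Nat.log 2 N : ℝ) * Real.log 2 :=
    mul_le_mul_of_nonneg_left h6.le (Nat.cast_nonneg _)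
  have h8 : (1 : ℝ) ≤ ε / 2 * N := by
    rw [div_le_iff₀ hε] at hN2
    linarith
  unfold pL
  push_cast
  linarith

lemma A_large (K : ℕ) : ∃ N1 : ℕ, ∀ N ≥ N1,
    1 / (240 * ((K : ℝ) + 6)) * N ≤ (pA K N : ℝ) := by
  have ha : (0 : ℝ) < 1 / (240 * ((K : ℝ) + 6)) := by positivity
  obtain ⟨N1, hN1⟩ := log_small (1 / (240 * ((K : ℝ) + 6)) / 2) (by positivity)
  refine ⟨N1, fun N hN => ?_⟩
  have h1 := hN1 N hN
  have hL : (1 : ℝ) ≤ (pL N : ℝ) := by
    unfold pL
    push_cast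
    linarith [(Nat.cast_nonneg (Nat.log 2 N) : (0 : ℝ) ≤ _)]
  have hκ : 0 < 2 * pκ K N := by
    unfold pκ pL
    positivity
  have hn : (N : ℝ) < (2 * pκ K N : ℕ) * ((pn K N : ℝ) + 1) := by
    have := Nat.lt_mul_div_succ N hκ
    unfold pn
    exact_mod_cast this
  have hD : (pn K N : ℝ) < 60 * ((pD K N : ℝ) + 1) := by
    have := Nat.lt_mul_div_succ (pn K N) (by norm_num : 0 < 60)
    unfold pD
    exact_mod_cast this
  have hκr : ((2 * pκ K N : ℕ) : ℝ) = 2 * (((K : ℝ) + 6) * (pL N : ℝ)) := by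
    unfold pκ
    push_cast
    ring
  have hn' : (pn K N : ℝ) + 1 ≤ 60 * (pD K N : ℝ) + 60 := by
    have : pn K N < 60 * (pD K N + 1) := by exact_mod_cast hD
    have h2 : pn K N + 1 ≤ 60 * (pD K N + 1) := this
    have h3 : ((pn K N + 1 : ℕ) : ℝ) ≤ ((60 * (pD K N + 1) : ℕ) : ℝ) := by exact_mod_cast h2
    push_cast at h3
    linarith
  have hA : (pA K N : ℝ) = (pL N : ℝ) * (pD K N : ℝ) := by
    unfold pA
    push_cast
    ring
  have hKpos : (0 : ℝ) < (K : ℝ) + 6 := by positivity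
  have hmain : (N : ℝ) ≤ 2 * (((K : ℝ) + 6) * (pL N : ℝ)) * (60 * (pD K N : ℝ) + 60) := by
    rw [hκr] at hn
    refine le_trans hn.le ?_
    exact mul_le_mul_of_nonneg_left hn' (by positivity)
  have h5 : (N : ℝ) ≤ 120 * ((K : ℝ) + 6) * ((pA K N : ℝ) + (pL N : ℝ)) := by
    rw [hA]
    refine le_trans hmain (le_of_eq ?_)
    ring
  have h6 : (N : ℝ) / (120 * ((K : ℝ) + 6)) ≤ (pA K N : ℝ) + (pL N : ℝ) := by
    rw [div_le_iff₀ (by positivity)]
    linarith
  have h7 : (N : ℝ) / (120 * ((K : ℝ) + 6)) = 2 * (1 / (240 * ((K : ℝ) + 6)) * N) := by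
    field_simp
    ring
  have h8 : (0 : ℝ) ≤ 1 / (240 * ((K : ℝ) + 6)) * N := by positivity
  linarith

lemma exp_six : Real.exp 6 < 404 := by
  have h1 : Real.exp 6 = (Real.exp 1) ^ 6 := by
    rw [← Real.exp_nat_mul]
    norm_num
  have h2 := Real.exp_one_lt_d9
  rw [h1]
  calc (Real.exp 1) ^ 6 ≤ (2.7182818286 : ℝ) ^ 6 :=
        pow_le_pow_left₀ (Real.exp_pos 1).le h2.le 6
    _ < 404 := by norm_num

lemma clog_bound (S : ℕ) (x : ℝ) (hx : 0 ≤ x) (hS : (S : ℝ) < Real.exp x) :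
    (Nat.clog 2 S : ℝ) ≤ 1.45 * x + 1 := by
  by_cases h1 : S ≤ 1
  · have : Nat.clog 2 S = 0 := Nat.clog_of_right_le_one h1 2
    rw [this]
    push_cast
    linarith
  · push Not at h1
    have h2 : 2 ^ (Nat.clog 2 S).pred < S := Nat.pow_pred_clog_lt_self (by norm_num) (by omega)
    have h3 : 0 < Nat.clog 2 S := Nat.clog_pos (by norm_num) (by omega)
    obtain ⟨m, hm⟩ : ∃ m, Nat.clog 2 S = m + 1 := ⟨Nat.clog 2 S - 1, by omega⟩
    rw [hm] at h2 ⊢
    simp only [Nat.pred_eq_sub_one, Nat.add_sub_cancel] at h2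
    have h4 : ((2 : ℝ)) ^ m < Real.exp x := by
      have : ((2 ^ m : ℕ) : ℝ) < (S : ℝ) := by exact_mod_cast h2
      push_cast at this
      linarith
    have h5 := Real.log_lt_log (by positivity) h4
    rw [Real.log_exp, Real.log_pow] at h5
    have h6 := Real.log_two_gt_d9
    push_cast
    have h7 : (m : ℝ) * 0.6931471803 ≤ (m : ℝ) * Real.log 2 :=
      mul_le_mul_of_nonneg_left h6.le (Nat.cast_nonneg _)
    nlinarith [(Nat.cast_nonneg m : (0 : ℝ) ≤ m)]

theorem proof_U3 : S_Num2 := by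
  intro K k
  obtain ⟨a0, ha0⟩ : ∃ a0 : ℝ, a0 = 1 / (240 * ((K : ℝ) + 6)) := ⟨_, rfl⟩
  have ha : 0 < a0 := by rw [ha0]; positivity
  have ha1 : a0 ≤ 1 := by
    rw [ha0, div_le_one (by positivity)]
    nlinarith [(Nat.cast_nonneg K : (0 : ℝ) ≤ K)]
  obtain ⟨N1, hN1⟩ := A_large K
  rw [← ha0] at hN1
  have hk : (0 : ℝ) < (k : ℝ) + 1 := by positivity
  have hk1 : (1 : ℝ) ≤ (k : ℝ) + 1 := by linarith [(Nat.cast_nonneg k : (0 : ℝ) ≤ k)]
  obtain ⟨c, hc⟩ : ∃ c : ℝ, c = a0 ^ 2 / (10 ^ 4 * ((k : ℝ) + 1)) := ⟨_, rfl⟩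
  have hc0 : 0 < c := by rw [hc]; positivity
  have hc1 : 24 * c ≤ a0 / 2 := by
    rw [hc]
    have : a0 ^ 2 / (10 ^ 4 * ((k : ℝ) + 1)) ≤ a0 / 10 ^ 4 := by
      rw [div_le_div_iff₀ (by positivity) (by positivity)]
      nlinarith [mul_nonneg ha.le hk.le, mul_nonneg (mul_nonneg ha.le hk.le) ha.le,
        mul_le_mul_of_nonneg_left ha1 ha.le, mul_le_mul_of_nonneg_left hk1 ha.le]
    linarith
  refine ⟨c, max N1 (Nat.ceil (14000 * ((k : ℝ) + 1) / a0)), hc0, fun N hN H S hNH hS => ?_⟩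
  have hNN1 : N ≥ N1 := le_trans (le_max_left _ _) hN
  have hNbig : 14000 * ((k : ℝ) + 1) ≤ a0 * N := by
    have h1 : 14000 * ((k : ℝ) + 1) / a0 ≤ (N : ℝ) :=
      le_trans (Nat.le_ceil _) (by exact_mod_cast le_trans (le_max_right _ _) hN)
    rw [div_le_iff₀ ha] at h1
    linarith
  have hA := hN1 N hNN1
  have hNpos : (0 : ℝ) < N := by
    by_contra hneg
    push Not at hneg
    nlinarith
  have hHN : (N : ℝ) ≤ H := by exact_mod_cast hNH
  have hHpos : (0 : ℝ) < H := lt_of_lt_of_le hNpos hHN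
  obtain ⟨x, hx⟩ : ∃ x : ℝ, x = c * (N : ℝ) ^ 2 / H := ⟨_, rfl⟩
  rw [← hx] at hS
  have hx0 : 0 < x := by rw [hx]; positivity
  have hxN : x ≤ c * N := by
    rw [hx, div_le_iff₀ hHpos]
    have : c * (N : ℝ) ^ 2 = c * N * N := by ring
    rw [this]
    exact mul_le_mul_of_nonneg_left hHN (by positivity)
  have hi := clog_bound S x hx0.le hS
  obtain ⟨i, hi'⟩ : ∃ i, i = Nat.clog 2 S := ⟨_, rfl⟩
  rw [← hi'] at hi
  refine ⟨i, by rw [hi']; exact Nat.le_pow_clog (by norm_num) S, ?_, ?_⟩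
  · have h1 : (16 * (5 + (i : ℝ))) ≤ (pA K N : ℝ) := by
      nlinarith
    exact_mod_cast h1
  · -- lower bounds for `ph` and `pp`
    have hph : a0 * N / (32 * ((k : ℝ) + 1)) ≤ (ph K k N : ℝ) := by
      have h1 : (pA K N : ℝ) < (16 * (k + 1) : ℕ) * ((ph K k N : ℝ) + 1) := by
        have := Nat.lt_mul_div_succ (pA K N) (by positivity : 0 < 16 * (k + 1))
        unfold ph
        exact_mod_cast this
      push_cast at h1
      rw [div_le_iff₀ (by positivity)]
      nlinarith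
    have hpp : (pA K N : ℝ) / (16 * (5 + (i : ℝ))) - 2 ≤ (pp K N i : ℝ) := by
      have h1 : (pA K N : ℝ) < (16 * (5 + i) : ℕ) * (((pA K N / (16 * (5 + i)) : ℕ) : ℝ) + 1) := by
        have := Nat.lt_mul_div_succ (pA K N) (by positivity : 0 < 16 * (5 + i))
        exact_mod_cast this
      have h2 : ((pA K N / (16 * (5 + i)) : ℕ) : ℝ) ≤ (pp K N i : ℝ) + 1 := by
        unfold pp
        have : pA K N / (16 * (5 + i)) ≤ (pA K N / (16 * (5 + i)) - 1) + 1 := by omega
        exact_mod_cast this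
      push_cast at h1
      have h3 : (0 : ℝ) < 16 * (5 + (i : ℝ)) := by positivity
      have h4 : (pA K N : ℝ) / (16 * (5 + (i : ℝ))) ≤
          ((pA K N / (16 * (5 + i)) : ℕ) : ℝ) + 1 := by
        rw [div_le_iff₀ h3]
        push_cast
        linarith
      linarith
    have hgoal : (min H S : ℝ) < (pp K N i : ℝ) * (ph K k N : ℝ) := by
      by_cases h6 : 6 ≤ x
      · -- first case
        have h7 : 5 + (i : ℝ) ≤ 2.45 * x := by linarith
        have h8 : (pA K N : ℝ) / (16 * (2.45 * x)) ≤ (pA K N : ℝ) / (16 * (5 + (i : ℝ))) := by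
          apply div_le_div_of_nonneg_left (Nat.cast_nonneg _) (by positivity)
          linarith
        have h9 : a0 * N / (16 * (2.45 * x)) ≤ (pA K N : ℝ) / (16 * (2.45 * x)) := by
          apply div_le_div_of_nonneg_right hA (by positivity)
        have h10 : a0 * N / (16 * (2.45 * x)) = (10 ^ 4 * ((k : ℝ) + 1)) / (39.2 * a0) * (H / N) := by
          rw [hx, hc]
          field_simp
          norm_num
        have h11 : 255 * (((k : ℝ) + 1) / a0) ≤ (10 ^ 4 * ((k : ℝ) + 1)) / (39.2 * a0) := by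
          rw [le_div_iff₀ (by positivity)]
          have : 255 * (((k : ℝ) + 1) / a0) * (39.2 * a0) = 9996 * ((k : ℝ) + 1) := by
            field_simp
            norm_num
          rw [this]
          linarith
        have h12 : (1 : ℝ) ≤ H / N := by
          rw [le_div_iff₀ hNpos]
          linarith
        have h13 : (1 : ℝ) ≤ ((k : ℝ) + 1) / a0 := by
          rw [le_div_iff₀ ha]
          linarith
        have h14 : 250 * (((k : ℝ) + 1) / a0) * (H / N) ≤ (pp K N i : ℝ) := by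
          have h15 : 255 * (((k : ℝ) + 1) / a0) * (H / N) ≤
              (10 ^ 4 * ((k : ℝ) + 1)) / (39.2 * a0) * (H / N) :=
            mul_le_mul_of_nonneg_right h11 (by positivity)
          have h16 : (1 : ℝ) ≤ (((k : ℝ) + 1) / a0) * (H / N) := by
            nlinarith
          nlinarith
        have h17 : 250 * (((k : ℝ) + 1) / a0) * (H / N) * (a0 * N / (32 * ((k : ℝ) + 1))) ≤
            (pp K N i : ℝ) * (ph K k N : ℝ) :=
          mul_le_mul h14 hph (by positivity) (Nat.cast_nonneg _)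
        have h18 : 250 * (((k : ℝ) + 1) / a0) * (H / N) * (a0 * N / (32 * ((k : ℝ) + 1))) =
            250 / 32 * H := by
          field_simp
        rw [h18] at h17
        have h19 : (min H S : ℝ) ≤ H := min_le_left _ _
        linarith
      · push Not at h6
        have h7 : (S : ℝ) < 404 := by
          refine lt_trans hS (lt_trans ?_ exp_six)
          exact Real.exp_lt_exp.2 h6
        have h8 : 5 + (i : ℝ) ≤ 15 := by linarith
        have h9 : (1 : ℝ) ≤ (pp K N i : ℝ) := by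
          have h10 : (pA K N : ℝ) / (16 * 15) ≤ (pA K N : ℝ) / (16 * (5 + (i : ℝ))) := by
            apply div_le_div_of_nonneg_left (Nat.cast_nonneg _) (by positivity)
            linarith
          have h11 : (3 : ℝ) ≤ (pA K N : ℝ) / (16 * 15) := by
            rw [le_div_iff₀ (by norm_num)]
            nlinarith
          linarith
        have h12 : (404 : ℝ) ≤ (ph K k N : ℝ) := by
          refine le_trans ?_ hph
          rw [le_div_iff₀ (by positivity)]
          nlinarith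
        have h13 : (404 : ℝ) ≤ (pp K N i : ℝ) * (ph K k N : ℝ) := by nlinarith
        have h14 : (min H S : ℝ) ≤ S := min_le_right _ _
        linarith
    exact_mod_cast hgoal

end Pool.Agent.Helper600R2.HT.U3
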