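import Pool.Agent.Helper600R2.HT.Stm2

/-! Task U4: the CNF of a system of constraints. -/

namespace Pool.Agent.Helper600R2.HT.U4

open Finset

variable {n κ : ℕ}

open Classical in
/-- the clauses around the vertex `v` -/
noncomputable def Fv (G : Sys (Fin n) (Fin n × Bool) (Fin κ → Bool)) (v : Fin n) :
    Finset (Finset (((Fin n × Bool) × Fin κ) × Bool)) :=
  (univ.filter (fun α : (G.bdr {v}) → Fin κ → Bool =>
    G.c v * ∏ e : G.bdr {v}, G.r e (α e) ≠ 1)).image (fcl (G.bdr {v}))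

lemma card_Fv (G : Sys (Fin n) (Fin n × Bool) (Fin κ → Bool)) (v : Fin n)
    (h : (G.bdr {v}).card ≤ 4) : (Fv G v).card ≤ (2 ^ κ) ^ 4 := by
  classical
  refine (card_image_le).trans ((card_filter_le _ _).trans ?_)
  rw [card_univ, Fintype.card_fun, Fintype.card_fun, Fintype.card_fin, Fintype.card_bool,
    Fintype.card_coe]
  exact Nat.pow_le_pow_right (by positivity) h

lemma card_fcl (T : Finset (Fin n × Bool)) (α : T → Fin κ → Bool) (h : T.card ≤ 4) :
    (fcl T α).card ≤ 4 * κ := by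
  unfold fcl
  refine card_biUnion_le.trans ?_
  calc ∑ e : T, (univ.image fun b : Fin κ => (((e.1, b), !(α e b)) :
          ((Fin n × Bool) × Fin κ) × Bool)).card ≤ ∑ _e : T, κ := by
        apply sum_le_sum
        intro e _
        refine card_image_le.trans ?_
        rw [card_univ, Fintype.card_fin]
    _ = T.card * κ := by
        rw [sum_const, card_univ, Fintype.card_coe, smul_eq_mul]
    _ ≤ 4 * κ := Nat.mul_le_mul_right _ h

lemma false_iff (T : Finset (Fin n × Bool)) (α : T → Fin κ → Bool)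
    (z : (Fin n × Bool) × Fin κ → Bool) :
    (∀ l ∈ fcl T α, z l.1 ≠ l.2) ↔ ∀ (e : Fin n × Bool) (he : e ∈ T),
      (fun b => z (e, b)) = α ⟨e, he⟩ := by
  unfold fcl
  constructor
  · intro h e he
    funext b
    have := h ((e, b), !(α ⟨e, he⟩ b)) (by
      rw [mem_biUnion]
      exact ⟨⟨e, he⟩, mem_univ _, mem_image.2 ⟨b, mem_univ _, rfl⟩⟩)
    simpa using this
  · intro h l hl
    rw [mem_biUnion] at hl
    obtain ⟨e, -, hl⟩ := hl
    obtain ⟨b, -, rfl⟩ := mem_image.1 hl
    have := congrFun (h e.1 e.2) b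
    simp only at this ⊢
    rw [this]
    simp

lemma prod_vert (G : Sys (Fin n) (Fin n × Bool) (Fin κ → Bool)) (f : Fin n × Bool → ℝ)
    (hf : ∀ e, f e = 1 ∨ f e = -1) : ∏ v : Fin n, ∏ e ∈ G.bdr {v}, f e = 1 := by
  have hf2 : ∀ e, f e * f e = 1 := by
    intro e
    rcases hf e with h | h <;> rw [h] <;> norm_num
  have h1 : ∀ v : Fin n, ∏ e ∈ G.bdr {v}, f e =
      ∏ e : Fin n × Bool, ((if G.hd e = v then f e else 1) * (if G.tl e = v then f e else 1)) := by
    intro v
    unfold Sys.bdr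
    rw [prod_filter]
    apply prod_congr rfl
    intro e _
    simp only [mem_singleton]
    by_cases h1 : G.hd e = v <;> by_cases h2 : G.tl e = v <;> simp [h1, h2, hf2]
  simp_rw [h1]
  rw [prod_comm]
  apply prod_eq_one
  intro e _
  rw [prod_mul_distrib, prod_ite_eq, prod_ite_eq]
  simp [hf2]

lemma exists_vert (G : Sys (Fin n) (Fin n × Bool) (Fin κ → Bool)) (hG : G.Ok)
    (Z : Fin n × Bool → Fin κ → Bool) : ∃ v, G.c v * ∏ e ∈ G.bdr {v}, G.r e (Z e) ≠ 1 := by
  by_contra hcon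
  push Not at hcon
  have h1 : ∏ v : Fin n, (G.c v * ∏ e ∈ G.bdr {v}, G.r e (Z e)) = 1 :=
    prod_eq_one fun v _ => hcon v
  rw [prod_mul_distrib, hG.tot, prod_vert G (fun e => G.r e (Z e)) (fun e => hG.sr e _)] at h1
  norm_num at h1

theorem proof_U4 : S_CNF := by
  classical
  intro n κ G hG h4
  refine ⟨univ.biUnion (Fv G), ?_, ?_, ?_, ?_⟩
  · refine card_biUnion_le.trans ?_
    calc ∑ v : Fin n, (Fv G v).card ≤ ∑ _v : Fin n, (2 ^ κ) ^ 4 :=
          sum_le_sum fun v _ => card_Fv G v (h4 v)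
      _ = n * (2 ^ κ) ^ 4 := by simp
  · intro c hc
    obtain ⟨v, -, hc⟩ := mem_biUnion.1 hc
    unfold Fv at hc
    obtain ⟨α, -, rfl⟩ := mem_image.1 hc
    exact card_fcl _ _ (h4 v)
  · intro z
    obtain ⟨v, hv⟩ := exists_vert G hG (fun e b => z (e, b))
    refine ⟨fcl (G.bdr {v}) (fun e b => z (e.1, b)), ?_, ?_⟩
    · refine mem_biUnion.2 ⟨v, mem_univ _, ?_⟩
      unfold Fv
      refine mem_image.2 ⟨_, ?_, rfl⟩
      rw [mem_filter]
      refine ⟨mem_univ _, ?_⟩
      rw [← prod_coe_sort] at hv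
      exact hv
    · rw [false_iff]
      intro e he
      rfl
  · intro c hc
    obtain ⟨v, -, hc⟩ := mem_biUnion.1 hc
    unfold Fv at hc
    obtain ⟨α, hα, rfl⟩ := mem_image.1 hc
    rw [mem_filter] at hα
    refine ⟨v, fun e => if h : e ∈ G.bdr {v} then α ⟨e, h⟩ else fun _ => false, ?_, ?_⟩
    · rw [← prod_coe_sort]
      have : ∏ i : G.bdr {v}, G.r i (if h : (i : Fin n × Bool) ∈ G.bdr {v} then α ⟨i, h⟩
          else fun _ => false) = ∏ e : G.bdr {v}, G.r e (α e) := by
        apply prod_congr rfl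
        intro i _
        rw [dif_pos i.2]
      rw [this]
      exact hα.2
    · intro z hz e he
      rw [false_iff] at hz
      rw [hz e he]
      simp only [dif_pos he]

end Pool.Agent.Helper600R2.HT.U4
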