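import Pool.Agent.Helper600R2.HT.Stm2

/-! U5: existence of the pseudorandom system. -/

namespace Pool.Agent.Helper600R2.HT.U5

open Finset

theorem cardQ (κ : ℕ) : Fintype.card (Fin κ → Bool) = 2 ^ κ := by
  rw [Fintype.card_fun, Fintype.card_bool, Fintype.card_fin]

theorem cardE (n : ℕ) : Fintype.card (Fin n × Bool) = 2 * n := by
  rw [Fintype.card_prod, Fintype.card_fin, Fintype.card_bool, Nat.mul_comm]

theorem stp_eq (n κ : ℕ) : stp (Fin n × Bool) (Fin κ → Bool) = 2 ^ (2 * n * κ) := by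
  unfold stp
  rw [Fintype.card_fun, cardQ, cardE, ← pow_mul]
  congr 1
  ring

theorem proof_U5 : S_Sys := by
  intro n κ Cd _ W a b J1 h kk T β hn hkk hSig hHoe hPR hGr hCard hCd hb1 hb2 hJ1 hTβ hbig
  obtain ⟨hd, tl, hmid, hconn, hstar⟩ := hGr n hn
  have hc1 : 2 ^ Fintype.card (Fin n × Bool) *
      Fintype.card (Fin κ → Bool) ^ Fintype.card (Fin n × Bool) ≤ 2 ^ b := by
    rw [cardE, cardQ, ← pow_mul, ← pow_add]
    refine Nat.pow_le_pow_right (by norm_num) ?_
    have e : κ * (2 * n) = 2 * n * κ := by ring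
    rw [e]
    omega
  have hc2 : stp (Fin n × Bool) (Fin κ → Bool) + 1 ≤ 2 ^ b := by
    rw [stp_eq]
    calc 2 ^ (2 * n * κ) + 1 ≤ 2 ^ (2 * n * κ) * 2 := by
          have := Nat.one_le_two_pow (n := 2 * n * κ)
          omega
      _ = 2 ^ (2 * n * κ + 1) := (pow_succ _ _).symm
      _ ≤ 2 ^ b := Nat.pow_le_pow_right (by norm_num) (by omega)
  have hΓ := hCard (Fin n × Bool) (Fin κ → Bool) Cd a b J1 h kk hkk hCd hc1 hJ1 hc2
  have ht2 : (√((2 : ℝ) ^ T)) ^ 2 = 2 ^ T := Real.sq_sqrt (by positivity)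
  have hc3 : ((2 * n : ℕ) : ℝ) * 2 ^ (2 * n) ≤ 2 ^ b := by
    have h1 : (2 * n) * 2 ^ (2 * n) ≤ 2 ^ b := by
      calc (2 * n) * 2 ^ (2 * n) ≤ 2 ^ (2 * n) * 2 ^ (2 * n) :=
            Nat.mul_le_mul_right _ (Nat.lt_two_pow_self).le
        _ = 2 ^ (4 * n) := by rw [← pow_add]; congr 1; ring
        _ ≤ 2 ^ b := Nat.pow_le_pow_right (by norm_num) hb2
    exact_mod_cast h1
  have hineq : (Fintype.card (CG (Fin n × Bool) (Fin κ → Bool) Cd J1
        (stp (Fin n × Bool) (Fin κ → Bool)) h kk) : ℝ) *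
      (2 ^ Fintype.card (Fin n × Bool) *
        (Fintype.card (Fin κ → Bool) : ℝ) ^ Fintype.card (Fin n × Bool)) *
      Fintype.card (Fin n × Bool) * 2 ^ Fintype.card (Fin n × Bool) *
      (2 * Real.exp (-((√((2 : ℝ) ^ T)) ^ 2 / 2))) < 1 := by
    refine lt_of_le_of_lt ?_ hbig
    rw [ht2]
    refine mul_le_mul_of_nonneg_right ?_ (by positivity)
    rw [mul_assoc _ (Fintype.card (Fin n × Bool) : ℝ)]
    refine mul_le_mul (mul_le_mul ?_ ?_ (by positivity) (by positivity)) ?_ (by positivity)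
      (by positivity)
    · exact_mod_cast hΓ
    · exact_mod_cast hc1
    · rw [cardE]
      exact hc3
  obtain ⟨r, hr⟩ := hSig (Fin n × Bool) (Fin κ → Bool)
    (CG (Fin n × Bool) (Fin κ → Bool) Cd J1 (stp (Fin n × Bool) (Fin κ → Bool)) h kk)
    (fun x => setG ((2 : ℝ) ^ β) W x) (√((2 : ℝ) ^ T)) (Real.sqrt_nonneg _) hHoe hineq
  have v0 : Fin n := ⟨0, by omega⟩
  refine ⟨{ hd := hd, tl := tl, r := fun e u => sg (r e u),
            c := fun v => if v = v0 then -1 else 1, D0 := n / 60 }, ?_, rfl, ?_, ?_⟩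
  · constructor
    · intro U h1 h2
      rw [Fintype.card_fin] at h1 h2
      exact hmid U h1 h2
    · intro U hU
      exact hconn U hU
    · intro e u
      change sg (r e u) = 1 ∨ sg (r e u) = -1
      unfold sg
      split_ifs
      · exact Or.inr rfl
      · exact Or.inl rfl
    · intro v
      change (if v = v0 then (-1 : ℝ) else 1) = 1 ∨ (if v = v0 then (-1 : ℝ) else 1) = -1
      split_ifs
      · exact Or.inr rfl
      · exact Or.inl rfl
    · change ∏ v, (if v = v0 then (-1 : ℝ) else 1) = -1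
      rw [Finset.prod_ite_eq' univ v0 (fun _ => (-1 : ℝ)), if_pos (mem_univ _)]
  · intro v
    exact hstar v
  · intro x
    refine hPR (Fin n × Bool) (Fin κ → Bool) (fun e u => sg (r e u)) (setG ((2 : ℝ) ^ β) W x)
      (√((2 : ℝ) ^ T)) ((2 : ℝ) ^ β) (Real.sqrt_nonneg _) (one_le_pow₀ (by norm_num)) ?_
      (hr x)
    rw [ht2, cardQ, ← pow_mul, Nat.mul_comm β 3]
    exact_mod_cast hTβ

end Pool.Agent.Helper600R2.HT.U5
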